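import Pool.Agent.W36.JL.J3A
import Pool.Agent.H499R2.LT.A

/-! Functions of the number of odd terms before the first visit of `1`: coalescence and transport. -/

set_option autoImplicit false

namespace Pool.Agent.K3h45.HJ

open Pool.Agent.H320R2.PD Pool.Agent.H499R2.ND Finset Pool.Agent.H499R2.CO Pool.Agent.W41.FU
open Pool.Agent.H499R2.LT (od od_add)
open Pool.Agent.W36.JL (ClosedL iter_ge)

/-- If the pair does not survive, the trajectories coalesce, and the numbers of odd terms differ by `i`. -/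
theorem coalO {d : ℤ} (hd : d % 2 = 1) : ∀ (k i : ℕ) (r x : ℤ), ¬ surv d k (i, r) x →
    ∃ t ≤ k, (Tz d)^[t] x = (Tz d)^[t] (3 ^ i * x + d * r) ∧ od d t x = i + od d t (3 ^ i * x + d * r) := by
  intro k
  induction k with
  | zero =>
    intro i r x h
    simp only [surv, ne_eq, not_not, Prod.mk.injEq] at h
    obtain ⟨rfl, rfl⟩ := h
    exact ⟨0, le_rfl, by simp, by simp [od]⟩
  | succ k ih =>
    intro i r x h
    by_cases h0 : (i, r) = ((0 : ℕ), (0 : ℤ))
    · rw [Prod.mk.injEq] at h0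
      obtain ⟨rfl, rfl⟩ := h0
      exact ⟨0, by omega, by simp, by simp [od]⟩
    · have h' : ¬ surv d k (step (i, r) (decide (x % 2 = 1))) (nx d (i, r) x) := by
        intro h2; exact h ⟨h0, h2⟩
      have hod : ∀ (t : ℕ) (z : ℤ), od d (t + 1) z = z % 2 + od d t (Tz d z) := by
        intro t z
        rw [od]
        rcases Int.emod_two_eq_zero_or_one z with h1 | h1
        · rw [if_pos h1, h1]; rfl
        · rw [if_neg (by omega), h1]; rfl
      rcases pair_step hd i r x with ⟨e1, e2, e3⟩ | ⟨e1, e2, e3, e4, e5, e6⟩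
      · rw [e1] at h'
        obtain ⟨t, ht, hh, ho⟩ := ih (step (i, r) (decide (x % 2 = 1))).1 (step (i, r) (decide (x % 2 = 1))).2 _ h'
        rw [e2] at hh ho
        refine ⟨t + 1, by omega, hh, ?_⟩
        rw [hod, hod]
        omega
      · rw [e1] at h'
        obtain ⟨t, ht, hh, ho⟩ := ih (step (i, r) (decide (x % 2 = 1))).1 (step (i, r) (decide (x % 2 = 1))).2 _ h'
        rw [e2] at hh ho
        refine ⟨t + 1, by omega, hh.symm, ?_⟩
        rw [hod, hod]
        omega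

/-- first visit of `1` after `k` steps -/
def Hz (k : ℕ) (x : ℤ) : Prop := (Td 1)^[k] x = 1 ∧ ∀ i < k, (Td 1)^[i] x ≠ 1

theorem Hz_unique {k k' : ℕ} {x : ℤ} (h : Hz k x) (h' : Hz k' x) : k = k' := by
  rcases lt_trichotomy k k' with h1 | h1 | h1
  · exact absurd h.1 (h'.2 k h1)
  · exact h1
  · exact absurd h'.1 (h.2 k' h1)

/-- `o` is the number of odd terms before the first visit of `1` -/
def OZ (x o : ℤ) : Prop := ∃ k : ℕ, Hz k x ∧ od 1 k x = o

theorem OZ_unique {x o o' : ℤ} (h : OZ x o) (h' : OZ x o') : o = o' := by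
  obtain ⟨k, h1, h2⟩ := h
  obtain ⟨k', h3, h4⟩ := h'
  obtain rfl := Hz_unique h1 h3
  exact h2.symm.trans h4

theorem Hz_add {j k : ℕ} {x : ℤ} (h : ∀ i < j, (Td 1)^[i] x ≠ 1) : Hz (j + k) x ↔ Hz k ((Td 1)^[j] x) := by
  unfold Hz
  rw [add_comm j k, Function.iterate_add_apply]
  refine and_congr_right fun _ => ?_
  constructor
  · intro h1 i hi
    rw [← Function.iterate_add_apply]
    exact h1 (i + j) (by omega)
  · intro h1 i hi
    rcases lt_or_ge i j with h2 | h2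
    · exact h i h2
    · obtain ⟨l, rfl⟩ := Nat.exists_eq_add_of_le h2
      rw [add_comm j l, Function.iterate_add_apply]
      exact h1 l (by omega)

/-- the number of odd terms after `j` steps -/
theorem OZ_iter {j : ℕ} {x : ℤ} (h : ∀ i < j, (Td 1)^[i] x ≠ 1) (o : ℤ) :
    OZ x o ↔ OZ ((Td 1)^[j] x) (o - od 1 j x) := by
  constructor
  · rintro ⟨k, h1, h2⟩
    have hjk : j ≤ k := by
      by_contra hcon
      push Not at hcon
      exact h k hcon h1.1
    obtain ⟨l, rfl⟩ := Nat.exists_eq_add_of_le hjk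
    refine ⟨l, (Hz_add h).1 h1, ?_⟩
    rw [od_add] at h2
    linarith
  · rintro ⟨k, h1, h2⟩
    refine ⟨j + k, (Hz_add h).2 h1, ?_⟩
    rw [od_add]
    linarith

theorem no_one {j : ℕ} {x : ℤ} (hx : 2 ^ j < x) : ∀ i < j, (Td 1)^[i] x ≠ 1 := by
  intro i hi h
  have h0 : (0 : ℤ) < 2 ^ j := by positivity
  have h1 := (iter_ge i x (by linarith)).2
  rw [h, mul_one] at h1
  have h3 : (2 : ℤ) ^ i ≤ 2 ^ j := pow_le_pow_right₀ (by norm_num) hi.le
  linarith

theorem OZ_coal {j : ℕ} {x y : ℤ} (hx : 2 ^ j < x) (hy : 2 ^ j < y) (h : (Td 1)^[j] x = (Td 1)^[j] y)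
    (ho : od 1 j x = od 1 j y) (o : ℤ) : OZ x o ↔ OZ y o := by
  rw [OZ_iter (no_one hx), OZ_iter (no_one hy), h, ho]

theorem OZ_two {x o : ℤ} : OZ (2 * x) o ↔ OZ x o := by
  have h : ∀ i < 1, (Td 1)^[i] (2 * x) ≠ 1 := by
    intro i hi
    obtain rfl : i = 0 := by omega
    intro h
    have : 2 * x = 1 := h
    omega
  rw [OZ_iter h]
  have e1 : (Td 1)^[1] (2 * x) = x := by rw [Function.iterate_one, Td_two]
  have e2 : od 1 1 (2 * x) = 0 := by simp [od]
  rw [e1, e2, sub_zero]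

theorem OZ_two_pow (e : ℕ) {x o : ℤ} : OZ (2 ^ e * x) o ↔ OZ x o := by
  induction e with
  | zero => simp
  | succ e ih => rw [show (2 : ℤ) ^ (e + 1) * x = 2 * (2 ^ e * x) by ring, OZ_two, ih]

/-- an odd step -/
theorem OZ_odd {x : ℤ} (hx : x % 2 = 1) (hx1 : x ≠ 1) (o : ℤ) : OZ x o ↔ OZ (3 * x + 1) (o - 1) := by
  have h : ∀ i < 1, (Td 1)^[i] x ≠ 1 := by
    intro i hi
    obtain rfl : i = 0 := by omega
    exact hx1
  rw [OZ_iter h]
  have e1 : 3 * x + 1 = 2 * (Td 1)^[1] x := by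
    rw [Function.iterate_one]; unfold Td; rw [if_neg (by omega)]; omega
  have e2 : od 1 1 x = 1 := by
    simp only [od]; rw [if_neg (by omega)]; rfl
  rw [e1, OZ_two, e2]

open Classical in
/-- the function of the number of odd terms -/
noncomputable def fo (F : ℤ → ℝ) (c : ℝ) (x : ℤ) : ℝ := if h : ∃ o, OZ x o then F h.choose else c

theorem fo_pos {F : ℤ → ℝ} {c : ℝ} {x o : ℤ} (h : OZ x o) : fo F c x = F o := by
  unfold fo
  have h1 : ∃ o, OZ x o := ⟨o, h⟩
  rw [dif_pos h1, OZ_unique h1.choose_spec h]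

theorem fo_neg {F : ℤ → ℝ} {c : ℝ} {x : ℤ} (h : ¬ ∃ o, OZ x o) : fo F c x = c := by
  unfold fo
  rw [dif_neg h]

theorem fo_congr {F : ℤ → ℝ} {c : ℝ} {x y : ℤ} (k : ℤ) (h : ∀ o, OZ x o ↔ OZ y (o - k)) :
    fo F c x = fo (fun o => F (o + k)) c y := by
  by_cases hx : ∃ o, OZ x o
  · obtain ⟨o, ho⟩ := hx
    rw [fo_pos ho, fo_pos ((h o).1 ho), sub_add_cancel]
  · have hy : ¬ ∃ o, OZ y o := by
      rintro ⟨o, ho⟩
      exact hx ⟨o + k, (h _).2 (by rw [add_sub_cancel_right]; exact ho)⟩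
    rw [fo_neg hx, fo_neg hy]

/-- the bounded functions of the number of odd terms -/
def HC : Set (ℤ → ℝ) := {f | ∃ (F : ℤ → ℝ) (c : ℝ), (∀ o, |F o| ≤ 1) ∧ |c| ≤ 1 ∧ f = fo F c}

/-- bounded functions that take the same value at `x` and `y` whenever the trajectories are at the
same point after `j` steps with the same number of odd terms, `x` and `y` being larger than `2 ^ j` -/
def SameO (d : ℤ) : Set (ℤ → ℝ) :=
  {f | (∀ x, |f x| ≤ 1) ∧ ∀ (j : ℕ) (x y : ℤ), 2 ^ j < x → 2 ^ j < y → (Tz d)^[j] x = (Tz d)^[j] y →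
    od d j x = od d j y → f x = f y}

theorem HC_abs {f : ℤ → ℝ} (hf : f ∈ HC) (x : ℤ) : |f x| ≤ 1 := by
  obtain ⟨F, c, hF, hc, rfl⟩ := hf
  by_cases h : ∃ o, OZ x o
  · obtain ⟨o, ho⟩ := h
    rw [fo_pos ho]; exact hF o
  · rw [fo_neg h]; exact hc

theorem HC_same {f : ℤ → ℝ} (hf : f ∈ HC) : f ∈ SameO 1 := by
  refine ⟨HC_abs hf, ?_⟩
  obtain ⟨F, c, hF, hc, rfl⟩ := hf
  intro j x y hx hy h ho
  have := fo_congr (F := F) (c := c) (x := x) (y := y) 0 (fun o => by rw [sub_zero]; exact OZ_coal hx hy h ho o)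
  simpa using this

theorem HC_two {f : ℤ → ℝ} (hf : f ∈ HC) (e : ℕ) : (fun x => f (2 ^ e * x)) ∈ HC := by
  obtain ⟨F, c, hF, hc, rfl⟩ := hf
  refine ⟨F, c, hF, hc, ?_⟩
  funext x
  have := fo_congr (F := F) (c := c) (x := 2 ^ e * x) (y := x) 0 (fun o => by rw [sub_zero]; exact OZ_two_pow e)
  simpa using this

theorem od_two_pow (d : ℤ) (e : ℕ) (x : ℤ) : od d e (2 ^ e * x) = 0 := by
  induction e with
  | zero => rfl
  | succ e ih =>
    rw [od, show (2 : ℤ) ^ (e + 1) * x = 2 * (2 ^ e * x) by ring, if_pos (by omega), Td_two, ih, add_zero]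

/-- the number of odd terms along a word is its length -/
theorem word_od {d : ℤ} (hd : Odd d) (w : List ℕ) : (∀ a ∈ w, 1 ≤ a) → ∀ M x : ℤ, Odd M → Odd x →
    Vw d w M x → od d w.sum M = w.length := by
  induction w using List.reverseRecOn with
  | nil =>
    intro _ M x _ _ h
    rfl
  | append_singleton u e ih =>
    intro hw M x hM hx h
    have hu : ∀ a ∈ u, 1 ≤ a := fun a ha => hw a (by simp [ha])
    obtain ⟨M₁, hM₁, h1, h2⟩ := Vw_snoc hd hu hx h
    have h3 := ih hu M₁ x hM₁ hx h2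
    have he : 1 ≤ e := hw e (by simp)
    obtain ⟨e', rfl⟩ : ∃ e', e = e' + 1 := ⟨e - 1, by omega⟩
    have h4 : Td d M = 2 ^ e' * M₁ := Td_odd hM (by rw [h1, pow_succ]; ring)
    have h5 : (Td d)^[e' + 1] M = M₁ := by rw [Function.iterate_succ_apply, h4, Td_two_pow]
    have h6 : od d (e' + 1) M = 1 := by
      rw [od, if_neg (by obtain ⟨t, ht⟩ := hM; omega), h4, od_two_pow, add_zero]
    rw [List.sum_append, List.sum_singleton, add_comm u.sum, od_add, h5, h3, h6, List.length_append, List.length_singleton]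
    push_cast
    ring

theorem HC_closed {d : ℤ} (hd1 : d = 1) : ClosedL d HC := by
  subst hd1
  intro f hf
  refine ⟨HC_abs hf, fun k T => ?_⟩
  obtain ⟨F, c, hF, hc, rfl⟩ := hf
  refine ⟨fo (fun o => F (o + k)) c, ⟨_, c, fun o => hF _, hc, rfl⟩, ?_⟩
  intro w hw hlen hsum M x hM2 hx hV
  have hM3 : (2 : ℤ) ^ T < M := by exact_mod_cast hM2
  have key : (Td 1)^[T] M = x ∧ od 1 T M = k := by
    rcases eq_or_ne w [] with rfl | hne
    · unfold Vw at hV
      simp [Wo] at hV hsum hlen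
      subst hsum hlen
      exact ⟨by simpa using hV, rfl⟩
    · have hM : Odd M := Vw_odd_left odd_one hw hne hV
      have h1 := iter_word' odd_one w hw M x hM hx hV
      have h2 := word_od odd_one w hw M x hM hx hV
      rw [hsum] at h1 h2
      rw [hlen] at h2
      exact ⟨h1, h2⟩
  apply fo_congr
  intro o
  rw [OZ_iter (no_one hM3), key.1, key.2]

end Pool.Agent.K3h45.HJ
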