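import Pool.Agent.W36.GT.T4
import Pool.Agent.K3h45.HJ.H1

/-! Comparison of sifted sums for sets of integers that are invariant under early coalescence with equal
numbers of odd terms. -/

set_option autoImplicit false

namespace Pool.Agent.K3h45.HJ

open Finset Pool.Agent.W36.GK Pool.Agent.H499R2.CO Pool.Agent.W41 Pool.Agent.H499R2.ND
open Pool.Agent.W36.GS hiding inv_iter surv_of bad bad_of surv_int surv_Icc ub2 bad_sum cmp cmp_parq
open Pool.Agent.W36.GT hiding inv_iter surv_of bad_of cmp cmp_parq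

/-- points of `S` are preserved under coalescence before the time `k` with equal numbers of odd terms, above `M` -/
def Coal (d s : ℤ) (M : ℤ) (k : ℕ) (S : Set ℤ) : Prop :=
  ∀ l : ℕ, l ≤ k → ∀ x y : ℤ, M < s * x → M < s * y → (Tz d)^[l] x = (Tz d)^[l] y →
    Pool.Agent.H499R2.LT.od d l x = Pool.Agent.H499R2.LT.od d l y → (x ∈ S ↔ y ∈ S)

theorem bad_ofO {D r : ℕ} {dd : Fin r → ℤ} (hdo : ∀ i, dd i % 2 = 1) {Λ : Fin r → Fin D → ℤ} {c s : Fin r → ℤ} (hs : ∀ i, s i = 1 ∨ s i = -1)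
    {M N : Fin r → ℕ} (hMN : ∀ i, M i ≤ N i) {L : ℕ} (hL : 1 ≤ L)
    {P P' : Fin D → ℤ} {S : Fin r → Set ℤ}  {H k : ℕ} (hS : ∀ i, Coal (dd i) (s i) (M i) k (S i)) {A : ℤ} (hA : ∀ i, sz (Λ i) ≤ A)
    {h : Fin D → ℤ} (hh : h ∈ cube D H) {u : Fin r → ℤ} (hu : ∀ i, dd i * u i = -(L * dot (Λ i) h)) (x : Fin D → ℤ)
    (hx : ¬ (x ∈ pts (fun i => (L : ℤ) • Λ i) c s M N P P' S ↔ x - h ∈ pts (fun i => (L : ℤ) • Λ i) c s M N P P' S)) :
    x ∈ bad Λ c s M N P P' H k A L dd u := by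
  classical
  have hL0 : (0 : ℤ) < L := by exact_mod_cast hL
  have hc := mem_cube.1 hh
  have hbox : x ∈ box P (fun j => P' j + H) := by
    rw [mem_box]
    by_cases h1 : x ∈ pts (fun i => (L : ℤ) • Λ i) c s M N P P' S
    · have h2 := mem_box.1 (mem_filter.1 h1).1
      intro j
      have := h2 j
      constructor <;> linarith [this.1, this.2, Int.natCast_nonneg H]
    · have h1' : x - h ∈ pts (fun i => (L : ℤ) • Λ i) c s M N P P' S := by
        by_contra h3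
        exact hx ⟨fun h4 => absurd h4 h1, fun h4 => absurd h4 h3⟩
      have h2 := mem_box.1 (mem_filter.1 h1').1
      intro j
      have h3 := h2 j
      simp only [Pi.sub_apply] at h3
      have h4 := hc j
      constructor <;> linarith [h3.1, h3.2, h4.1, h4.2]
  unfold bad
  simp only [mem_union, mem_biUnion, mem_univ, true_and, mem_filter, dot_single]
  by_cases hb1 : x ∈ box P P'
  · by_cases hb2 : x - h ∈ box P P'
    · -- both in the box
      have h5 : ∃ i, ¬ (((dot ((L : ℤ) • Λ i) x + c i) ∈ S i ∧ (M i : ℤ) < s i * (dot ((L : ℤ) • Λ i) x + c i) ∧ s i * (dot ((L : ℤ) • Λ i) x + c i) ≤ N i) ↔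
          ((dot ((L : ℤ) • Λ i) (x - h) + c i) ∈ S i ∧ (M i : ℤ) < s i * (dot ((L : ℤ) • Λ i) (x - h) + c i) ∧ s i * (dot ((L : ℤ) • Λ i) (x - h) + c i) ≤ N i)) := by
        by_contra h6
        push Not at h6
        apply hx
        unfold pts
        rw [mem_filter, mem_filter]
        simp only [hb1, hb2, true_and]
        exact forall_congr' h6
      obtain ⟨i, h6⟩ := h5
      have h7 : |dot (Λ i) h| ≤ A * H := (dot_cube (Λ i) hh).trans (mul_le_mul_of_nonneg_right (hA i) (Int.natCast_nonneg H))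
      rw [dot_sub', dot_smul_left, dot_smul_left] at h6
      set m := dot (Λ i) h with hm
      set y := dot (Λ i) x with hy
      have e1 : (L : ℤ) * y - L * m + c i = (L * y + c i) - L * m := by ring
      rw [e1] at h6
      set w := (L : ℤ) * y + c i with hw
      -- the window
      have e5 : dot (s i • Λ i) x = s i * y := dot_smul_left _ _ _
      have ew : ∀ (Z t : ℤ), Z < L * t + s i * c i ↔ (Z - s i * c i) / (L : ℤ) < t := by
        intro Z t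
        rw [Int.ediv_lt_iff_lt_mul hL0]
        constructor <;> intro h <;> linarith
      have ew' : ∀ (Z t : ℤ), L * t + s i * c i ≤ Z ↔ t ≤ (Z - s i * c i) / (L : ℤ) := by
        intro Z t
        rw [← not_lt, ew, not_lt]
      have f1 : s i * w = L * (s i * y) + s i * c i := by rw [hw]; ring
      have f2 : s i * (w - L * m) = L * (s i * y - s i * m) + s i * c i := by rw [hw]; ring
      set t := s i * y with ht
      set m' := s i * m with hm'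
      have h14 : |m'| ≤ A * H := by
        rw [hm', abs_mul]
        have : |s i| = 1 := by rcases hs i with h | h <;> rw [h] <;> simp
        rw [this, one_mul]; exact h7
      have h15 := abs_le.1 h14
      rw [f1, f2, ew, ew, ew', ew'] at h6
      by_cases h9 : (((M i : ℤ) - s i * c i) / (L : ℤ) < t ∧ t ≤ ((N i : ℤ) - s i * c i) / (L : ℤ)) ↔
          (((M i : ℤ) - s i * c i) / (L : ℤ) < t - m' ∧ t - m' ≤ ((N i : ℤ) - s i * c i) / (L : ℤ))
      · -- the values are in the same window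
        have h10 : ¬ (w ∈ S i ↔ w - L * m ∈ S i) := by
          intro h11
          apply h6
          constructor
          · rintro ⟨a1, a2⟩; exact ⟨h11.1 a1, h9.1 a2⟩
          · rintro ⟨a1, a2⟩; exact ⟨h11.2 a1, h9.2 a2⟩
        by_cases hwin : ((M i : ℤ) - s i * c i) / (L : ℤ) < t ∧ t ≤ ((N i : ℤ) - s i * c i) / (L : ℤ)
        · have hwin2 := h9.1 hwin
          have g1 : (M i : ℤ) < s i * w := by rw [f1]; exact (ew _ _).2 hwin.1
          have g2 : (M i : ℤ) < s i * (w - L * m) := by rw [f2]; exact (ew _ _).2 hwin2.1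
          right
          refine ⟨i, hbox, ?_⟩
          by_contra hcon
          obtain ⟨l, hl, hlt, hlo⟩ := coalO (d := dd i) (hdo i) k 0 (u i) w hcon
          have e2 : (3 : ℤ) ^ 0 * w + dd i * u i = w - L * m := by rw [hu i, ← hm]; ring
          rw [e2] at hlt hlo
          rw [Nat.cast_zero, zero_add] at hlo
          exact h10 (hS i l hl w (w - L * m) g1 g2 hlt hlo)
        · exfalso
          apply h6
          constructor
          · rintro ⟨_, a2⟩; exact absurd a2 hwin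
          · rintro ⟨_, a2⟩; exact absurd (h9.2 a2) hwin
      · have h13 : ((M i : ℤ) - s i * c i) / (L : ℤ) ≤ ((N i : ℤ) - s i * c i) / (L : ℤ) := by
          apply Int.ediv_le_ediv hL0
          have : (M i : ℤ) ≤ N i := by exact_mod_cast hMN i
          linarith
        set zM := ((M i : ℤ) - s i * c i) / (L : ℤ) with hzM
        set zN := ((N i : ℤ) - s i * c i) / (L : ℤ) with hzN
        have h16 : (zM - A * H ≤ t ∧ t ≤ zM + A * H) ∨ (zN - A * H ≤ t ∧ t ≤ zN + A * H) := by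
          by_contra h17
          apply h9
          push Not at h17
          obtain ⟨b1, b2⟩ := h17
          rcases lt_or_ge t (zM - A * H) with g | g
          · constructor
            · rintro ⟨c1, c2⟩; exfalso; linarith [h15.1, h15.2]
            · rintro ⟨c1, c2⟩; exfalso; linarith [h15.1, h15.2]
          · have g2 := b1 g
            rcases lt_or_ge t (zN - A * H) with g3 | g3
            · constructor
              · rintro ⟨c1, c2⟩; constructor <;> linarith [h15.1, h15.2]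
              · rintro ⟨c1, c2⟩; constructor <;> linarith [h15.1, h15.2]
            · have g4 := b2 g3
              constructor
              · rintro ⟨c1, c2⟩; exfalso; linarith [h15.1, h15.2]
              · rintro ⟨c1, c2⟩; exfalso; linarith [h15.1, h15.2]
        rcases h16 with ⟨a1, a2⟩ | ⟨a1, a2⟩
        · left; left; right
          exact ⟨i, hbox, by rw [e5]; exact a1, by rw [e5]; exact a2⟩
        · left; right
          exact ⟨i, hbox, by rw [e5]; exact a1, by rw [e5]; exact a2⟩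
    · -- `x` in the box, `x - h` not
      rw [mem_box] at hb2
      push Not at hb2
      obtain ⟨j, hj⟩ := hb2
      have h2 := mem_box.1 hb1 j
      have h3 := hc j
      simp only [Pi.sub_apply] at hj
      left; left; left; left
      refine ⟨j, hbox, by linarith [h2.1], ?_⟩
      by_contra h4
      push Not at h4
      have h5 := hj (by linarith [h3.2])
      linarith [h2.2, h3.1]
  · have hb2 : x - h ∈ box P P' := by
      by_contra h3
      apply hx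
      unfold pts
      rw [mem_filter, mem_filter]
      exact ⟨fun h4 => absurd h4.1 hb1, fun h4 => absurd h4.1 h3⟩
    rw [mem_box] at hb1
    push Not at hb1
    obtain ⟨j, hj⟩ := hb1
    have h2 := mem_box.1 hb2 j
    simp only [Pi.sub_apply] at h2
    have h3 := hc j
    have h4 := hj (by linarith [h2.1, h3.1])
    left; left; left; right
    exact ⟨j, hbox, by linarith, by linarith [h2.2, h3.2]⟩

/-- THE COMPARISON -/
theorem cmpO {D r : ℕ} {dd : Fin r → ℤ} (hdo : ∀ i, dd i % 2 = 1) {L : ℕ} (hL : 1 ≤ L) (hLo : L % 2 = 1) {H X k : ℕ} {sg : (Fin (D + 1) → ℤ) → ℝ} (hsg : ∀ x, 0 ≤ sg x) {V ε1 c2 : ℝ} (hV : 0 ≤ V) (hε1 : 0 ≤ ε1) (hε11 : ε1 ≤ 1) (hc2 : 0 ≤ c2)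
    (hF1 : ∀ y, |∑ h ∈ cube (D + 1) H, sg (y + h) - (H : ℝ) ^ (D + 1) * V| ≤ ε1 * ((H : ℝ) ^ (D + 1) * V))
    (hF2 : ∀ y, ∑ h ∈ cube (D + 1) H, sg (y + ((2 ^ k : ℕ) : ℤ) • h) ≤ c2 * ((H : ℝ) ^ (D + 1) * V))
    {Λ : Fin r → Fin (D + 1) → ℤ} (h0 : ∀ i, Λ i ≠ 0) (c : Fin r → ℤ) {s : Fin r → ℤ} (hs : ∀ i, s i = 1 ∨ s i = -1) {M N : Fin r → ℕ}
    (hMN : ∀ i, M i ≤ N i) {S : Fin r → Set ℤ} (hS : ∀ i, Coal (dd i) (s i) (M i) k (S i))
    {P P' : Fin (D + 1) → ℤ} (hH : 1 ≤ H) {A : ℕ} (hA : ∀ i, sz (Λ i) ≤ A)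
    (hP : ∀ j, P' j - P j + H + 2 ^ k * H ≤ X) {q0 : ℝ}
    {u : (Fin (D + 1) → ℤ) → Fin r → ℤ} (hu : ∀ h ∈ cube (D + 1) H, ∀ i, dd i * u h i = -(L * dot (Λ i) h))
    (hq : ∀ h ∈ cube (D + 1) H, ∀ i, q step (0, 0) k (0, u h i) ≤ q0) :
    |∑ x ∈ pts (fun i => (L : ℤ) • Λ i) c s M N P P' S, sg x - V * (pts (fun i => (L : ℤ) • Λ i) c s M N P P' S).card| ≤
      V * (ε1 * (pts (fun i => (L : ℤ) • Λ i) c s M N P P' S).card + 12 * (D + 1) * H * (X : ℝ) ^ D + 4 * r * (4 * A * H + 1) * (X : ℝ) ^ D +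
        c2 * r * (2 * A * X + 2 ^ k) * q0 * (X : ℝ) ^ D) := by
  classical
  have hHR : (0 : ℝ) < (H : ℝ) ^ (D + 1) := by
    have : (0 : ℝ) < H := by exact_mod_cast hH
    positivity
  have hHV : 0 ≤ (H : ℝ) ^ (D + 1) * V := mul_nonneg hHR.le hV
  have hC1 : ∀ y, ∑ h ∈ cube (D + 1) H, sg (y + h) ≤ 2 * ((H : ℝ) ^ (D + 1) * V) := by
    intro y
    have := (abs_le.1 (hF1 y)).2
    have h1 : ε1 * ((H : ℝ) ^ (D + 1) * V) ≤ 1 * ((H : ℝ) ^ (D + 1) * V) := mul_le_mul_of_nonneg_right hε11 hHV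
    linarith
  have hErr : ∀ h ∈ cube (D + 1) H, |∑ x ∈ pts (fun i => (L : ℤ) • Λ i) c s M N P P' S, sg x - ∑ x ∈ pts (fun i => (L : ℤ) • Λ i) c s M N P P' S, sg (x + h)| ≤
      V * (12 * (D + 1) * H * (X : ℝ) ^ D + 4 * r * (4 * A * H + 1) * (X : ℝ) ^ D + c2 * r * (2 * A * X + 2 ^ k) * q0 * (X : ℝ) ^ D) := by
    intro h hh
    refine (shift_bad hsg _ (bad Λ c s M N P P' H k A L dd (u h)) h (fun x hx => bad_ofO hdo hs hMN hL hS hA hh (hu h hh) x hx)).trans ?_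
    have h1 := bad_sum hdo hLo hsg (by positivity) (by positivity) hC1 hF2 h0 c hs M N hH hA hP (hq h hh)
    have e1 : 2 * ((H : ℝ) ^ (D + 1) * V) * (6 * (D + 1) * H * (X : ℝ) ^ D) + 2 * ((H : ℝ) ^ (D + 1) * V) * (2 * r * (4 * A * H + 1) * (X : ℝ) ^ D) +
        c2 * ((H : ℝ) ^ (D + 1) * V) * (r * (2 * A * X + 2 ^ k) * q0 * (X : ℝ) ^ D) = (H : ℝ) ^ (D + 1) * (V * (12 * (D + 1) * H * (X : ℝ) ^ D +
        4 * r * (4 * A * H + 1) * (X : ℝ) ^ D + c2 * r * (2 * A * X + 2 ^ k) * q0 * (X : ℝ) ^ D)) := by ring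
    rw [e1] at h1
    exact le_of_mul_le_mul_left h1 hHR
  have h2 := avg_main (cube (D + 1) H) (pts (fun i => (L : ℤ) • Λ i) c s M N P P' S) hF1 hErr
  rw [card_cube] at h2
  push_cast at h2
  have e2 : (H : ℝ) ^ (D + 1) * ∑ x ∈ pts (fun i => (L : ℤ) • Λ i) c s M N P P' S, sg x - (H : ℝ) ^ (D + 1) * V * (pts (fun i => (L : ℤ) • Λ i) c s M N P P' S).card =
      (H : ℝ) ^ (D + 1) * (∑ x ∈ pts (fun i => (L : ℤ) • Λ i) c s M N P P' S, sg x - V * (pts (fun i => (L : ℤ) • Λ i) c s M N P P' S).card) := by ring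
  rw [e2, abs_mul, abs_of_pos hHR] at h2
  apply le_of_mul_le_mul_left _ hHR
  refine h2.trans (le_of_eq ?_)
  ring

/-- THE COMPARISON in residue classes, with parameters -/
theorem cmp_parqO {D r κ : ℕ} {Λ : Fin r → Fin (D + 1) → ℤ} (h0 : ∀ i, Λ i ≠ 0) {s : Fin r → ℤ} (hs : ∀ i, s i = 1 ∨ s i = -1)
    {ε : ℝ} (hε : 0 < ε) : ∃ θ : ℝ, 0 < θ ∧ ∃ N0 : ℕ, ∀ N : ℕ, N0 ≤ N → ∀ Q : Finset ℕ, (∀ p ∈ Q, p.Prime ∧ (p : ℝ) ≤ (N : ℝ) ^ θ) →
    ∀ Ω : (p : ℕ) → Set (Fin (D + 1) → ZMod p), (∀ p ∈ Q, (Ω p).ncard * p ≤ κ * p ^ (D + 1)) →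
    ∀ qq : ℕ, qq % 2 = 1 → (qq : ℝ) ≤ (N : ℝ) ^ θ → (∀ p ∈ Q, ¬ p ∣ qq) → ∀ ρ : Fin (D + 1) → ZMod qq,
    ∀ L : ℕ, L % 2 = 1 → (L : ℝ) ≤ (N : ℝ) ^ θ → ∀ dd : Fin r → ℤ, (∀ i, dd i ∣ (L : ℤ)) →
    ∀ S : Fin r → Set ℤ, ∀ c : Fin r → ℤ, ∀ M N' : Fin r → ℕ, (∀ i, Coal (dd i) (s i) (M i) (Nat.log 4 N) (S i)) → (∀ i, M i ≤ N' i) →
    ∀ P P' : Fin (D + 1) → ℤ, (∀ j, P' j - P j ≤ N) →
    |∑ x ∈ pts (fun i => (L : ℤ) • Λ i) c s M N' P P' S, sgq qq ρ Q Ω x - VV Q Ω / (qq : ℝ) ^ (D + 1) * (pts (fun i => (L : ℤ) • Λ i) c s M N' P P' S).card| ≤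
      ε / 3 * (VV Q Ω / (qq : ℝ) ^ (D + 1)) * (N : ℝ) ^ (D + 1) := by
  -- the constants
  obtain ⟨A, hA1, hA⟩ : ∃ A : ℕ, 1 ≤ A ∧ ∀ i, sz (Λ i) ≤ A := by
    refine ⟨(∑ i, sz (Λ i)).toNat + 1, by omega, fun i => ?_⟩
    have h1 : sz (Λ i) ≤ ∑ i, sz (Λ i) := single_le_sum (f := fun i => sz (Λ i)) (fun i _ => sz_nonneg _) (mem_univ i)
    push_cast
    have := Int.self_le_toNat (∑ i, sz (Λ i))
    linarith
  have hA1R : (1 : ℝ) ≤ A := by exact_mod_cast hA1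
  obtain ⟨c2, hc2⟩ : ∃ c2 : ℝ, c2 = 2 * 2 ^ (D + 1) := ⟨_, rfl⟩
  have hc20 : 0 < c2 := by rw [hc2]; positivity
  obtain ⟨ε1, hε1⟩ : ∃ ε1 : ℝ, ε1 = min (ε / 12) 1 := ⟨_, rfl⟩
  have hε10 : 0 < ε1 := by rw [hε1]; exact lt_min (by positivity) one_pos
  obtain ⟨q0, hq0⟩ : ∃ q0 : ℝ, q0 = min (ε / (60 * c2 * (r + 1) * A * 2 ^ D)) 1 := ⟨_, rfl⟩
  have hq00 : 0 < q0 := by rw [hq0]; exact lt_min (by positivity) one_pos
  obtain ⟨θ0, hθ0, k0, hqq⟩ := q_quant hq00 (by rw [hq0]; exact min_le_right _ _)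
  obtain ⟨K1, y1, hK1, hy1, hF1⟩ := fldq (D + 1) κ hε10
  obtain ⟨K2, y2, hK2, hy2, hF2⟩ := fldq (D + 1) κ (show (0 : ℝ) < 1 by norm_num)
  obtain ⟨K, hK⟩ : ∃ K, K = K1 + K2 + 2 := ⟨_, rfl⟩
  obtain ⟨W, hW2, hW⟩ : ∃ W : ℕ, 2 ≤ W ∧ 2 / θ0 ≤ W := by
    obtain ⟨W, hW⟩ := exists_large (2 / θ0)
    exact ⟨W + 2, by omega, hW.trans (by push_cast; linarith)⟩
  obtain ⟨B, hB⟩ := exists_large (240 * (r + 1) * (D + 1) * A * 2 ^ D / ε)
  have hWK : 1 ≤ W * K := Nat.mul_pos (by omega) (by omega)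
  have hWKR : (1 : ℝ) ≤ (W : ℝ) * K := by exact_mod_cast hWK
  have hWR : (2 : ℝ) ≤ W := by exact_mod_cast hW2
  obtain ⟨km, hkm⟩ : ∃ km : ℕ, km = k0 + 2 * (W * K) + (y1 + y2) * (W * K) + A * W + B + 4 := ⟨_, rfl⟩
  refine ⟨1 / (8 * (W * K)), by positivity, 4 ^ km, fun N hN Q hQ Ω hΩ qq hqo hqN hQq ρ L hLo hLN dd hdL S c M N' hS hMN P P' hP => ?_⟩
  have hQp : ∀ p ∈ Q, p.Prime := fun p hp => (hQ p hp).1
  have hL1 : 1 ≤ L := by omega
  have hdo : ∀ i, dd i % 2 = 1 := by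
    intro i
    obtain ⟨t, ht⟩ := hdL i
    rcases Int.emod_two_eq_zero_or_one (dd i) with h | h
    · exfalso
      have h2 : (2 : ℤ) ∣ (L : ℤ) := by rw [ht]; exact Dvd.dvd.mul_right (Int.dvd_of_emod_eq_zero h) _
      omega
    · exact h
  have hu : ∀ (h : Fin (D + 1) → ℤ) (i : Fin r), dd i * (-((L : ℤ) / dd i * dot (Λ i) h)) = -(L * dot (Λ i) h) := by
    intro h i
    have h1 : dd i * ((L : ℤ) / dd i) = L := Int.mul_ediv_cancel' (hdL i)
    calc dd i * (-((L : ℤ) / dd i * dot (Λ i) h)) = -((dd i * ((L : ℤ) / dd i)) * dot (Λ i) h) := by ring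
      _ = _ := by rw [h1]
  by_cases hV0 : VV Q Ω = 0
  · rw [hV0]
    have : ∑ x ∈ pts (fun i => (L : ℤ) • Λ i) c s M N' P P' S, sgq qq ρ Q Ω x = 0 := sum_eq_zero fun x _ => by
      unfold sgq
      rw [VV_univ hQp hV0 x]
      simp
    rw [this]; simp
  have hq1 : 1 ≤ qq := by omega
  have hN1 : 1 ≤ N := le_trans (Nat.one_le_pow _ _ (by norm_num)) hN
  have hNR : (0 : ℝ) < N := by exact_mod_cast hN1
  -- the exponent
  obtain ⟨k, hk⟩ : ∃ k, k = Nat.log 4 N := ⟨_, rfl⟩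
  rw [← hk] at hS
  have hkN : 4 ^ k ≤ N := by rw [hk]; exact Nat.pow_log_le_self 4 (by omega)
  have hNk : N < 4 ^ (k + 1) := by rw [hk]; exact Nat.lt_pow_succ_log_self (by norm_num) N
  have hkk : km ≤ k := by rw [hk]; exact (Nat.le_log_iff_pow_le (by norm_num) (by omega)).2 hN
  obtain ⟨m, hm⟩ : ∃ m, m = k / (W * K) := ⟨_, rfl⟩
  have hmk : W * K * m ≤ k := by rw [hm]; exact Nat.mul_div_le k (W * K)
  have hmk2 : k < W * K * (m + 1) := by rw [hm]; exact Nat.lt_mul_div_succ k (by omega)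
  have hmy : y1 + y2 ≤ m := by
    rw [hm, Nat.le_div_iff_mul_le (by omega)]
    have : (y1 + y2) * (W * K) ≤ km := by rw [hkm]; omega
    omega
  have hm2 : 2 ≤ m := by
    rw [hm, Nat.le_div_iff_mul_le (by omega)]
    omega
  obtain ⟨y, hy⟩ : ∃ y : ℕ, y = 2 ^ m := ⟨_, rfl⟩
  obtain ⟨H0, hH0⟩ : ∃ H0 : ℕ, H0 = 2 ^ ((K1 + K2) * m) := ⟨_, rfl⟩
  obtain ⟨H, hH⟩ : ∃ H : ℕ, H = qq * H0 := ⟨_, rfl⟩
  have hyy : y1 + y2 ≤ y := by rw [hy]; exact hmy.trans (Nat.lt_two_pow_self).le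
  have hy1' : 1 ≤ y := by rw [hy]; exact Nat.one_le_two_pow
  have hyH : y ^ (K1 + K2) = H0 := by rw [hy, hH0, ← pow_mul, mul_comm]
  have hyH1 : y ^ K1 ≤ H0 := by rw [← hyH]; exact Nat.pow_le_pow_right hy1' (by omega)
  have hyH2 : y ^ K2 ≤ H0 := by rw [← hyH]; exact Nat.pow_le_pow_right hy1' (by omega)
  have hH01 : 1 ≤ H0 := by rw [hH0]; exact Nat.one_le_two_pow
  have hH1 : 1 ≤ H := by rw [hH]; exact Nat.mul_pos hq1 hH01
  have hkR : (k : ℝ) < W * K * (m + 1) := by exact_mod_cast hmk2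
  have hkR' : (W : ℝ) * K * m ≤ k := by exact_mod_cast hmk
  have hmR : (2 : ℝ) ≤ m := by exact_mod_cast hm2
  have h2 : (N : ℝ) ^ (1 / (8 * ((W : ℝ) * K))) ≤ (y : ℝ) := by
      have h3 : (N : ℝ) ≤ (2 : ℝ) ^ (2 * ((k : ℝ) + 1)) := by
        have h4 : (N : ℝ) ≤ (4 : ℝ) ^ (k + 1) := by exact_mod_cast hNk.le
        refine h4.trans (le_of_eq ?_)
        rw [show (4 : ℝ) = 2 ^ 2 by norm_num, ← pow_mul, ← Real.rpow_natCast]
        congr 1; push_cast; ring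
      calc (N : ℝ) ^ (1 / (8 * ((W : ℝ) * K))) ≤ ((2 : ℝ) ^ (2 * ((k : ℝ) + 1))) ^ (1 / (8 * ((W : ℝ) * K))) :=
            Real.rpow_le_rpow hNR.le h3 (by positivity)
        _ = (2 : ℝ) ^ ((2 * ((k : ℝ) + 1)) * (1 / (8 * ((W : ℝ) * K)))) := by rw [← Real.rpow_mul (by norm_num)]
        _ ≤ (2 : ℝ) ^ (m : ℝ) := by
            apply rpow_nat_le
            rw [mul_one_div, div_le_iff₀ (by positivity)]
            nlinarith
        _ = (y : ℝ) := by rw [hy, Real.rpow_natCast]; push_cast; rfl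
  -- primes are at most `y`
  have hQy : ∀ p ∈ Q, p.Prime ∧ p ≤ y := by
    intro p hp
    refine ⟨hQp p hp, ?_⟩
    exact_mod_cast ((hQ p hp).2).trans h2
  have hqy : qq ≤ y := by exact_mod_cast hqN.trans h2
  have hLy : L ≤ y := by exact_mod_cast hLN.trans h2
  have hLHK : L * H ≤ 2 ^ (K * m) := by
    rw [hH, hH0, hK]
    calc L * (qq * 2 ^ ((K1 + K2) * m)) ≤ 2 ^ m * (2 ^ m * 2 ^ ((K1 + K2) * m)) :=
          Nat.mul_le_mul (by rw [← hy]; exact hLy) (Nat.mul_le_mul_right _ (by rw [← hy]; exact hqy))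
      _ = 2 ^ ((K1 + K2 + 2) * m) := by rw [← pow_add, ← pow_add]; congr 1; ring
  have hHK : H ≤ 2 ^ (K * m) := le_trans (Nat.le_mul_of_pos_left _ (by omega)) hLHK
  -- shifts
  have hAH : (A : ℝ) * ((L * H : ℕ) : ℝ) ≤ (2 : ℝ) ^ (θ0 * k) := by
    have h1 : (A : ℝ) ≤ 2 ^ (A : ℝ) := by
      rw [Real.rpow_natCast]
      exact_mod_cast (Nat.lt_two_pow_self (n := A)).le
    have h2 : ((L * H : ℕ) : ℝ) ≤ 2 ^ ((K * m : ℕ) : ℝ) := by rw [Real.rpow_natCast]; exact_mod_cast hLHK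
    have h3 : (A : ℝ) ≤ θ0 / 2 * k := by
      have : A * W ≤ k := by omega
      have h4 : (A : ℝ) * W ≤ k := by exact_mod_cast this
      rw [div_le_iff₀ hθ0] at hW
      nlinarith
    have h4 : ((K * m : ℕ) : ℝ) ≤ θ0 / 2 * k := by
      have h5 : (W : ℝ) * ((K * m : ℕ) : ℝ) ≤ k := by push_cast; linarith
      have h6 : (0 : ℝ) ≤ ((K * m : ℕ) : ℝ) := Nat.cast_nonneg _
      rw [div_le_iff₀ hθ0] at hW
      nlinarith
    calc (A : ℝ) * ((L * H : ℕ) : ℝ) ≤ 2 ^ (A : ℝ) * 2 ^ ((K * m : ℕ) : ℝ) := by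
          exact mul_le_mul h1 h2 (Nat.cast_nonneg _) (by positivity)
      _ = 2 ^ ((A : ℝ) + ((K * m : ℕ) : ℝ)) := by rw [← Real.rpow_add (by norm_num)]
      _ ≤ _ := rpow_nat_le (by linarith)
  have hq : ∀ h ∈ cube (D + 1) H, ∀ i, q step (0, 0) k (0, -((L : ℤ) / dd i * dot (Λ i) h)) ≤ q0 := by
    intro h hh i
    apply hqq k (by omega)
    refine le_trans ?_ hAH
    have h1 := (dot_cube (Λ i) hh).trans (mul_le_mul_of_nonneg_right (hA i) (Int.natCast_nonneg H))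
    have h2 := hu h i
    have h3 : |dd i| * |-((L : ℤ) / dd i * dot (Λ i) h)| = L * |dot (Λ i) h| := by
      rw [← abs_mul, h2, abs_neg, abs_mul, abs_of_nonneg (Int.natCast_nonneg L)]
    have h4 : (1 : ℤ) ≤ |dd i| := by
      have : dd i ≠ 0 := by have := hdo i; omega
      exact Int.one_le_abs this
    have h5 : |-((L : ℤ) / dd i * dot (Λ i) h)| ≤ L * |dot (Λ i) h| := by
      rw [← h3]
      exact le_mul_of_one_le_left (abs_nonneg _) h4
    have h6 : |-((L : ℤ) / dd i * dot (Λ i) h)| ≤ A * ((L * H : ℕ) : ℤ) := by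
      refine h5.trans ?_
      calc (L : ℤ) * |dot (Λ i) h| ≤ L * (A * H) := mul_le_mul_of_nonneg_left h1 (Int.natCast_nonneg L)
        _ = _ := by push_cast; ring
    exact_mod_cast h6
  -- sizes
  have hKm : 2 * (K * m) ≤ k := by nlinarith
  have hside : 2 ^ k * H + H ≤ N := by
    have h1 : 2 ^ k * H + H ≤ 2 * (2 ^ k * H) := by
      have : 1 ≤ 2 ^ k := Nat.one_le_two_pow
      nlinarith
    refine h1.trans (le_trans ?_ hkN)
    have h2 : 2 * (2 ^ k * H) ≤ 2 ^ (1 + k + K * m) := by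
      rw [pow_add, pow_add, pow_one, mul_assoc]
      exact Nat.mul_le_mul_left _ (Nat.mul_le_mul_left _ hHK)
    refine h2.trans ?_
    rw [show (4 : ℕ) = 2 ^ 2 by norm_num, ← pow_mul]
    apply Nat.pow_le_pow_right (by norm_num)
    omega
  have hPX : ∀ j, P' j - P j + H + 2 ^ k * H ≤ ((2 * N : ℕ) : ℤ) := by
    intro j
    have h1 := hP j
    have h2 : (2 : ℤ) ^ k * H + H ≤ N := by exact_mod_cast hside
    push_cast
    linarith
  have hkN2 : 2 ^ k ≤ N := by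
    have : 2 ^ k * 1 ≤ 2 ^ k * H := Nat.mul_le_mul_left _ hH1
    omega
  have hHε : (H : ℝ) * (240 * (r + 1) * (D + 1) * A * 2 ^ D) ≤ ε * N := by
    have h1 : 240 * (r + 1) * (D + 1) * A * 2 ^ D ≤ ε * (B : ℝ) := by
      rw [div_le_iff₀ hε] at hB; linarith
    have h2 : (B : ℝ) * H ≤ N := by
      have h3 : B ≤ 2 ^ k := le_trans (by omega : B ≤ k) (Nat.lt_two_pow_self).le
      have h4 : B * H ≤ N := by
        calc B * H ≤ 2 ^ k * H := Nat.mul_le_mul_right _ h3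
          _ ≤ N := by omega
      exact_mod_cast h4
    calc (H : ℝ) * (240 * (r + 1) * (D + 1) * A * 2 ^ D) ≤ H * (ε * B) := mul_le_mul_of_nonneg_left h1 (Nat.cast_nonneg _)
      _ = ε * (B * H) := by ring
      _ ≤ ε * N := mul_le_mul_of_nonneg_left h2 hε.le
  have hVn' := VV_nonneg hQp Ω
  have hqR : (0 : ℝ) < qq := by exact_mod_cast hq1
  obtain ⟨V, hV⟩ : ∃ V : ℝ, V = VV Q Ω / (qq : ℝ) ^ (D + 1) := ⟨_, rfl⟩
  have hVn : 0 ≤ V := by rw [hV]; positivity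
  have hHV : (H : ℝ) ^ (D + 1) * V = (H0 : ℝ) ^ (D + 1) * VV Q Ω := by
    rw [hV, hH]; push_cast; rw [mul_pow]; field_simp
  rw [← hV]
  have key := cmpO hdo hL1 hLo (X := 2 * N) (k := k) (H := H) (sg := sgq qq ρ Q Ω) (sgq_nonneg qq ρ Q Ω) (V := V) (ε1 := ε1) (c2 := c2) hVn hε10.le
    (by rw [hε1]; exact min_le_right _ _) hc20.le (by
      intro x
      have h1 := hF1 y (by omega) H0 hyH1 Q hQy Ω hΩ 1 (by
        intro p hp hd
        have h2 := (hQp p hp).two_le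
        have h3 := Int.le_of_dvd (by norm_num) hd
        omega) qq hq1 hQq isCoprime_one_left ρ x
      rw [hHV, hH]
      simpa using h1) (by
      intro x
      have hco : IsCoprime ((2 ^ k : ℕ) : ℤ) (qq : ℤ) := by
        have h1 : Nat.Coprime (2 ^ k) qq := by
          apply Nat.Coprime.pow_left
          rw [Nat.coprime_two_left]
          exact Nat.odd_iff.2 hqo
        exact_mod_cast Nat.isCoprime_iff_coprime.2 h1
      have h1 := hF2 y (by omega) H0 hyH2 (Q.erase 2) (fun p hp => hQy p (mem_of_mem_erase hp)) Ω (fun p hp => hΩ p (mem_of_mem_erase hp))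
        ((2 ^ k : ℕ) : ℤ) (by
        intro p hp hd
        have h2 : p ∣ 2 ^ k := by exact_mod_cast hd
        have h3 := (hQp p (mem_of_mem_erase hp)).dvd_of_dvd_pow h2
        exact (ne_of_mem_erase hp) ((Nat.prime_dvd_prime_iff_eq (hQp p (mem_of_mem_erase hp)) Nat.prime_two).1 h3)) qq hq1
        (fun p hp => hQq p (mem_of_mem_erase hp)) hco ρ x
      have h2 := (abs_le.1 h1).2
      have h3 : ∑ h ∈ cube (D + 1) H, sgq qq ρ Q Ω (x + ((2 ^ k : ℕ) : ℤ) • h) ≤ ∑ h ∈ cube (D + 1) H, sgq qq ρ (Q.erase 2) Ω (x + ((2 ^ k : ℕ) : ℤ) • h) :=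
        sum_le_sum fun h _ => sgq_erase qq ρ Q Ω _
      have h4 := mul_le_mul_of_nonneg_left (VV_erase hQp hV0) (show (0 : ℝ) ≤ (H0 : ℝ) ^ (D + 1) by positivity)
      rw [hHV, hc2]
      rw [← hH] at h2
      nlinarith) h0 c hs hMN hS hH1 hA hPX (u := fun h i => -((L : ℤ) / dd i * dot (Λ i) h)) (fun h _ i => hu h i) hq
  refine key.trans ?_
  have h5 := nums (D := D) (r := r) (A := A) (N := N) (H := H) (k := k) (C := ((pts (fun i => (L : ℤ) • Λ i) c s M N' P P' S).card : ℝ)) hε hN1 hc20 hA1 hHε hH1 hkN2 hq00.le (by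
    have : q0 ≤ ε / (60 * c2 * (r + 1) * A * 2 ^ D) := by rw [hq0]; exact min_le_left _ _
    rwa [le_div_iff₀ (by positivity)] at this) (by exact_mod_cast pts_card (fun i => (L : ℤ) • Λ i) c s M N' hP S) hε10.le (by rw [hε1]; exact min_le_left _ _)
  have h6 := mul_le_mul_of_nonneg_left h5 hVn
  refine h6.trans (le_of_eq ?_)
  ring

end Pool.Agent.K3h45.HJ
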