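import Pool.Agent.K3h45.HJ.H8
import Pool.Agent.W36.JL.J9
import Pool.Agent.W36.GK.K21
import Pool.Agent.W36.GK.K20

/-! The level sets satisfy the hypotheses. -/

set_option autoImplicit false

namespace Pool.Agent.K3h45.HJ

open Finset Filter Topology Pool.Agent.H320R2.PD
open Pool.Agent.H499R2.ND (Tn Dn cnt Td Phi Phi_mono Phi_continuous Bas)
open Pool.Agent.W41 (ind ind_nonneg ind_le_one)
open Pool.Agent.W41.FU (bal)
open Pool.Agent.W36.GU (sum_cast Hyp Dil win psi psi_int win_abs win_sup pow_ne Sup)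
open Pool.Agent.W36.GK (Sm GN_all Indep forms_count Cn Cn_eq box dot)
open Pool.Agent.W36.GV (GN B1)
open Pool.Agent.W36.JL (bal_abs' Phi_le_one Phi_nonneg dens_mem common countG)

/-- the balanced functions of finitely many level sets -/
def FF {r : ℕ} (δ : ℝ) (m : ℕ) (a : Fin r → ℤ) (x : Fin r → ℝ) : Set (ℤ → ℝ) :=
  Set.range (fun i => bal 1 (SX m (a i) (x i)) (δ * Phi (x i) / m))

theorem FF_hyp {r : ℕ} {δ : ℝ} (h0 : 0 < δ) (h1 : δ ≤ 1) {m : ℕ} (hm : 1 ≤ m) (a : Fin r → ℤ) (x : Fin r → ℝ)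
    (hlaw : ∀ a : ℤ, ∀ x : ℝ, Dn (fun n => EB m a (bd x n) n) (δ * Phi x / m)) : Hyp (FF δ m a x) 2 (3 ^ m) where
  abs := by
    rintro _ ⟨i, rfl⟩ n
    exact bal_abs' _ (dens_mem h0 h1 hm _).1 (dens_mem h0 h1 hm _).2 n
  loc := by
    intro κ hκ j
    obtain ⟨X0, h⟩ := common (fun i => loc_X (hlaw (a i)) (x i) (dens_mem h0 h1 hm (x i)).1 (dens_mem h0 h1 hm (x i)).2 hκ j)
    refine ⟨X0, fun X hX f hf => ?_⟩
    obtain ⟨i, rfl⟩ := hf
    exact h X hX i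
  dilA := by
    intro κ hκ
    obtain ⟨X0, h⟩ := common (fun i => dil2_X (hlaw (a i)) (x i) (δ * Phi (x i) / m) hκ)
    refine ⟨X0, fun X hX f hf => ?_⟩
    obtain ⟨i, rfl⟩ := hf
    exact h X hX i
  dilB := by
    intro κ hκ
    obtain ⟨X0, h⟩ := common (fun i => dilm_X (hlaw (a i)) (x i) (dens_mem h0 h1 hm (x i)).1 (dens_mem h0 h1 hm (x i)).2 hκ)
    refine ⟨X0, fun X hX f hf => ?_⟩
    obtain ⟨i, rfl⟩ := hf
    exact h X hX i
  two_leA := le_rfl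
  two_leB := by
    calc 2 ≤ 3 ^ 1 := by norm_num
      _ ≤ 3 ^ m := Nat.pow_le_pow_right (by norm_num) hm
  ind := by
    intro k j hk hj
    rw [← pow_mul]
    exact pow_ne k (m * j) hk (Nat.mul_pos hm hj)
  fou := by
    intro κ hκ
    obtain ⟨X0, h⟩ := common (fun i => fou_X (hlaw (a i)) (x i) (dens_mem h0 h1 hm (x i)).1 (dens_mem h0 h1 hm (x i)).2 hκ)
    refine ⟨X0, fun X hX f hf M N hMN hN p hp ζ => ?_⟩
    obtain ⟨i, rfl⟩ := hf
    exact h X hX i M N hMN hN p ζ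

end Pool.Agent.K3h45.HJ
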