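import Pool.Agent.K3h45.HJ.H10
import Pool.Agent.K3h45.HJ.H9
import Pool.Agent.W36.JL.K2

/-! The level sets of the number of odd terms on the points that survive a sieve. -/

set_option autoImplicit false

namespace Pool.Agent.K3h45.HJ

open Finset Filter Topology Pool.Agent.H320R2.PD
open Pool.Agent.H499R2.ND (Tn Dn cnt cnt_eq cnt_mono cnt_or cnt_small cnt_le Td Phi)
open Pool.Agent.H499R2.CO (Tz)
open Pool.Agent.W36.GK (box dot Indep box_fiber mem_box Cn)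
open Pool.Agent.W36.GS (pts sgq VV VV_nonneg sgq_nonneg sum_bi_le sum_un_le pts_card)
open Pool.Agent.W36.JL (fib iff_i sum_symm slab mem_slab slab_card slab_pts)

/-- the comparison for the map `T` -/
theorem cmpS {D r κ : ℕ} {Λ : Fin r → Fin (D + 1) → ℤ} (h0 : ∀ i, Λ i ≠ 0) {ε : ℝ} (hε : 0 < ε) :
    ∃ θ : ℝ, 0 < θ ∧ ∃ N0 : ℕ, ∀ N : ℕ, N0 ≤ N → ∀ Q : Finset ℕ, (∀ p ∈ Q, p.Prime ∧ (p : ℝ) ≤ (N : ℝ) ^ θ) →
    ∀ Ω : (p : ℕ) → Set (Fin (D + 1) → ZMod p), (∀ p ∈ Q, (Ω p).ncard * p ≤ κ * p ^ (D + 1)) →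
    ∀ qq : ℕ, qq % 2 = 1 → (qq : ℝ) ≤ (N : ℝ) ^ θ → (∀ p ∈ Q, ¬ p ∣ qq) → ∀ ρ : Fin (D + 1) → ZMod qq,
    ∀ S : Fin r → Set ℤ, ∀ c : Fin r → ℤ, ∀ M N' : Fin r → ℕ, (∀ i, Coal 1 1 (M i) (Nat.log 4 N) (S i)) → (∀ i, M i ≤ N' i) →
    ∀ P P' : Fin (D + 1) → ℤ, (∀ j, P' j - P j ≤ N) →
    |∑ x ∈ pts Λ c (fun _ => 1) M N' P P' S, sgq qq ρ Q Ω x - VV Q Ω / (qq : ℝ) ^ (D + 1) * (pts Λ c (fun _ => 1) M N' P P' S).card| ≤
      ε * (VV Q Ω / (qq : ℝ) ^ (D + 1)) * (N : ℝ) ^ (D + 1) := by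
  obtain ⟨θ, hθ, N0, h⟩ := cmp_parqO (κ := κ) h0 (s := fun _ => 1) (fun _ => Or.inl rfl) hε
  refine ⟨θ, hθ, N0 + 1, fun N hN Q hQ Ω hΩ qq hq1 hq2 hq3 ρ S c M N' hS hMN P P' hP => ?_⟩
  have hN1 : (1 : ℝ) ≤ N := by exact_mod_cast (by omega : 1 ≤ N)
  have h1 := h N (by omega) Q hQ Ω hΩ qq hq1 hq2 hq3 ρ 1 (by norm_num) (by rw [Nat.cast_one]; exact Real.one_le_rpow hN1 hθ.le)
    (fun _ => 1) (fun _ => one_dvd _) S c M N' hS hMN P P' hP
  simp only [Nat.cast_one, one_smul] at h1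
  refine h1.trans ?_
  have h2 := VV_nonneg (fun p hp => (hQ p hp).1) Ω
  have h3 : 0 ≤ (VV Q Ω / (qq : ℝ) ^ (D + 1)) * (N : ℝ) ^ (D + 1) := by positivity
  rw [mul_assoc, mul_assoc]
  exact mul_le_mul_of_nonneg_right (by linarith) h3

theorem coal_univ (d s M : ℤ) (k : ℕ) : Coal d s M k Set.univ := fun _ _ _ _ _ _ _ _ => by simp

theorem coal_of {m : ℕ} {a : ℤ} {k : ℕ} {M : ℤ} (hM : (2 : ℤ) ^ k ≤ M) {S : Set ℤ} {R : (ℝ → Prop) → Prop}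
    (hS : ∀ n : ℤ, 0 < n → (n ∈ S ↔ R (fun B => EB m a B n.toNat))) : Coal 1 1 M k S := by
  intro l hl x y hx hy h ho
  rw [one_mul] at hx hy
  have h2l : (2 : ℤ) ^ l ≤ 2 ^ k := pow_le_pow_right₀ (by norm_num) hl
  have h2j : (0 : ℤ) < 2 ^ l := by positivity
  have hx0 : 0 < x := by linarith
  have hy0 : 0 < y := by linarith
  rw [hS _ hx0, hS _ hy0]
  have h4 : (fun B => EB m a B x.toNat) = (fun B => EB m a B y.toNat) := by
    funext B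
    exact propext (EB_coal (by linarith) (by linarith) h ho)
  rw [h4]

/-- fixed threshold -/
def SB (m : ℕ) (a : ℤ) (B : ℝ) : Set ℤ := {n | 0 < n ∧ EB m a B n.toNat}

/-- near the threshold -/
def ZB (m : ℕ) (a : ℤ) (U L : ℝ) : Set ℤ := {n | 0 < n ∧ EB m a U n.toNat ∧ ¬ EB m a L n.toNat}

theorem SB_coal {m : ℕ} {a : ℤ} {k : ℕ} {M : ℤ} (hM : (2 : ℤ) ^ k ≤ M) (B : ℝ) : Coal 1 1 M k (SB m a B) :=
  coal_of (m := m) (a := a) hM (R := fun f => f B) (fun n hn => by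
    unfold SB
    rw [Set.mem_ofPred_eq]
    exact ⟨fun h => h.2, fun h => ⟨hn, h⟩⟩)

theorem ZB_coal {m : ℕ} {a : ℤ} {k : ℕ} {M : ℤ} (hM : (2 : ℤ) ^ k ≤ M) (U L : ℝ) : Coal 1 1 M k (ZB m a U L) :=
  coal_of (m := m) (a := a) hM (R := fun f => f U ∧ ¬ f L) (fun n hn => by
    unfold ZB
    rw [Set.mem_ofPred_eq]
    exact ⟨fun h => h.2, fun h => ⟨hn, h⟩⟩)

/-- replacing the level sets by fixed thresholds -/
theorem replace {D r m : ℕ} {Λ : Fin r → Fin (D + 1) → ℤ} {a : Fin r → ℤ} {x : Fin r → ℝ} {η : Fin r → ℝ} {N M0 : ℕ}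
    (hn : ∀ i, ∀ n : ℕ, M0 < n → n ≤ N → bd (x i - η i) N ≤ bd (x i) n ∧ bd (x i) n ≤ bd (x i + η i) N)
    (hη : ∀ i, 0 < η i) {w : (Fin (D + 1) → ℤ) → ℝ} (hw : ∀ y, 0 ≤ w y) (c : Fin r → ℤ) (M N' : Fin r → ℕ) (hN' : ∀ i, N' i ≤ N)
    (P P' : Fin (D + 1) → ℤ) :
    |∑ y ∈ pts Λ c (fun _ => 1) M N' P P' (fun i => SX m (a i) (x i)), w y -
      ∑ y ∈ pts Λ c (fun _ => 1) (fun i => max (M i) M0) (fun i => max (N' i) M0) P P' (fun i => SB m (a i) (bd (x i) N)), w y| ≤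
      ∑ i, (∑ y ∈ slab P P' (Λ i) (c i) Set.univ 0 M0, w y +
        ∑ y ∈ slab P P' (Λ i) (c i) (ZB m (a i) (bd (x i + η i) N) (bd (x i - η i) N)) M0 N, w y) := by
  classical
  have h1 : ∑ i, (∑ y ∈ slab P P' (Λ i) (c i) Set.univ 0 M0, w y +
        ∑ y ∈ slab P P' (Λ i) (c i) (ZB m (a i) (bd (x i + η i) N) (bd (x i - η i) N)) M0 N, w y) ≥
      ∑ y ∈ univ.biUnion (fun i => slab P P' (Λ i) (c i) Set.univ 0 M0 ∪
        slab P P' (Λ i) (c i) (ZB m (a i) (bd (x i + η i) N) (bd (x i - η i) N)) M0 N), w y :=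
    (sum_bi_le hw univ _).trans (sum_le_sum fun i _ => sum_un_le hw _ _)
  refine le_trans ?_ h1
  have key : ∀ y : Fin (D + 1) → ℤ, y ∉ univ.biUnion (fun i => slab P P' (Λ i) (c i) Set.univ 0 M0 ∪
        slab P P' (Λ i) (c i) (ZB m (a i) (bd (x i + η i) N) (bd (x i - η i) N)) M0 N) →
      (y ∈ pts Λ c (fun _ => 1) M N' P P' (fun i => SX m (a i) (x i)) ↔
       y ∈ pts Λ c (fun _ => 1) (fun i => max (M i) M0) (fun i => max (N' i) M0) P P' (fun i => SB m (a i) (bd (x i) N))) := by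
    intro y hy
    unfold pts
    rw [mem_filter, mem_filter]
    refine and_congr_right fun hbox => forall_congr' fun i => ?_
    rw [mem_biUnion] at hy
    push Not at hy
    have hy' := hy i (mem_univ i)
    rw [mem_union] at hy'
    push Not at hy'
    obtain ⟨hy1, hy2⟩ := hy'
    rw [mem_slab] at hy1 hy2
    rw [one_mul]
    apply iff_i (hN' i)
    · rintro ⟨h3, h4⟩
      exact hy1 ⟨hbox, Set.mem_univ _, by push_cast; exact h3, h4⟩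
    · intro h3 h4
      by_contra hcon
      apply hy2
      refine ⟨hbox, ?_, h3, h4⟩
      have hv0 : 0 < dot (Λ i) y + c i := by omega
      obtain ⟨n, hnv⟩ := Int.eq_ofNat_of_zero_le hv0.le
      rw [hnv] at hcon h3 h4 hv0 ⊢
      have h5 : M0 < n := by exact_mod_cast h3
      have h6 : n ≤ N := by exact_mod_cast h4
      obtain ⟨h7, h8⟩ := hn i n h5 h6
      have h9 : ¬ (EB m (a i) (bd (x i) n) n ↔ EB m (a i) (bd (x i) N) n) := by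
        intro h10
        apply hcon
        unfold SX SB
        rw [Set.mem_ofPred_eq, Set.mem_ofPred_eq, Int.toNat_natCast]
        exact and_congr_right fun _ => h10
      have hηi := hη i
      have h10 := EB_sand h7 h8 (bd_mono (by linarith) N) (bd_mono (by linarith) N) h9
      unfold ZB
      rw [Set.mem_ofPred_eq, Int.toNat_natCast]
      exact ⟨hv0, h10⟩
  exact sum_symm hw _ _ _ (fun y h2 h3 => (key y h3).1 h2) (fun y h2 h3 => (key y h3).2 h2)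

end Pool.Agent.K3h45.HJ
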