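import Pool.Agent.K3h45.HJ.H12
import Pool.Agent.W36.JL.K4

/-! The joint law in windows and many sifted points. -/

set_option autoImplicit false

namespace Pool.Agent.K3h45.HJ

open Finset Filter Topology Pool.Agent.H320R2.PD
open Pool.Agent.H499R2.ND (Tn Dn cnt Phi)
open Pool.Agent.W36.GK (box dot Indep box_fiber mem_box Cn GN_all)
open Pool.Agent.W36.GS (pts sgq VV VV_nonneg sgq_nonneg)
open Pool.Agent.W36.JL (Phi_lt prod_expand incl_excl)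

theorem jointW {D r κ m : ℕ} (hm : 1 ≤ m) {δ : ℝ} (hδ0 : 0 < δ) (hδ1 : δ ≤ 1)
    (hlaw : ∀ a : ℤ, ∀ x : ℝ, Dn (fun n => EB m a (bd x n) n) (δ * Phi x / m))
    {Λ : Fin r → Fin (D + 1) → ℤ} (h0 : ∀ i, Λ i ≠ 0) (hΛ : ∀ i j, i ≠ j → Indep (Λ i) (Λ j)) (a : Fin r → ℤ) {x y : Fin r → ℝ}
    (hSX : ∀ i, SX m (a i) (y i) ⊆ SX m (a i) (x i)) {ε : ℝ} (hε : 0 < ε) :
    ∃ θ : ℝ, 0 < θ ∧ ∃ N0 : ℕ, ∀ N : ℕ, N0 ≤ N → ∀ Q : Finset ℕ, (∀ p ∈ Q, p.Prime ∧ (p : ℝ) ≤ (N : ℝ) ^ θ) →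
    ∀ Ω : (p : ℕ) → Set (Fin (D + 1) → ZMod p), (∀ p ∈ Q, (Ω p).ncard * p ≤ κ * p ^ (D + 1)) →
    ∀ qq : ℕ, qq % 2 = 1 → (qq : ℝ) ≤ (N : ℝ) ^ θ → (∀ p ∈ Q, ¬ p ∣ qq) → ∀ ρ : Fin (D + 1) → ZMod qq,
    ∀ c : Fin r → ℤ, ∀ M N' : Fin r → ℕ, (∀ i, M i ≤ N' i) → (∀ i, N' i ≤ N) →
    ∀ P P' : Fin (D + 1) → ℤ, (∀ j, P' j - P j ≤ N) →
    |∑ v ∈ pts Λ c (fun _ => 1) M N' P P' (fun i => SX m (a i) (x i) \ SX m (a i) (y i)), sgq qq ρ Q Ω v -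
      (∏ i, (δ * Phi (x i) / m - δ * Phi (y i) / m)) * ∑ v ∈ pts Λ c (fun _ => 1) M N' P P' (fun _ => Set.univ), sgq qq ρ Q Ω v| ≤
      ε * (VV Q Ω / (qq : ℝ) ^ (D + 1)) * (N : ℝ) ^ (D + 1) := by
  classical
  choose θt hθt Nt ht using fun t : Finset (Fin r) => jointS (κ := κ) hm hδ0 hδ1 hlaw h0 hΛ a (fun i => if i ∈ t then x i else y i)
    (show 0 < ε / 2 ^ r by positivity)
  obtain ⟨θ, hθa, hθ0⟩ : ∃ θ : ℝ, (∀ t, θ ≤ θt t) ∧ 0 < θ := by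
    have hf : ∀ᶠ z in 𝓝[>] (0 : ℝ), (∀ t, z ≤ θt t) ∧ 0 < z := by
      refine (eventually_all.2 fun t => ?_).and self_mem_nhdsWithin
      filter_upwards [Ioc_mem_nhdsGT (hθt t)] with z hz using hz.2
    exact hf.exists
  refine ⟨θ, hθ0, ∑ t, Nt t + 1, fun N hN Q hQ Ω hΩ qq hq1 hq2 hq3 ρ c M N' hMN hN' P P' hP => ?_⟩
  have hNt : ∀ t, Nt t ≤ N := fun t => by
    have := single_le_sum (f := Nt) (fun _ _ => Nat.zero_le _) (mem_univ t)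
    omega
  have hN1R : (1 : ℝ) ≤ N := by exact_mod_cast (by omega : 1 ≤ N)
  have hle : ∀ t, (N : ℝ) ^ θ ≤ (N : ℝ) ^ θt t := fun t => Real.rpow_le_rpow_of_exponent_le hN1R (hθa t)
  rw [incl_excl Λ c (fun _ => 1) M N' P P' hSX, prod_expand, sum_mul, ← sum_sub_distrib]
  refine (abs_sum_le_sum_abs _ _).trans ?_
  have h1 : ∀ t ∈ (univ : Finset (Fin r)).powerset, |(-1) ^ (univ \ t).card *
      ∑ v ∈ pts Λ c (fun _ => 1) M N' P P' (fun i => if i ∈ t then SX m (a i) (x i) else SX m (a i) (y i)), sgq qq ρ Q Ω v -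
      (-1) ^ (univ \ t).card * (∏ i, if i ∈ t then δ * Phi (x i) / m else δ * Phi (y i) / m) *
        ∑ v ∈ pts Λ c (fun _ => 1) M N' P P' (fun _ => Set.univ), sgq qq ρ Q Ω v| ≤
      ε / 2 ^ r * (VV Q Ω / (qq : ℝ) ^ (D + 1)) * (N : ℝ) ^ (D + 1) := by
    intro t _
    have h2 := ht t N (hNt t) Q (fun p hp => ⟨(hQ p hp).1, (hQ p hp).2.trans (hle t)⟩) Ω hΩ qq hq1 (hq2.trans (hle t)) hq3 ρ c M N' hMN hN' P P' hP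
    have e1 : (fun i => SX m (a i) (if i ∈ t then x i else y i)) = fun i => if i ∈ t then SX m (a i) (x i) else SX m (a i) (y i) := by
      funext i
      split_ifs <;> rfl
    have e2 : (∏ i, δ * Phi (if i ∈ t then x i else y i) / m) = ∏ i, if i ∈ t then δ * Phi (x i) / m else δ * Phi (y i) / m := by
      apply prod_congr rfl
      intro i _
      split_ifs <;> rfl
    rw [e1, e2] at h2
    rw [mul_assoc ((-1 : ℝ) ^ (univ \ t).card), ← mul_sub, abs_mul, abs_pow, abs_neg, abs_one, one_pow, one_mul]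
    exact h2
  refine (sum_le_sum h1).trans (le_of_eq ?_)
  rw [sum_const, card_powerset, card_univ, Fintype.card_fin, nsmul_eq_mul]
  push_cast
  have h2 : (2 : ℝ) ^ r ≠ 0 := by positivity
  field_simp

/-- many sifted points -/
theorem manyJ {D r κ m : ℕ} (hm : 1 ≤ m) {δ : ℝ} (hδ0 : 0 < δ) (hδ1 : δ ≤ 1)
    (hlaw : ∀ a : ℤ, ∀ x : ℝ, Dn (fun n => EB m a (bd x n) n) (δ * Phi x / m))
    {Λ : Fin r → Fin (D + 1) → ℤ} (hΛ : ∀ i j, i ≠ j → Indep (Λ i) (Λ j)) {u : Fin (D + 1) → ℤ} (hu : ∀ i, 0 < dot (Λ i) u)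
    (a : Fin r → ℤ) {x y : Fin r → ℝ} (hxy : ∀ i, y i < x i) (hSX : ∀ i, SX m (a i) (y i) ⊆ SX m (a i) (x i)) :
    ∃ β : ℝ, 0 < β ∧ ∃ θ : ℝ, 0 < θ ∧ ∃ N0 : ℕ, ∀ N : ℕ, N0 ≤ N → ∀ Q : Finset ℕ, (∀ p ∈ Q, p.Prime ∧ (p : ℝ) ≤ (N : ℝ) ^ θ) →
    ∀ Ω : (p : ℕ) → Set (Fin (D + 1) → ZMod p), (∀ p ∈ Q, (Ω p).ncard * p ≤ κ * p ^ (D + 1)) →
    ∀ qq : ℕ, qq % 2 = 1 → (qq : ℝ) ≤ (N : ℝ) ^ θ → (∀ p ∈ Q, ¬ p ∣ qq) → ∀ ρ : Fin (D + 1) → ZMod qq,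
      β * (VV Q Ω / (qq : ℝ) ^ (D + 1)) * (N : ℝ) ^ (D + 1) ≤
        ∑ v ∈ pts Λ 0 (fun _ => 1) (fun _ => 0) (fun _ => N) (fun _ => -(N : ℤ)) (fun _ => (N : ℤ))
          (fun i => SX m (a i) (x i) \ SX m (a i) (y i)), sgq qq ρ Q Ω v := by
  obtain ⟨κ1, hκ1, N1, h1⟩ := Pool.Agent.W36.GT.pts_signs Λ (le_refl 1) u (s := fun _ => 1) (fun i => by rw [one_mul]; exact hu i)
  have h0 : ∀ i, Λ i ≠ 0 := by
    intro i h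
    have := hu i
    rw [h] at this
    unfold dot at this
    simp at this
  have hm0 : (0 : ℝ) < m := by exact_mod_cast hm
  obtain ⟨π, hπ⟩ : ∃ π : ℝ, π = ∏ i, (δ * Phi (x i) / m - δ * Phi (y i) / m) := ⟨_, rfl⟩
  have hπ0 : 0 < π := by
    rw [hπ]
    refine prod_pos fun i _ => ?_
    have h2 := Phi_lt (hxy i)
    have e : δ * Phi (x i) / m - δ * Phi (y i) / m = δ * (Phi (x i) - Phi (y i)) / m := by ring
    rw [e]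
    have h3 : 0 < Phi (x i) - Phi (y i) := by linarith
    positivity
  obtain ⟨θ1, hθ1, N2, h2⟩ := cmpS (κ := κ) h0 (show 0 < κ1 / (3 * 2 ^ (D + 1)) by positivity)
  obtain ⟨θ2, hθ2, N3, h3⟩ := jointW (κ := κ) hm hδ0 hδ1 hlaw h0 hΛ a hSX (show 0 < π * κ1 / (3 * 2 ^ (D + 1)) by positivity)
  refine ⟨π * κ1 / 3, by positivity, min θ1 θ2, lt_min hθ1 hθ2, N1 + N2 + N3 + 1, fun N hN Q hQ Ω hΩ qq hqo hqN hQq ρ => ?_⟩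
  have hNR : (1 : ℝ) ≤ N := by exact_mod_cast (by omega : 1 ≤ N)
  have hN2 : (N : ℝ) ≤ ((2 * N : ℕ) : ℝ) := by push_cast; linarith
  have hθN : ∀ θ, min θ1 θ2 ≤ θ → 0 < θ → (N : ℝ) ^ (min θ1 θ2) ≤ ((2 * N : ℕ) : ℝ) ^ θ := fun θ h hθ =>
    (Real.rpow_le_rpow_of_exponent_le hNR h).trans (Real.rpow_le_rpow (by linarith) hN2 hθ.le)
  have hside : ∀ _j : Fin (D + 1), (N : ℤ) - -(N : ℤ) ≤ ((2 * N : ℕ) : ℤ) := fun _ => by push_cast; linarith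
  have hqq1 : 1 ≤ qq := by omega
  have hqR : (0 : ℝ) < qq := by exact_mod_cast hqq1
  have a3 := h3 (2 * N) (by omega) Q (fun p hp => ⟨(hQ p hp).1, (hQ p hp).2.trans (hθN θ2 (min_le_right _ _) hθ2)⟩) Ω hΩ qq hqo
    (hqN.trans (hθN θ2 (min_le_right _ _) hθ2)) hQq ρ 0 (fun _ => 0) (fun _ => N) (fun _ => Nat.zero_le _) (fun _ => by omega)
    (fun _ => -(N : ℤ)) (fun _ => (N : ℤ)) hside
  rw [← hπ] at a3
  have a2 := h2 (2 * N) (by omega) Q (fun p hp => ⟨(hQ p hp).1, (hQ p hp).2.trans (hθN θ1 (min_le_left _ _) hθ1)⟩) Ω hΩ qq hqo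
    (hqN.trans (hθN θ1 (min_le_left _ _) hθ1)) hQq ρ (fun _ => Set.univ) 0 (fun _ => 0) (fun _ => N) (fun _ => coal_univ _ _ _ _)
    (fun _ => Nat.zero_le _) (fun _ => -(N : ℤ)) (fun _ => (N : ℤ)) hside
  obtain ⟨T, hT1, hT2⟩ := h1 N (by omega)
  have a4 : T.card ≤ (pts Λ 0 (fun _ => 1) (fun _ => 0) (fun _ => N) (fun _ => -(N : ℤ)) (fun _ => (N : ℤ)) (fun _ => Set.univ)).card := by
    apply card_le_card
    intro v hv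
    obtain ⟨b1, b2, -⟩ := hT2 v hv
    rw [Pool.Agent.W36.GT.mem_pts]
    refine ⟨b1, fun i => ⟨Set.mem_univ _, ?_, ?_⟩⟩
    · simp only [Pi.zero_apply, add_zero]; push_cast; exact (b2 i).1
    · simp only [Pi.zero_apply, add_zero]; exact (b2 i).2
  have hV' := VV_nonneg (fun p hp => (hQ p hp).1) Ω
  obtain ⟨V, hVd⟩ : ∃ V : ℝ, V = VV Q Ω / (qq : ℝ) ^ (D + 1) := ⟨_, rfl⟩
  have hV : 0 ≤ V := by rw [hVd]; positivity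
  rw [← hVd] at a2 a3 ⊢
  obtain ⟨k, hk⟩ : ∃ k : ℕ, k = (pts Λ 0 (fun _ => 1) (fun _ => 0) (fun _ => N) (fun _ => -(N : ℤ)) (fun _ => (N : ℤ)) (fun _ => Set.univ)).card := ⟨_, rfl⟩
  rw [← hk] at a2 a4
  obtain ⟨b, hb⟩ : ∃ b, b = ∑ v ∈ pts Λ 0 (fun _ => 1) (fun _ => 0) (fun _ => N) (fun _ => -(N : ℤ)) (fun _ => (N : ℤ)) (fun _ => Set.univ), sgq qq ρ Q Ω v := ⟨_, rfl⟩
  obtain ⟨s, hs⟩ : ∃ s, s = ∑ v ∈ pts Λ 0 (fun _ => 1) (fun _ => 0) (fun _ => N) (fun _ => -(N : ℤ)) (fun _ => (N : ℤ))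
          (fun i => SX m (a i) (x i) \ SX m (a i) (y i)), sgq qq ρ Q Ω v := ⟨_, rfl⟩
  rw [← hb] at a2 a3
  rw [← hs] at a3 ⊢
  have hmR : κ1 * (N : ℝ) ^ (D + 1) ≤ k := hT1.trans (by exact_mod_cast a4)
  have hNp : (0 : ℝ) < (N : ℝ) ^ (D + 1) := by positivity
  have e5 : κ1 / (3 * 2 ^ (D + 1)) * V * ((2 * N : ℕ) : ℝ) ^ (D + 1) = κ1 / 3 * (V * (N : ℝ) ^ (D + 1)) := by
    push_cast
    rw [mul_pow]
    field_simp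
  have e6 : π * κ1 / (3 * 2 ^ (D + 1)) * V * ((2 * N : ℕ) : ℝ) ^ (D + 1) = π * (κ1 / 3 * (V * (N : ℝ) ^ (D + 1))) := by
    push_cast
    rw [mul_pow]
    field_simp
  rw [e5] at a2
  rw [e6] at a3
  have c1 := (abs_le.1 a2).1
  have c2 := (abs_le.1 a3).1
  have c3 : V * (κ1 * (N : ℝ) ^ (D + 1)) ≤ V * k := mul_le_mul_of_nonneg_left hmR hV
  have c5 : κ1 * 2 / 3 * (V * (N : ℝ) ^ (D + 1)) ≤ b := by linarith
  have c6 : π * (κ1 * 2 / 3 * (V * (N : ℝ) ^ (D + 1))) ≤ π * b := mul_le_mul_of_nonneg_left c5 hπ0.le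
  calc π * κ1 / 3 * V * (N : ℝ) ^ (D + 1) = π * (κ1 * 2 / 3 * (V * (N : ℝ) ^ (D + 1))) - π * (κ1 / 3 * (V * (N : ℝ) ^ (D + 1))) := by ring
    _ ≤ s := by linarith

end Pool.Agent.K3h45.HJ
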