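import Pool.Agent.K3h45.HJ.H14

/-! Heights, and the parity conditions as a part of the sieve. -/

set_option autoImplicit false

namespace Pool.Agent.K3h45.HJ

open Finset
open Pool.Agent.H499R2.ND (Tn Dn Phi IsHt Bas)
open Pool.Agent.H499R2.LT (odn)
open Pool.Agent.H499R2.HL (H oc_odn)
open Pool.Agent.W36.GK (dot Indep)
open Pool.Agent.W36.GS (pts sgq sg rd VV VV_nonneg ncard_le)

theorem ht_OT {x : ℕ} (hx : x % 2 = 1) (hx1 : x ≠ 1) (h : ℕ) : IsHt x h ↔ OT x h := by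
  have hht : ∀ k, H k x → IsHt x (odn k x) := by
    intro k hk
    have h5 := Pool.Agent.H363R2.Cm_height k x (Nat.odd_iff.2 hx) hx1
      (by rw [Pool.Agent.H499R2.ND.TN_eq_Tn]; exact hk.1)
      (by rw [Pool.Agent.H499R2.ND.TN_eq_Tn]; exact hk.2)
    rw [oc_odn] at h5
    exact h5
  constructor
  · intro hh
    have hb : Bas x := (Pool.Agent.H499R2.ND.ht_iff (Nat.odd_iff.2 hx)).2 ⟨h, hh⟩
    classical
    have hb' : ∃ k, Tn^[k] x = 1 := hb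
    have hk : H (Nat.find hb') x := ⟨Nat.find_spec hb', fun i hi => Nat.find_min hb' hi⟩
    exact ⟨_, hk, (Pool.Agent.H499R2.ND.ht_unique hh (hht _ hk)).symm⟩
  · rintro ⟨k, hk, rfl⟩
    exact hht k hk

/-- the classes to be removed, and those where the value of a form is even -/
def addO {D r : ℕ} (Q : Finset ℕ) (Ω : (p : ℕ) → Set (Fin D → ZMod p)) (Λ : Fin r → Fin D → ℤ) (c : Fin r → ℤ) :
    (p : ℕ) → Set (Fin D → ZMod p) :=
  fun p => {u | (p ∈ Q ∧ u ∈ Ω p) ∨ (p = 2 ∧ ∃ i, ∑ j, (Λ i j : ZMod p) * u j + (c i : ZMod p) = 0)}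

theorem VV_add {D r : ℕ} {Q : Finset ℕ} (hQ : ∀ p ∈ Q, p.Prime) (Ω : (p : ℕ) → Set (Fin D → ZMod p)) (Λ : Fin r → Fin D → ℤ)
    (c : Fin r → ℤ) : VV (insert 2 Q) (addO Q Ω Λ c) ≤ VV Q Ω := by
  classical
  have h1 : VV Q Ω = ∏ p ∈ insert 2 Q, (if p ∈ Q then 1 - Pool.Agent.W36.GS.dn Ω p else 1) := by
    unfold VV
    rw [← prod_subset (subset_insert 2 Q) (fun p _ hp => by rw [if_neg hp])]
    exact prod_congr rfl fun p hp => by rw [if_pos hp]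
  rw [h1]
  unfold VV
  have hpr : ∀ p ∈ insert 2 Q, p.Prime := by
    intro p hp
    rcases mem_insert.1 hp with rfl | hp
    · exact Nat.prime_two
    · exact hQ p hp
  apply prod_le_prod
  · intro p hp
    have := Pool.Agent.W36.GS.dn_le_one (addO Q Ω Λ c) (hpr p hp)
    linarith
  · intro p hp
    split_ifs with h2
    · have h3 : Pool.Agent.W36.GS.dn Ω p ≤ Pool.Agent.W36.GS.dn (addO Q Ω Λ c) p := by
        have hNe : NeZero p := ⟨(hpr p hp).ne_zero⟩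
        unfold Pool.Agent.W36.GS.dn
        apply div_le_div_of_nonneg_right _ (by positivity)
        have h4 : (Ω p).ncard ≤ (addO Q Ω Λ c p).ncard :=
          Set.ncard_le_ncard (fun u hu => Or.inl ⟨h2, hu⟩) (Set.toFinite _)
        exact_mod_cast h4
      linarith
    · have := Pool.Agent.W36.GS.dn_nonneg (addO Q Ω Λ c) p
      linarith

theorem add_card {D r κ : ℕ} {Q : Finset ℕ} (hQ : ∀ p ∈ Q, p.Prime) {Ω : (p : ℕ) → Set (Fin (D + 1) → ZMod p)}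
    (hΩ : ∀ p ∈ Q, (Ω p).ncard * p ≤ κ * p ^ (D + 1)) (Λ : Fin r → Fin (D + 1) → ℤ) (c : Fin r → ℤ) :
    ∀ p ∈ insert 2 Q, (addO Q Ω Λ c p).ncard * p ≤ (κ + 2) * p ^ (D + 1) := by
  intro p hp
  by_cases h2 : p = 2
  · subst h2
    have h1 := ncard_le Nat.prime_two (addO Q Ω Λ c 2)
    nlinarith [pow_pos (show 0 < 2 by norm_num) (D + 1)]
  · have hpQ : p ∈ Q := by
      rcases mem_insert.1 hp with h | h
      · exact absurd h h2
      · exact h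
    have e : addO Q Ω Λ c p = Ω p := by
      ext u
      unfold addO
      rw [Set.mem_ofPred_eq]
      constructor
      · rintro (h | h)
        · exact h.2
        · exact absurd h.1 h2
      · intro h; exact Or.inl ⟨hpQ, h⟩
    rw [e]
    exact (hΩ p hpQ).trans (Nat.mul_le_mul_right _ (by omega))

theorem add_passes {D r : ℕ} (Q : Finset ℕ) (Ω : (p : ℕ) → Set (Fin D → ZMod p)) (Λ : Fin r → Fin D → ℤ) (c : Fin r → ℤ)
    (x : Fin D → ℤ) : (∀ p ∈ insert 2 Q, rd p x ∉ addO Q Ω Λ c p) ↔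
      (∀ p ∈ Q, rd p x ∉ Ω p) ∧ ∀ i, (dot (Λ i) x + c i) % 2 = 1 := by
  have key : ∀ i, (∑ j, (Λ i j : ZMod 2) * rd 2 x j + (c i : ZMod 2) = 0) ↔ ¬ (dot (Λ i) x + c i) % 2 = 1 := by
    intro i
    have e : ∑ j, (Λ i j : ZMod 2) * rd 2 x j + (c i : ZMod 2) = ((dot (Λ i) x + c i : ℤ) : ZMod 2) := by
      unfold dot rd
      push_cast
      rfl
    rw [e, ZMod.intCast_zmod_eq_zero_iff_dvd]
    constructor
    · intro h h2; omega
    · intro h; push_cast; omega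
  constructor
  · intro h
    refine ⟨fun p hp hu => h p (mem_insert_of_mem hp) (Or.inl ⟨hp, hu⟩), fun i => ?_⟩
    by_contra hcon
    exact h 2 (mem_insert_self 2 Q) (Or.inr ⟨rfl, i, (key i).2 hcon⟩)
  · rintro ⟨h1, h2⟩ p hp (h3 | h3)
    · exact h1 p h3.1 h3.2
    · obtain ⟨rfl, i, hi⟩ := h3
      exact (key i).1 hi (h2 i)

/-- THE JOINT LAW for odd values -/
theorem jointP {D r κ m : ℕ} (hm : 1 ≤ m) {δ : ℝ} (hδ0 : 0 < δ) (hδ1 : δ ≤ 1)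
    (hlaw : ∀ a : ℤ, ∀ x : ℝ, Dn (fun n => EB m a (bd x n) n) (δ * Phi x / m))
    {Λ : Fin r → Fin (D + 1) → ℤ} (h0 : ∀ i, Λ i ≠ 0) (hΛ : ∀ i j, i ≠ j → Indep (Λ i) (Λ j)) (a : Fin r → ℤ) (x : Fin r → ℝ)
    {ε : ℝ} (hε : 0 < ε) :
    ∃ θ : ℝ, 0 < θ ∧ ∃ N0 : ℕ, ∀ N : ℕ, N0 ≤ N → ∀ Q : Finset ℕ, (∀ p ∈ Q, p.Prime ∧ (p : ℝ) ≤ (N : ℝ) ^ θ) →
    ∀ Ω : (p : ℕ) → Set (Fin (D + 1) → ZMod p), (∀ p ∈ Q, (Ω p).ncard * p ≤ κ * p ^ (D + 1)) →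
    ∀ qq : ℕ, qq % 2 = 1 → (qq : ℝ) ≤ (N : ℝ) ^ θ → (∀ p ∈ Q, ¬ p ∣ qq) → ∀ ρ : Fin (D + 1) → ZMod qq,
    ∀ c : Fin r → ℤ, ∀ M N' : Fin r → ℕ, (∀ i, M i ≤ N' i) → (∀ i, N' i ≤ N) →
    ∀ P P' : Fin (D + 1) → ℤ, (∀ j, P' j - P j ≤ N) →
    |∑ y ∈ pts Λ c (fun _ => 1) M N' P P' (fun i => SX m (a i) (x i)), sgq qq ρ (insert 2 Q) (addO Q Ω Λ c) y -
      (∏ i, δ * Phi (x i) / m) * ∑ y ∈ pts Λ c (fun _ => 1) M N' P P' (fun _ => Set.univ), sgq qq ρ (insert 2 Q) (addO Q Ω Λ c) y| ≤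
      ε * (VV Q Ω / (qq : ℝ) ^ (D + 1)) * (N : ℝ) ^ (D + 1) := by
  obtain ⟨θ, hθ, N0, h⟩ := jointS (κ := κ + 2) hm hδ0 hδ1 hlaw h0 hΛ a x hε
  obtain ⟨N1, hN1⟩ := exists_nat_ge ((2 : ℝ) ^ (1 / θ))
  refine ⟨θ, hθ, N0 + N1, fun N hN Q hQ Ω hΩ qq hq1 hq2 hq3 ρ c M N' hMN hN' P P' hP => ?_⟩
  have hQp : ∀ p ∈ Q, p.Prime := fun p hp => (hQ p hp).1
  have h2N : (2 : ℝ) ≤ (N : ℝ) ^ θ := by
    have h1 : (2 : ℝ) ^ (1 / θ) ≤ N := hN1.trans (by exact_mod_cast (by omega : N1 ≤ N))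
    have h2 := Real.rpow_le_rpow (by positivity) h1 hθ.le
    rwa [← Real.rpow_mul (by norm_num), one_div_mul_cancel hθ.ne', Real.rpow_one] at h2
  have h1 := h N (by omega) (insert 2 Q) (fun p hp => by
      rcases mem_insert.1 hp with rfl | hp
      · exact ⟨Nat.prime_two, by exact_mod_cast h2N⟩
      · exact hQ p hp) (addO Q Ω Λ c) (add_card hQp hΩ Λ c) qq hq1 hq2 (fun p hp => by
      rcases mem_insert.1 hp with rfl | hp
      · omega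
      · exact hq3 p hp) ρ c M N' hMN hN' P P' hP
  refine h1.trans ?_
  apply mul_le_mul_of_nonneg_right _ (by positivity)
  apply mul_le_mul_of_nonneg_left _ hε.le
  exact div_le_div_of_nonneg_right (VV_add hQp Ω Λ c) (by positivity)

theorem bd_one (x : ℝ) : bd x 1 = 0 := by
  unfold bd
  simp

end Pool.Agent.K3h45.HJ
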