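import Pool.Agent.K3h45.HJ.H3
import Pool.Agent.W41.FU7

/-! Fourier uniformity for functions constant on trajectories that coalesce early. -/

set_option autoImplicit false

namespace Pool.Agent.K3h45.HJ

open Pool.Agent.H320R2.PD Pool.Agent.H499R2.ND Finset Pool.Agent.H499R2.CO Pool.Agent.W41 Pool.Agent.W41.FU

/-- MIDDLE RANGE of frequencies. -/
theorem midO {d : ℤ} (hd1 : d = 1) (hd : Odd d) (hd3 : IsCoprime d 3) (hdd : d * d = 1) {ε : ℝ} (hε : 0 < ε) (hε1 : ε ≤ 1) :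
    ∃ η1 : ℝ, 0 < η1 ∧ η1 ≤ 1 / 2 ∧ ∀ η : ℝ, 0 < η → η ≤ η1 → ∃ C : ℝ, 1 ≤ C ∧ ∃ N0 : ℕ, 1 ≤ N0 ∧
      ∀ N : ℕ, N0 ≤ N → ∀ α φ : ℝ, C ≤ α * N → α * (N : ℝ) ^ η ≤ 1 → ∀ f ∈ HC,
      |∑ n ∈ Icc 1 N, f (n : ℕ) * Real.cos (2 * Real.pi * α * (n : ℕ) + φ)| ≤ ε * N := by
  obtain ⟨η1, hη1, hη12, hodd⟩ := odd_cosO hd1 hd hd3 hdd (show 0 < ε / 8 by positivity) (by linarith)
  refine ⟨η1, hη1, hη12, fun η hη hηη => ?_⟩
  obtain ⟨B0, hB0, hb⟩ := hodd η hη hηη
  obtain ⟨J, hJ⟩ := exists_pow_lt_of_lt_one (show 0 < ε / 16 by positivity) (show (1 / 2 : ℝ) < 1 by norm_num)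
  -- N large
  set c0 : ℝ := 2 * (Real.log (4 * Real.pi) + 2 * J * Real.log 2) / η with hc0
  refine ⟨B0 * 2 ^ J, ?_, ⌈Real.exp c0⌉₊ + ⌈8 * (J : ℝ) / ε⌉₊ + 1, by omega, ?_⟩
  · exact one_le_mul_of_one_le_of_one_le hB0 (one_le_pow₀ (by norm_num))
  intro N hN α φ hα1 hα2 f hf
  have hN1 : 1 ≤ N := by omega
  have hNR : (1 : ℝ) ≤ N := by exact_mod_cast hN1
  have hNe : Real.exp c0 ≤ N := by
    have h1 : ⌈Real.exp c0⌉₊ ≤ N := by omega
    exact (Nat.le_ceil _).trans (by exact_mod_cast h1)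
  have hNJ : 8 * (J : ℝ) / ε ≤ N := by
    have h1 : ⌈8 * (J : ℝ) / ε⌉₊ ≤ N := by omega
    exact (Nat.le_ceil _).trans (by exact_mod_cast h1)
  have hlogN : c0 ≤ Real.log N := by
    rw [← Real.log_exp c0]
    exact Real.log_le_log (Real.exp_pos _) hNe
  have hα0 : 0 < α := by
    have h1 : 0 < B0 * 2 ^ J := by positivity
    have h2 : 0 < α * N := by linarith
    by_contra hcon
    push Not at hcon
    nlinarith
  set M : ℝ := (N : ℝ) + 1 with hM
  have hM0 : 0 < M := by positivity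
  set g : ℤ → ℝ := fun x => f x * Real.cos (2 * Real.pi * α * x + φ) with hg
  have hg1 : ∀ x, |g x| ≤ 1 := by
    intro x
    rw [hg]
    simp only
    rw [abs_mul]
    have a1 := HC_abs hf x
    have a2 := Real.abs_cos_le_one (2 * Real.pi * α * x + φ)
    nlinarith [abs_nonneg (f x), abs_nonneg (Real.cos (2 * Real.pi * α * x + φ))]
  have hTS : ∑ n ∈ Icc 1 N, f (n : ℕ) * Real.cos (2 * Real.pi * α * (n : ℕ) + φ) = FU.TS g M := by
    unfold FU.TS
    have hceil : ⌈M⌉ = (N : ℤ) + 1 := by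
      rw [hM]
      have : ((N : ℝ) + 1) = (((N : ℤ) + 1 : ℤ) : ℝ) := by push_cast; ring
      rw [this, Int.ceil_intCast]
    rw [hceil]
    refine sum_bij' (fun (n : ℕ) _ => (n : ℤ)) (fun (x : ℤ) _ => x.toNat) ?_ ?_ ?_ ?_ ?_
    · intro n hn
      rw [mem_Icc] at hn
      rw [mem_Ico]
      omega
    · intro x hx
      rw [mem_Ico] at hx
      rw [mem_Icc]
      omega
    · intro n _; simp
    · intro x hx
      rw [mem_Ico] at hx
      exact Int.toNat_of_nonneg (by omega)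
    · intro n _
      rw [hg]
      simp
  rw [hTS]
  have h2J : (0 : ℝ) < 2 ^ J := by positivity
  have key := TS_bound hg1 hM0.le (show 0 ≤ ε / 8 by positivity) J (by
    intro e j he hj
    set A := M / 2 ^ (e + j + 1) with hA
    have hA0 : 0 < A := by positivity
    set b := α * M / 2 ^ (j + 1) with hbdef
    have hfun : (fun x : ℤ => g (2 ^ e * x))
        = fun x => (fun x => f (2 ^ e * x)) x * Real.cos (2 * Real.pi * b * (x / A) + φ) := by
      funext x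
      rw [hg]
      simp only
      congr 2
      rw [hbdef, hA]
      push_cast
      rw [show e + j + 1 = e + (j + 1) by ring, pow_add 2 e (j + 1)]
      field_simp
    rw [hfun]
    apply hb b φ _ A hA0 _ _ (HC_two hf e)
    · -- B0 ≤ b
      rw [hbdef, le_div_iff₀ (by positivity)]
      calc B0 * 2 ^ (j + 1) ≤ B0 * 2 ^ J := by
            apply mul_le_mul_of_nonneg_left _ (by linarith)
            exact pow_le_pow_right₀ (by norm_num) (by omega)
        _ ≤ α * N := hα1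
        _ ≤ α * M := mul_le_mul_of_nonneg_left (by linarith) hα0.le
    · -- size
      have hb0 : 0 < b := by positivity
      have h1 : 2 * Real.pi * b ≤ 4 * Real.pi * (N : ℝ) ^ (1 - η) := by
        have e1 : b ≤ α * M := by
          rw [hbdef]
          apply div_le_self (by positivity)
          exact one_le_pow₀ (by norm_num)
        have e2 : M ≤ 2 * N := by rw [hM]; linarith
        have e3 : α ≤ (N : ℝ) ^ (-η) := by
          rw [Real.rpow_neg (by linarith), ← one_div, le_div_iff₀ (by positivity)]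
          exact hα2
        have e4 : (N : ℝ) ^ (-η) * N = (N : ℝ) ^ (1 - η) := by
          rw [show (1 - η) = -η + 1 by ring, Real.rpow_add (by linarith), Real.rpow_one]
        have e5 : α * M ≤ 2 * (N : ℝ) ^ (1 - η) := by
          calc α * M ≤ (N : ℝ) ^ (-η) * (2 * N) := mul_le_mul e3 e2 (by linarith) (by positivity)
            _ = 2 * ((N : ℝ) ^ (-η) * N) := by ring
            _ = _ := by rw [e4]
        have hpi := Real.pi_pos
        nlinarith
      have h2 : Real.log (2 * Real.pi * b) ≤ Real.log (4 * Real.pi) + (1 - η) * Real.log N := by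
        have hpi := Real.pi_pos
        rw [← Real.log_rpow (by linarith : (0 : ℝ) < N), ← Real.log_mul (by positivity) (by positivity)]
        exact Real.log_le_log (by positivity) h1
      have h3 : Real.log N - 2 * J * Real.log 2 ≤ Real.log A := by
        have e1 : (N : ℝ) / 2 ^ (2 * J) ≤ A := by
          rw [hA]
          apply div_le_div₀ hM0.le (by linarith) (by positivity)
          exact pow_le_pow_right₀ (by norm_num) (by omega)
        have e2 : Real.log N - 2 * J * Real.log 2 = Real.log ((N : ℝ) / 2 ^ (2 * J)) := by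
          rw [Real.log_div (by positivity) (by positivity), Real.log_pow]
          push_cast; ring
        rw [e2]
        exact Real.log_le_log (by positivity) e1
      have h4 : η * c0 = 2 * (Real.log (4 * Real.pi) + 2 * J * Real.log 2) := by
        rw [hc0]; field_simp
      have h5 : η * c0 ≤ η * Real.log N := mul_le_mul_of_nonneg_left hlogN hη.le
      have h6 : 0 ≤ (J : ℝ) * Real.log 2 := mul_nonneg (Nat.cast_nonneg _) (Real.log_nonneg (by norm_num))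
      have h7 : η ≤ 1 / 2 := hηη.trans hη12
      have h8 : (1 - η / 2) * (Real.log N - 2 * J * Real.log 2) ≤ (1 - η / 2) * Real.log A :=
        mul_le_mul_of_nonneg_left h3 (by linarith)
      have h9 : 0 ≤ η / 2 * (2 * J * Real.log 2) := by positivity
      linarith)
  refine key.trans ?_
  have h1 : 2 * M / 2 ^ J ≤ ε / 4 * N := by
    have e1 : (1 / 2 : ℝ) ^ J = 1 / 2 ^ J := by rw [one_div, inv_pow, one_div]
    rw [e1] at hJ
    have e2 : 2 * M / 2 ^ J = 2 * M * (1 / 2 ^ J) := by ring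
    rw [e2]
    have e3 : M ≤ 2 * N := by rw [hM]; linarith
    calc 2 * M * (1 / 2 ^ J) ≤ 2 * (2 * N) * (ε / 16) :=
          mul_le_mul (by linarith) hJ.le (by positivity) (by positivity)
      _ = _ := by ring
  have h2 : (J : ℝ) ≤ ε / 8 * N := by
    rw [div_le_iff₀ hε] at hNJ
    linarith
  have h3 : ε / 8 * M ≤ ε / 4 * N := by
    rw [hM]
    nlinarith
  linarith

/-- LARGE frequencies. -/
theorem largeO {d : ℤ} (hd : Odd d) (hdd : d * d = 1) {ε : ℝ} (hε : 0 < ε) (hε1 : ε ≤ 1) :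
    ∃ η : ℝ, 0 < η ∧ η ≤ 1 / 2 ∧ ∃ N0 : ℕ, 1 ≤ N0 ∧ ∀ N : ℕ, N0 ≤ N → ∀ α : ℝ, 0 < α → α ≤ 1 / 2 →
      1 ≤ α * (N : ℝ) ^ η → ∀ f ∈ SameO d, ‖EE f N α‖ ≤ ε * N := by
  classical
  have hdm : d % 2 = 1 := by obtain ⟨t, ht⟩ := hd; omega
  obtain ⟨θ, hθ, k0, hq⟩ := q_quant (show 0 < ε / 32 by positivity) (by linarith)
  obtain ⟨K, y0, hK, hy0, hs⟩ := surv_sum
  have hl1 := Real.log_two_lt_d9
  have hl2 := Real.log_two_gt_d9
  have hl0 : 0 < Real.log 2 := by linarith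
  refine ⟨min (1 / 2) (θ / 4), by positivity, min_le_left _ _, ?_⟩
  set η := min (1 / 2) (θ / 4) with hη
  have hη0 : 0 < η := by positivity
  have hη2 : η ≤ 1 / 2 := min_le_left _ _
  have hηθ : η ≤ θ / 4 := min_le_right _ _
  refine ⟨⌈Real.exp (2 * ((k0 : ℝ) + 1) + 8)⌉₊ + (y0 ^ K) ^ 2 + ⌈(16 / ε) ^ 2⌉₊ + 1, by omega, ?_⟩
  intro N hN α hα0 hα1 hα2 f hf
  have hN1 : 1 ≤ N := by omega
  have hNR : (1 : ℝ) ≤ N := by exact_mod_cast hN1
  have hN2 : Real.exp (2 * ((k0 : ℝ) + 1) + 8) ≤ N := by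
    have h1 : ⌈Real.exp (2 * ((k0 : ℝ) + 1) + 8)⌉₊ ≤ N := by omega
    exact (Nat.le_ceil _).trans (by exact_mod_cast h1)
  have hN3 : (y0 ^ K) ^ 2 ≤ N := by omega
  have hN4 : (16 / ε) ^ 2 ≤ (N : ℝ) := by
    have h1 : ⌈(16 / ε) ^ 2⌉₊ ≤ N := by omega
    exact (Nat.le_ceil _).trans (by exact_mod_cast h1)
  set t := Real.log N with ht
  have hexp : Real.exp t = N := Real.exp_log (by linarith)
  have htk : 2 * ((k0 : ℝ) + 1) + 8 ≤ t := by
    rw [← Real.log_exp (2 * ((k0 : ℝ) + 1) + 8)]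
    exact Real.log_le_log (Real.exp_pos _) hN2
  have hk00 : (0 : ℝ) ≤ k0 := Nat.cast_nonneg _
  have htpos : 0 < t := by linarith
  set k := ⌊t / (2 * Real.log 2)⌋₊ with hk
  have hk1 : (k : ℝ) ≤ t / (2 * Real.log 2) := Nat.floor_le (by positivity)
  have hk1' : (k : ℝ) * Real.log 2 ≤ t / 2 := by
    rw [le_div_iff₀ (by positivity)] at hk1; linarith
  have hk2 : t / (2 * Real.log 2) - 1 ≤ k := by linarith [Nat.lt_floor_add_one (t / (2 * Real.log 2))]
  have hk2' : t / 2 - Real.log 2 ≤ k * Real.log 2 := by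
    have e : t / (2 * Real.log 2) * Real.log 2 = t / 2 := by field_simp
    nlinarith
  have hkk0 : k0 ≤ k := by
    have h1 : (k0 : ℝ) ≤ t / (2 * Real.log 2) := by
      rw [le_div_iff₀ (by positivity)]
      nlinarith
    exact Nat.le_floor h1
  have h2k : ((2 : ℝ) ^ k) ^ 2 ≤ N := by
    have h2 : (2 : ℝ) ^ k = Real.exp (k * Real.log 2) := by
      rw [Real.exp_nat_mul, Real.exp_log (by norm_num)]
    rw [h2, ← Real.exp_nat_mul, ← hexp]
    apply Real.exp_le_exp.2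
    push_cast
    linarith
  have hcond : 2 ^ k * y0 ^ K ≤ N := by
    have h1 : (2 ^ k) ^ 2 ≤ N := by exact_mod_cast h2k
    by_contra hcon
    push Not at hcon
    have h3 : N * N < (2 ^ k * y0 ^ K) * (2 ^ k * y0 ^ K) := Nat.mul_lt_mul'' hcon hcon
    have h4 : (2 ^ k * y0 ^ K) * (2 ^ k * y0 ^ K) = (2 ^ k) ^ 2 * (y0 ^ K) ^ 2 := by ring
    rw [h4] at h3
    have h5 := Nat.mul_le_mul h1 hN3
    omega
  -- the shift
  set h := ⌈1 / (4 * α)⌉₊ with hh
  have hh1 : 1 / (4 * α) ≤ h := Nat.le_ceil _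
  have hh2 : (h : ℝ) ≤ 1 / (4 * α) + 1 := (Nat.ceil_lt_add_one (by positivity)).le
  have hah1 : 1 / 4 ≤ α * h := by
    have := mul_le_mul_of_nonneg_left hh1 hα0.le
    have e : α * (1 / (4 * α)) = 1 / 4 := by field_simp
    linarith
  have hah2 : α * h ≤ 3 / 4 := by
    have := mul_le_mul_of_nonneg_left hh2 hα0.le
    have e : α * (1 / (4 * α) + 1) = 1 / 4 + α := by field_simp
    linarith
  have hhN : (h : ℝ) ≤ (N : ℝ) ^ η := by
    have h1 : (h : ℝ) * α ≤ (N : ℝ) ^ η * α := by linarith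
    exact le_of_mul_le_mul_right h1 hα0
  have hhs : (N : ℝ) ^ η ≤ ε / 16 * N := by
    have h1 : (N : ℝ) ^ η ≤ (N : ℝ) ^ (1 / 2 : ℝ) := Real.rpow_le_rpow_of_exponent_le hNR hη2
    have h2 : (N : ℝ) ^ (1 / 2 : ℝ) = Real.sqrt N := (Real.sqrt_eq_rpow N).symm
    rw [h2] at h1
    have h3 : 16 / ε ≤ Real.sqrt N := Real.le_sqrt_of_sq_le hN4
    have h4 : Real.sqrt N * Real.sqrt N = N := Real.mul_self_sqrt (by linarith)
    rw [div_le_iff₀ hε] at h3
    have h5 : 0 ≤ Real.sqrt N := Real.sqrt_nonneg _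
    nlinarith
  have hqq : q step (0, 0) k (0, -(d * (h : ℤ))) ≤ ε / 32 := by
    apply hq k hkk0
    have hd1 : |(d : ℝ)| = 1 := by
      have : (d : ℝ) * d = 1 := by exact_mod_cast hdd
      have h2 : |(d : ℝ)| * |(d : ℝ)| = 1 := by rw [← abs_mul, this, abs_one]
      nlinarith [abs_nonneg (d : ℝ)]
    push_cast
    rw [abs_neg, abs_mul, hd1, one_mul, abs_of_nonneg (by positivity)]
    refine hhN.trans ?_
    have h2 : (2 : ℝ) ^ (θ * k) = Real.exp (θ * (k * Real.log 2)) := by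
      rw [Real.rpow_def_of_pos (by norm_num)]
      congr 1; ring
    rw [h2, Real.rpow_def_of_pos (by linarith), ← ht]
    apply Real.exp_le_exp.2
    have h6 : θ * (t / 2 - Real.log 2) ≤ θ * (k * Real.log 2) := mul_le_mul_of_nonneg_left hk2' hθ.le
    have h8 : t * η ≤ t * (θ / 4) := mul_le_mul_of_nonneg_left hηθ htpos.le
    nlinarith
  -- the comparison
  have hsurv := hs y0 le_rfl k N hcond ∅ (by simp) 0 1 (by simp) d hdm 0 1 (by norm_num) (0, -(d * (h : ℤ)))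
  have hV : Pool.Agent.W41.V ∅ = 1 := by unfold Pool.Agent.W41.V; simp
  have h2k1 : (2 : ℝ) ^ k ≤ ε / 16 * N := by
    have h1 : 16 / ε ≤ Real.sqrt N := Real.le_sqrt_of_sq_le hN4
    have h2 : (2 : ℝ) ^ k ≤ Real.sqrt N := Real.le_sqrt_of_sq_le h2k
    have h3 : Real.sqrt N * Real.sqrt N = N := Real.mul_self_sqrt (by linarith)
    rw [div_le_iff₀ hε] at h1
    have h4 : 0 ≤ Real.sqrt N := Real.sqrt_nonneg _
    nlinarith
  have s1 : ‖EE f N α - ∑ n ∈ Icc 1 N, (f ((n : ℕ) - (h : ℕ)) : ℂ) * ee α (n : ℕ)‖ ≤ 3 * ε / 4 * N := by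
    unfold EE
    rw [← sum_sub_distrib]
    refine (norm_sum_le _ _).trans ?_
    have hb : ∀ n ∈ Icc 1 N, ‖(f (n : ℕ) : ℂ) * ee α (n : ℕ) - (f ((n : ℕ) - (h : ℕ)) : ℂ) * ee α (n : ℕ)‖
        ≤ 2 * (wt ∅ 0 1 (n : ℕ) * (if surv d k (0, -(d * (h : ℤ))) (0 + 1 * (n : ℕ)) then 1 else 0))
          + (if n ≤ 2 ^ k + h then 2 else 0) := by
      intro n _
      have hn2 : ‖(f (n : ℕ) : ℂ) * ee α (n : ℕ) - (f ((n : ℕ) - (h : ℕ)) : ℂ) * ee α (n : ℕ)‖ ≤ 2 := by
        rw [← sub_mul, norm_mul, ee_norm, mul_one, ← Complex.ofReal_sub, Complex.norm_real, Real.norm_eq_abs]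
        have a1 := hf.1 (n : ℕ)
        have a2 := hf.1 ((n : ℕ) - (h : ℕ))
        have a3 := abs_sub (f (n : ℕ)) (f ((n : ℕ) - (h : ℕ)))
        linarith
      have hw : wt ∅ 0 1 (n : ℕ) = 1 := by unfold wt; simp
      rw [hw, one_mul, zero_add, one_mul]
      by_cases hsv : surv d k (0, -(d * (h : ℤ))) ((n : ℕ) : ℤ)
      · rw [if_pos hsv]
        split_ifs <;> linarith
      · rw [if_neg hsv]
        by_cases hnk : n ≤ 2 ^ k + h
        · rw [if_pos hnk]; linarith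
        · rw [if_neg hnk]
          push Not at hnk
          obtain ⟨j, hjk, hj, hjo⟩ := coalO hdm k 0 (-(d * (h : ℤ))) _ hsv
          have e : (3 : ℤ) ^ 0 * (n : ℕ) + d * (-(d * (h : ℤ))) = (n : ℕ) - (h : ℕ) := by
            have : d * (-(d * (h : ℤ))) = -(d * d) * h := by ring
            rw [this, hdd]; ring
          rw [e] at hj hjo
          rw [Nat.cast_zero, zero_add] at hjo
          have h1 : (2 : ℤ) ^ j ≤ 2 ^ k := pow_le_pow_right₀ (by norm_num) hjk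
          have h2 : (2 : ℤ) ^ k + h < n := by exact_mod_cast hnk
          have h3 : (0 : ℤ) ≤ h := Int.natCast_nonneg _
          rw [hf.2 j _ _ (by linarith) (by linarith) hj hjo, sub_self]
          norm_num
    refine (sum_le_sum hb).trans ?_
    rw [sum_add_distrib, ← mul_sum]
    rw [hV] at hsurv
    have h4 : 8 * (N : ℝ) * 1 * q step (0, 0) k (0, -(d * (h : ℤ))) ≤ 8 * N * 1 * (ε / 32) :=
      mul_le_mul_of_nonneg_left hqq (by positivity)
    have h5 : ∑ n ∈ Icc 1 N, (if n ≤ 2 ^ k + h then (2 : ℝ) else 0) ≤ 2 * (2 ^ k + h) := by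
      rw [← sum_filter, sum_const, nsmul_eq_mul]
      have h6 : ((Icc 1 N).filter (fun n => n ≤ 2 ^ k + h)).card ≤ 2 ^ k + h := by
        calc _ ≤ (Icc 1 (2 ^ k + h)).card := by
              apply card_le_card
              intro n hn
              rw [mem_filter, mem_Icc] at hn
              rw [mem_Icc]
              exact ⟨hn.1.1, hn.2⟩
          _ = _ := by rw [Nat.card_Icc, Nat.add_sub_cancel]
      have h7 : (((Icc 1 N).filter (fun n => n ≤ 2 ^ k + h)).card : ℝ) ≤ 2 ^ k + h := by exact_mod_cast h6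
      linarith
    have h6 : (h : ℝ) ≤ ε / 16 * N := hhN.trans hhs
    linarith
  have s2 : ∑ n ∈ Icc 1 N, (f ((n : ℕ) - (h : ℕ)) : ℂ) * ee α (n : ℕ)
      = ∑ n ∈ Icc 1 N, (fun x : ℤ => (f x : ℂ) * ee α (x + h)) ((n : ℕ) - (h : ℕ)) := by
    apply sum_congr rfl
    intro n _
    simp
  have s3 := transl (fun x : ℤ => (f x : ℂ) * ee α (x + h)) (fun x => by
    rw [norm_mul, ee_norm, mul_one, Complex.norm_real, Real.norm_eq_abs]; exact hf.1 x) N h
  rw [← s2] at s3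
  have s4 : ∑ n ∈ Icc 1 N, (fun x : ℤ => (f x : ℂ) * ee α (x + h)) (n : ℕ) = EE f N α * ee α h := by
    unfold EE
    rw [sum_mul]
    apply sum_congr rfl
    intro n _
    simp only
    rw [ee_add]
    ring
  rw [s4] at s3
  have s5 : ‖EE f N α * (1 - ee α h)‖ ≤ ε * N := by
    have e : EE f N α * (1 - ee α h) = (EE f N α - ∑ n ∈ Icc 1 N, (f ((n : ℕ) - (h : ℕ)) : ℂ) * ee α (n : ℕ))
        - (EE f N α * ee α h - ∑ n ∈ Icc 1 N, (f ((n : ℕ) - (h : ℕ)) : ℂ) * ee α (n : ℕ)) := by ring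
    rw [e]
    refine (norm_sub_le _ _).trans ?_
    have : 2 * (h : ℝ) ≤ ε / 8 * N := by linarith
    have hN0 : 0 ≤ ε * N := by positivity
    linarith
  have s6 : 1 ≤ ‖1 - ee α h‖ := by
    have h1 : (1 - ee α h).re = 1 - Real.cos (2 * Real.pi * α * (h : ℝ)) := by
      unfold ee
      rw [Complex.sub_re, Complex.one_re, Complex.exp_ofReal_mul_I_re]
      simp
    have h2 : Real.cos (2 * Real.pi * α * (h : ℝ)) ≤ 0 := by
      apply Real.cos_nonpos_of_pi_div_two_le_of_le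
      · have := mul_le_mul_of_nonneg_left hah1 (by positivity : 0 ≤ 2 * Real.pi)
        linarith
      · have := mul_le_mul_of_nonneg_left hah2 (by positivity : 0 ≤ 2 * Real.pi)
        linarith
    have h3 := Complex.abs_re_le_norm (1 - ee α h)
    rw [h1] at h3
    have h4 := le_abs_self (1 - Real.cos (2 * Real.pi * α * (h : ℝ)))
    linarith
  rw [norm_mul] at s5
  have h0 := norm_nonneg (EE f N α)
  nlinarith

/-- MIDDLE frequencies, complex form. -/
theorem midO' {d : ℤ} (hd1 : d = 1) (hd : Odd d) (hd3 : IsCoprime d 3) (hdd : d * d = 1) {ε : ℝ} (hε : 0 < ε) (hε1 : ε ≤ 1) :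
    ∃ η1 : ℝ, 0 < η1 ∧ η1 ≤ 1 / 2 ∧ ∀ η : ℝ, 0 < η → η ≤ η1 → ∃ C : ℝ, 1 ≤ C ∧ ∃ N0 : ℕ, 1 ≤ N0 ∧
      ∀ N : ℕ, N0 ≤ N → ∀ α : ℝ, C ≤ α * N → α * (N : ℝ) ^ η ≤ 1 → ∀ f ∈ HC, ‖EE f N α‖ ≤ ε * N := by
  obtain ⟨η1, h1, h2, h⟩ := midO hd1 hd hd3 hdd (show 0 < ε / 2 by positivity) (by linarith)
  refine ⟨η1, h1, h2, fun η h3 h4 => ?_⟩
  obtain ⟨C, hC, N0, hN0, h5⟩ := h η h3 h4
  refine ⟨C, hC, N0, hN0, fun N hN α hα1 hα2 f hf => ?_⟩
  have a1 := h5 N hN α 0 hα1 hα2 f hf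
  have a2 := h5 N hN α (-(Real.pi / 2)) hα1 hα2 f hf
  have e : EE f N α = ((∑ n ∈ Icc 1 N, f (n : ℕ) * Real.cos (2 * Real.pi * α * (n : ℕ) + 0) : ℝ) : ℂ)
      + ((∑ n ∈ Icc 1 N, f (n : ℕ) * Real.cos (2 * Real.pi * α * (n : ℕ) + (-(Real.pi / 2))) : ℝ) : ℂ) * Complex.I := by
    unfold EE
    push_cast
    rw [sum_mul, ← sum_add_distrib]
    apply sum_congr rfl
    intro n _
    rw [ee_cos]
    push_cast
    ring
  rw [e]
  refine (norm_add_le _ _).trans ?_
  rw [norm_mul, Complex.norm_I, mul_one, Complex.norm_real, Complex.norm_real, Real.norm_eq_abs, Real.norm_eq_abs]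
  linarith

/-- FOURIER UNIFORMITY away from the integers -/
theorem fourierO {d : ℤ} (hd1 : d = 1) (hd : Odd d) (hd3 : IsCoprime d 3) (hdd : d * d = 1) {ε : ℝ} (hε : 0 < ε) (hε1 : ε ≤ 1) :
    ∃ C : ℝ, 1 ≤ C ∧ ∃ N0 : ℕ, 1 ≤ N0 ∧ ∀ N : ℕ, N0 ≤ N → ∀ α : ℝ, C ≤ |α - round α| * N →
      ∀ f ∈ HC, ‖EE f N α‖ ≤ ε * N := by
  obtain ⟨η2, hη2, hη22, N2, hN2, h2⟩ := largeO hd hdd hε hε1
  obtain ⟨η1, hη1, hη11, h1⟩ := midO' hd1 hd hd3 hdd hε hε1
  obtain ⟨C, hC, N1, hN1, h1'⟩ := h1 (min η1 η2) (lt_min hη1 hη2) (min_le_left _ _)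
  refine ⟨C, hC, N1 + N2, by omega, ?_⟩
  intro N hN α hα f hf
  have hNR : (1 : ℝ) ≤ N := by
    have : 1 ≤ N := by omega
    exact_mod_cast this
  rw [EE_abs]
  set a := |α - round α| with ha
  have ha0 : 0 < a := by
    by_contra hcon
    push Not at hcon
    nlinarith
  have ha1 : a ≤ 1 / 2 := abs_sub_round α
  rcases le_or_gt (a * (N : ℝ) ^ (min η1 η2)) 1 with hc | hc
  · exact h1' N (by omega) a hα hc f hf
  · apply h2 N (by omega) a ha0 ha1 _ f (hd1 ▸ HC_same hf)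
    refine hc.le.trans ?_
    apply mul_le_mul_of_nonneg_left _ ha0.le
    exact Real.rpow_le_rpow_of_exponent_le hNR (min_le_right _ _)

end Pool.Agent.K3h45.HJ
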