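import Pool.Agent.K3h45.HJ.H4
import Pool.Agent.W41.MU4
import Pool.Agent.W36.GU.GU13
import Pool.Agent.W36.JL.J7

/-! Local constancy and invariance under the multiplication by three, for functions constant on
trajectories that coalesce early. -/

set_option autoImplicit false

namespace Pool.Agent.K3h45.HJ

open Pool.Agent.H320R2.PD Pool.Agent.H499R2.ND Finset Pool.Agent.H499R2.CO Pool.Agent.W41.FU Pool.Agent.W41 Pool.Agent.W41.MU
open Pool.Agent.W36.GU (sum_cast)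

theorem lcO {d : ℤ} (hd : Odd d) (hdd : d * d = 1) {ε : ℝ} (hε : 0 < ε) (hε1 : ε ≤ 1) :
    ∃ θ : ℝ, 0 < θ ∧ θ ≤ 1 / 2 ∧ ∃ M0 : ℕ, 1 ≤ M0 ∧ ∀ M : ℕ, M0 ≤ M → ∀ f ∈ SameO d, ∀ c : ℤ, c % 2 = 1 → 0 < c →
      ∀ h : ℤ, |(h : ℝ)| ≤ (M : ℝ) ^ θ →
      ∑ m ∈ Icc 1 M, |f (0 + c * (m : ℕ) + h) - f (0 + c * (m : ℕ))| ≤ ε * M := by
  classical
  have hdm : d % 2 = 1 := by obtain ⟨t, ht⟩ := hd; omega
  obtain ⟨θ, hθ, k0, hq⟩ := q_quant (show 0 < ε / 32 by positivity) (by linarith)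
  obtain ⟨K, y0, hK, hy0, hs⟩ := surv_sum
  have hl1 := Real.log_two_lt_d9
  have hl2 := Real.log_two_gt_d9
  have hl0 : 0 < Real.log 2 := by linarith
  refine ⟨min (1 / 2) (θ / 4), by positivity, min_le_left _ _, ?_⟩
  set η := min (1 / 2) (θ / 4) with hη
  have hη0 : 0 < η := by positivity
  have hηθ : η ≤ θ / 4 := min_le_right _ _
  refine ⟨⌈Real.exp (2 * ((k0 : ℝ) + 1) + 8)⌉₊ + (y0 ^ K) ^ 2 + ⌈(8 / ε) ^ 2⌉₊ + 1, by omega, ?_⟩
  intro N hN f hf c hc hc0 h hh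
  have hN1 : 1 ≤ N := by omega
  have hNR : (1 : ℝ) ≤ N := by exact_mod_cast hN1
  have hN2 : Real.exp (2 * ((k0 : ℝ) + 1) + 8) ≤ N := by
    have h1 : ⌈Real.exp (2 * ((k0 : ℝ) + 1) + 8)⌉₊ ≤ N := by omega
    exact (Nat.le_ceil _).trans (by exact_mod_cast h1)
  have hN3 : (y0 ^ K) ^ 2 ≤ N := by omega
  have hN4 : (8 / ε) ^ 2 ≤ (N : ℝ) := by
    have h1 : ⌈(8 / ε) ^ 2⌉₊ ≤ N := by omega
    exact (Nat.le_ceil _).trans (by exact_mod_cast h1)
  set t := Real.log N with ht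
  have hexp : Real.exp t = N := Real.exp_log (by linarith)
  have htk : 2 * ((k0 : ℝ) + 1) + 8 ≤ t := by
    rw [← Real.log_exp (2 * ((k0 : ℝ) + 1) + 8)]
    exact Real.log_le_log (Real.exp_pos _) hN2
  have hk00 : (0 : ℝ) ≤ k0 := Nat.cast_nonneg _
  have htpos : 0 < t := by linarith
  set k := ⌊t / (2 * Real.log 2)⌋₊ with hk
  have hk1 : (k : ℝ) ≤ t / (2 * Real.log 2) := Nat.floor_le (by positivity)
  have hk1' : (k : ℝ) * Real.log 2 ≤ t / 2 := by
    rw [le_div_iff₀ (by positivity)] at hk1; linarith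
  have hk2 : t / (2 * Real.log 2) - 1 ≤ k := by linarith [Nat.lt_floor_add_one (t / (2 * Real.log 2))]
  have hk2' : t / 2 - Real.log 2 ≤ k * Real.log 2 := by
    have e : t / (2 * Real.log 2) * Real.log 2 = t / 2 := by field_simp
    nlinarith
  have hkk0 : k0 ≤ k := by
    have h1 : (k0 : ℝ) ≤ t / (2 * Real.log 2) := by
      rw [le_div_iff₀ (by positivity)]
      nlinarith
    exact Nat.le_floor h1
  have h2k : ((2 : ℝ) ^ k) ^ 2 ≤ N := by
    have h2 : (2 : ℝ) ^ k = Real.exp (k * Real.log 2) := by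
      rw [Real.exp_nat_mul, Real.exp_log (by norm_num)]
    rw [h2, ← Real.exp_nat_mul, ← hexp]
    apply Real.exp_le_exp.2
    push_cast
    linarith
  have hcond : 2 ^ k * y0 ^ K ≤ N := by
    have h1 : (2 ^ k) ^ 2 ≤ N := by exact_mod_cast h2k
    by_contra hcon
    push Not at hcon
    have h3 : N * N < (2 ^ k * y0 ^ K) * (2 ^ k * y0 ^ K) := Nat.mul_lt_mul'' hcon hcon
    have h4 : (2 ^ k * y0 ^ K) * (2 ^ k * y0 ^ K) = (2 ^ k) ^ 2 * (y0 ^ K) ^ 2 := by ring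
    rw [h4] at h3
    have h5 := Nat.mul_le_mul h1 hN3
    omega
  have hqq : q step (0, 0) k (0, d * h) ≤ ε / 32 := by
    apply hq k hkk0
    have hd1 : |(d : ℝ)| = 1 := by
      have : (d : ℝ) * d = 1 := by exact_mod_cast hdd
      have h2 : |(d : ℝ)| * |(d : ℝ)| = 1 := by rw [← abs_mul, this, abs_one]
      nlinarith [abs_nonneg (d : ℝ)]
    push_cast
    rw [abs_mul, hd1, one_mul]
    refine hh.trans ?_
    have h2 : (2 : ℝ) ^ (θ * k) = Real.exp (θ * (k * Real.log 2)) := by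
      rw [Real.rpow_def_of_pos (by norm_num)]
      congr 1; ring
    rw [h2, Real.rpow_def_of_pos (by linarith), ← ht]
    apply Real.exp_le_exp.2
    have h6 : θ * (t / 2 - Real.log 2) ≤ θ * (k * Real.log 2) := mul_le_mul_of_nonneg_left hk2' hθ.le
    have h8 : t * η ≤ t * (θ / 4) := mul_le_mul_of_nonneg_left hηθ htpos.le
    nlinarith
  have hsurv := hs y0 le_rfl k N hcond ∅ (by simp) 0 1 (by simp) d hdm 0 c hc (0, d * h)
  have hV : Pool.Agent.W41.V ∅ = 1 := by unfold Pool.Agent.W41.V; simp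
  have hsq0 : 0 ≤ Real.sqrt N := Real.sqrt_nonneg _
  have hsq : Real.sqrt N * Real.sqrt N = N := Real.mul_self_sqrt (by linarith)
  have hbig : Real.sqrt N ≤ ε / 8 * N := by
    have h1 : 8 / ε ≤ Real.sqrt N := Real.le_sqrt_of_sq_le hN4
    rw [div_le_iff₀ hε] at h1
    nlinarith
  have h2k1 : (2 : ℝ) ^ k ≤ ε / 8 * N := (Real.le_sqrt_of_sq_le h2k).trans hbig
  have hhN : |(h : ℝ)| ≤ ε / 8 * N := by
    refine hh.trans (le_trans ?_ hbig)
    rw [Real.sqrt_eq_rpow]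
    exact Real.rpow_le_rpow_of_exponent_le hNR (min_le_left _ _)
  have hb : ∀ n ∈ Icc 1 N, |f (0 + c * (n : ℕ) + h) - f (0 + c * (n : ℕ))|
      ≤ 2 * (wt ∅ 0 1 (n : ℕ) * (if surv d k (0, d * h) (0 + c * (n : ℕ)) then 1 else 0))
        + (if n ≤ 2 ^ k + h.natAbs then 2 else 0) := by
    intro n _
    have hw : wt ∅ 0 1 (n : ℕ) = 1 := by unfold wt; simp
    rw [hw, one_mul]
    have h2 : |f (0 + c * (n : ℕ) + h) - f (0 + c * (n : ℕ))| ≤ 2 := by
      have a1 := hf.1 (0 + c * (n : ℕ) + h)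
      have a2 := hf.1 (0 + c * (n : ℕ))
      have a3 := abs_sub (f (0 + c * (n : ℕ) + h)) (f (0 + c * (n : ℕ)))
      linarith
    by_cases hsv : surv d k (0, d * h) (0 + c * (n : ℕ))
    · rw [if_pos hsv]
      split_ifs <;> linarith
    · rw [if_neg hsv]
      by_cases hnk : n ≤ 2 ^ k + h.natAbs
      · rw [if_pos hnk]; linarith
      · rw [if_neg hnk]
        push Not at hnk
        obtain ⟨j, hjk, hj, hjo⟩ := coalO hdm k 0 (d * h) _ hsv
        have e : (3 : ℤ) ^ 0 * (0 + c * (n : ℕ)) + d * (d * h) = 0 + c * (n : ℕ) + h := by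
          have : d * (d * h) = (d * d) * h := by ring
          rw [this, hdd]; ring
        rw [e] at hj hjo
        rw [Nat.cast_zero, zero_add (Pool.Agent.H499R2.LT.od _ _ _)] at hjo
        have h1 : (2 : ℤ) ^ j ≤ 2 ^ k := pow_le_pow_right₀ (by norm_num) hjk
        have h3 : (2 : ℤ) ^ k + h.natAbs < n := by exact_mod_cast hnk
        have h4 : -(h.natAbs : ℤ) ≤ h := by omega
        have h5 : (0 : ℤ) ≤ h.natAbs := Int.natCast_nonneg _
        have h6 : (0 : ℤ) < 2 ^ k := by positivity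
        have h7 : (n : ℤ) ≤ c * n := by nlinarith
        rw [← hf.2 j _ _ (by linarith) (by linarith) hj hjo, sub_self, abs_zero]
        norm_num
  refine (sum_le_sum hb).trans ?_
  rw [sum_add_distrib, ← mul_sum]
  rw [hV] at hsurv
  have h4 : 8 * (N : ℝ) * 1 * q step (0, 0) k (0, d * h) ≤ 8 * N * 1 * (ε / 32) :=
    mul_le_mul_of_nonneg_left hqq (by positivity)
  have h5 : ∑ n ∈ Icc 1 N, (if n ≤ 2 ^ k + h.natAbs then (2 : ℝ) else 0) ≤ 2 * (2 ^ k + |(h : ℝ)|) := by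
    rw [← sum_filter, sum_const, nsmul_eq_mul]
    have h6 : ((Icc 1 N).filter (fun n => n ≤ 2 ^ k + h.natAbs)).card ≤ 2 ^ k + h.natAbs := by
      calc _ ≤ (Icc 1 (2 ^ k + h.natAbs)).card := by
            apply card_le_card
            intro n hn
            rw [mem_filter, mem_Icc] at hn
            rw [mem_Icc]
            exact ⟨hn.1.1, hn.2⟩
        _ = _ := by rw [Nat.card_Icc, Nat.add_sub_cancel]
    have h7 : (((Icc 1 N).filter (fun n => n ≤ 2 ^ k + h.natAbs)).card : ℝ) ≤ 2 ^ k + (h.natAbs : ℝ) := by exact_mod_cast h6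
    rw [Nat.cast_natAbs, Int.cast_abs] at h7
    linarith
  linarith

theorem locO {κ : ℝ} (hκ : 0 < κ) (j : ℕ) (c : ℤ) (hc : c % 2 = 1) (hc0 : 0 < c) (h : ℤ) (hh : |h| ≤ j) :
    ∃ X0 : ℕ, 1 ≤ X0 ∧ ∀ X : ℕ, X0 ≤ X → ∀ f ∈ SameO 1, ∑ n ∈ Icc (1 : ℤ) X, |f (c * n + h) - f (c * n)| ≤ κ * X := by
  obtain ⟨θ, hθ, -, M0, hM0, H⟩ := lcO odd_one (by norm_num) (show 0 < min κ 1 from lt_min hκ one_pos) (min_le_right _ _)
  obtain ⟨M1, hM1⟩ := exists_nat_ge ((j : ℝ) ^ (1 / θ))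
  refine ⟨M0 + M1, by omega, fun X hX f hf => ?_⟩
  have h1 : |(h : ℝ)| ≤ (X : ℝ) ^ θ := by
    have h2 : (j : ℝ) ^ (1 / θ) ≤ X := hM1.trans (by exact_mod_cast (by omega : M1 ≤ X))
    have h3 : ((j : ℝ) ^ (1 / θ)) ^ θ ≤ (X : ℝ) ^ θ := Real.rpow_le_rpow (by positivity) h2 hθ.le
    rw [← Real.rpow_mul (Nat.cast_nonneg _), one_div, inv_mul_cancel₀ hθ.ne', Real.rpow_one] at h3
    have h4 : |(h : ℝ)| ≤ j := by exact_mod_cast hh
    linarith
  have h2 := H X (by omega) f hf c hc hc0 h h1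
  rw [sum_cast]
  simp only [zero_add] at h2
  exact h2.trans (mul_le_mul_of_nonneg_right (min_le_left _ _) (Nat.cast_nonneg _))

/-- the shift of a function of the number of odd terms -/
def shf (F : ℤ → ℝ) (k : ℤ) : ℤ → ℝ := fun o => F (o + k)

theorem shf_shf (F : ℤ → ℝ) (k l : ℤ) : shf (shf F k) l = shf F (l + k) := by
  funext o; unfold shf; congr 1; ring

theorem fo_mem {F : ℤ → ℝ} {c : ℝ} (hF : ∀ o, |F o| ≤ 1) (hc : |c| ≤ 1) : fo F c ∈ HC := ⟨F, c, hF, hc, rfl⟩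

theorem fo_two (F : ℤ → ℝ) (c : ℝ) (x : ℤ) : fo F c (2 * x) = fo F c x := by
  have := fo_congr (F := F) (c := c) (x := 2 * x) (y := x) 0 (fun o => by rw [sub_zero]; exact OZ_two)
  simpa using this

theorem fo_three (F : ℤ → ℝ) (c : ℝ) {x : ℤ} (hx : x % 2 = 1) (hx1 : x ≠ 1) :
    fo F c (3 * x + 1) = fo (shf F (-1)) c x := by
  have h := fo_congr (F := shf F (-1)) (c := c) (x := x) (y := 3 * x + 1) 1 (fun o => OZ_odd hx hx1 o)
  rw [h]
  congr 1
  funext o
  unfold shf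
  rw [add_neg_cancel_right]

/-- multiplication by three lowers the number of odd terms by one, for most integers -/
theorem dil3O {κ : ℝ} (hκ : 0 < κ) : ∃ X0 : ℕ, ∀ X : ℕ, X0 ≤ X → ∀ (F : ℤ → ℝ) (c : ℝ), (∀ o, |F o| ≤ 1) → |c| ≤ 1 →
    ∑ n ∈ Icc (1 : ℤ) X, |fo F c (3 * n) - fo (shf F (-1)) c n| ≤ κ * X := by
  obtain ⟨X0, hX0, h1⟩ := locO (show 0 < κ / 8 by positivity) 1 3 (by norm_num) (by norm_num) 1 (by simp)
  obtain ⟨X2, hX2⟩ := exists_nat_ge (16 / κ)
  obtain ⟨X1, hX1⟩ := exists_nat_ge (4 * ((X0 + X2 : ℕ) : ℝ) / κ)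
  have key : ∀ X : ℕ, ∀ (F : ℤ → ℝ) (c : ℝ), (∀ o, |F o| ≤ 1) → |c| ≤ 1 →
      ∑ n ∈ Icc (1 : ℤ) X, |fo F c (3 * n) - fo (shf F (-1)) c n| ≤ κ / 2 * X + 2 * ((X0 + X2 : ℕ) : ℝ) := by
    intro X
    induction X using Nat.strong_induction_on with
    | _ X ih =>
      intro F c hF hc
      have hF' : ∀ o, |shf F (-1) o| ≤ 1 := fun o => hF _
      have hb : ∀ n : ℤ, |fo F c (3 * n) - fo (shf F (-1)) c n| ≤ 2 := by
        intro n
        have a1 := abs_le.1 (HC_abs (fo_mem hF hc) (3 * n))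
        have a2 := abs_le.1 (HC_abs (fo_mem hF' hc) n)
        rw [abs_le]; constructor <;> linarith [a1.1, a1.2, a2.1, a2.2]
      rcases Nat.lt_or_ge X (X0 + X2) with hX | hX
      · have h2 : ∑ n ∈ Icc (1 : ℤ) X, |fo F c (3 * n) - fo (shf F (-1)) c n| ≤ 2 * X := by
          refine (sum_le_card_nsmul _ _ _ (fun n _ => hb n)).trans ?_
          rw [Int.card_Icc, nsmul_eq_mul, add_sub_cancel_right, Int.toNat_natCast]
          linarith
        have h3 : (X : ℝ) ≤ ((X0 + X2 : ℕ) : ℝ) := by exact_mod_cast hX.le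
        have h4 : 0 ≤ κ / 2 * X := by positivity
        exact h2.trans (by linarith)
      · have h2 := h1 X (by omega) (fo F c) (HC_same (fo_mem hF hc))
        have h3 := ih (X / 2) (by omega) F c hF hc
        have h4 : ∑ n ∈ Icc (1 : ℤ) X, |fo F c (3 * n) - fo (shf F (-1)) c n|
            ≤ (∑ n ∈ Icc (1 : ℤ) X, |fo F c (3 * n + 1) - fo F c (3 * n)| + 2)
              + ∑ m ∈ Icc (1 : ℤ) ((X / 2 : ℕ) : ℤ), |fo F c (3 * m) - fo (shf F (-1)) c m| := by
          have h5 : ∑ m ∈ Icc (1 : ℤ) ((X / 2 : ℕ) : ℤ), |fo F c (3 * m) - fo (shf F (-1)) c m|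
              = ∑ n ∈ (Icc (1 : ℤ) X).filter (fun n => n % 2 = 0), |fo F c (3 * n) - fo (shf F (-1)) c n| := by
            have e1 : (Icc (1 : ℤ) X).filter (fun n => n % 2 = 0) = (Icc (1 : ℤ) ((X / 2 : ℕ) : ℤ)).image (fun m => 2 * m) := by
              ext n
              rw [mem_filter, mem_Icc, mem_image]
              constructor
              · rintro ⟨⟨a1, a2⟩, a3⟩
                exact ⟨n / 2, by rw [mem_Icc]; omega, by omega⟩
              · rintro ⟨m, hm, rfl⟩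
                rw [mem_Icc] at hm
                omega
            rw [e1, sum_image (by intro a _ b _ hab; simpa using hab)]
            apply sum_congr rfl
            intro m _
            have e2 : (3 : ℤ) * (2 * m) = 2 * (3 * m) := by ring
            rw [e2, fo_two, fo_two]
          rw [h5, ← sum_filter_add_sum_filter_not (Icc (1 : ℤ) X) (fun n : ℤ => n % 2 = 0) (fun n => |fo F c (3 * n) - fo (shf F (-1)) c n|)]
          have h6 : ∑ n ∈ (Icc (1 : ℤ) X).filter (fun n => ¬ n % 2 = 0), |fo F c (3 * n) - fo (shf F (-1)) c n|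
              ≤ ∑ n ∈ Icc (1 : ℤ) X, |fo F c (3 * n + 1) - fo F c (3 * n)| + 2 := by
            have e3 : ∀ n ∈ (Icc (1 : ℤ) X).filter (fun n => ¬ n % 2 = 0), |fo F c (3 * n) - fo (shf F (-1)) c n|
                ≤ |fo F c (3 * n + 1) - fo F c (3 * n)| + (if n = 1 then 2 else 0) := by
              intro n hn
              rw [mem_filter, mem_Icc] at hn
              by_cases h1 : n = 1
              · rw [if_pos h1]
                have := hb n
                have h2 := abs_nonneg (fo F c (3 * n + 1) - fo F c (3 * n))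
                linarith
              · rw [if_neg h1, ← fo_three F c (by omega) h1, abs_sub_comm, add_zero]
            refine (sum_le_sum e3).trans ?_
            rw [sum_add_distrib]
            apply add_le_add
            · exact sum_le_sum_of_subset_of_nonneg (filter_subset _ _) fun _ _ _ => abs_nonneg _
            · rw [sum_ite_eq']
              split_ifs <;> norm_num
          linarith
        have h5 : ((X / 2 : ℕ) : ℝ) ≤ X / 2 := by
          have := @Nat.cast_div_le ℝ _ _ _ X 2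
          exact_mod_cast this
        have h6 : κ / 2 * ((X / 2 : ℕ) : ℝ) ≤ κ / 2 * (X / 2) := mul_le_mul_of_nonneg_left h5 (by positivity)
        have h7 : (2 : ℝ) ≤ κ / 8 * X := by
          have h8 : 16 / κ ≤ X := hX2.trans (by exact_mod_cast (by omega : X2 ≤ X))
          rw [div_le_iff₀ hκ] at h8
          linarith
        linarith
  refine ⟨X1, fun X hX F c hF hc => (key X F c hF hc).trans ?_⟩
  have h2 : 4 * ((X0 + X2 : ℕ) : ℝ) / κ ≤ X := hX1.trans (by exact_mod_cast hX)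
  rw [div_le_iff₀ hκ] at h2
  linarith

/-- multiplication by a power of three -/
theorem dilpO (m : ℕ) : ∀ {κ : ℝ}, 0 < κ → ∃ X0 : ℕ, ∀ X : ℕ, X0 ≤ X → ∀ (F : ℤ → ℝ) (c : ℝ), (∀ o, |F o| ≤ 1) → |c| ≤ 1 →
    ∑ n ∈ Icc (1 : ℤ) X, |fo F c (3 ^ m * n) - fo (shf F (-m)) c n| ≤ κ * X := by
  induction m with
  | zero =>
    intro κ hκ
    refine ⟨0, fun X _ F c _ _ => ?_⟩
    have e : shf F (-((0 : ℕ) : ℤ)) = F := by funext o; unfold shf; simp
    rw [e]
    simp only [pow_zero, one_mul, sub_self, abs_zero, sum_const_zero]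
    positivity
  | succ m ih =>
    intro κ hκ
    obtain ⟨X1, h1⟩ := ih (show 0 < κ / 6 by positivity)
    obtain ⟨X2, h2⟩ := dil3O (show 0 < κ / 2 by positivity)
    refine ⟨X1 + X2, fun X hX F c hF hc => ?_⟩
    have hF' : ∀ k o, |shf F k o| ≤ 1 := fun k o => hF _
    have h3 := h1 (3 * X) (by omega) F c hF hc
    have h4 := h2 X (by omega) (shf F (-m)) c (hF' _) hc
    have e1 : shf (shf F (-m)) (-1) = shf F (-((m + 1 : ℕ) : ℤ)) := by
      rw [shf_shf]; congr 1; push_cast; ring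
    rw [e1] at h4
    have h5 : ∑ n ∈ Icc (1 : ℤ) X, |fo F c (3 ^ m * (3 * n)) - fo (shf F (-m)) c (3 * n)|
        ≤ ∑ n ∈ Icc (1 : ℤ) ((3 * X : ℕ) : ℤ), |fo F c (3 ^ m * n) - fo (shf F (-m)) c n| :=
      Pool.Agent.W36.JL.sum_inj (F := fun n => |fo F c (3 ^ m * n) - fo (shf F (-m)) c n|) (u := fun n => 3 * n)
        (fun _ => abs_nonneg _) (fun a b h => by simp only at h; omega) (fun n a1 a2 => by push_cast; constructor <;> omega)
    have h6 : ∑ n ∈ Icc (1 : ℤ) X, |fo F c (3 ^ (m + 1) * n) - fo (shf F (-((m + 1 : ℕ) : ℤ))) c n|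
        ≤ ∑ n ∈ Icc (1 : ℤ) X, |fo F c (3 ^ m * (3 * n)) - fo (shf F (-m)) c (3 * n)|
          + ∑ n ∈ Icc (1 : ℤ) X, |fo (shf F (-m)) c (3 * n) - fo (shf F (-((m + 1 : ℕ) : ℤ))) c n| := by
      rw [← sum_add_distrib]
      apply sum_le_sum
      intro n _
      have e : (3 : ℤ) ^ (m + 1) * n = 3 ^ m * (3 * n) := by ring
      rw [e]
      exact abs_sub_le _ _ _
    have h7 : κ / 6 * ((3 * X : ℕ) : ℝ) = κ / 2 * X := by push_cast; ring
    rw [h7] at h3
    linarith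

end Pool.Agent.K3h45.HJ
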