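import Pool.Agent.K3h45.HJ.H5
import Pool.Agent.H499R2.HL.B

/-! The number of odd terms before the first visit of `1` and the thresholds of the normal law. -/

set_option autoImplicit false

namespace Pool.Agent.K3h45.HJ

open Finset Filter Topology Pool.Agent.H320R2.PD
open Pool.Agent.H499R2.ND (Tn Dn cnt cnt_eq cnt_mono cnt_or cnt_small cnt_le Td Phi Phi_mono Phi_continuous Bas)
open Pool.Agent.H499R2.CO (Tz)
open Pool.Agent.H499R2.LT (Td_nat odn od od_nat od_add law_one Dn_sum Dn_iff)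
open Pool.Agent.H499R2.HL (H H_unique law_k law_o)
open Pool.Agent.W36.JL (lpos)

/-- `o` is the number of odd terms of the trajectory of `n` before the first visit of `1` -/
def OT (n o : ℕ) : Prop := ∃ k : ℕ, H k n ∧ odn k n = o

theorem Hz_nat (k n : ℕ) : Hz k (n : ℤ) ↔ H k n := by
  unfold Hz H
  rw [Td_nat]
  refine and_congr (by exact_mod_cast Iff.rfl) (forall_congr' fun i => ?_)
  rw [Td_nat]
  exact imp_congr_right fun _ => by exact_mod_cast Iff.rfl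

theorem OZ_nat (n : ℕ) (o : ℤ) : OZ (n : ℤ) o ↔ ∃ o' : ℕ, o = o' ∧ OT n o' := by
  unfold OZ OT
  constructor
  · rintro ⟨k, h1, h2⟩
    rw [od_nat] at h2
    exact ⟨odn k n, h2.symm, k, (Hz_nat k n).1 h1, rfl⟩
  · rintro ⟨o', rfl, k, h1, h2⟩
    exact ⟨k, (Hz_nat k n).2 h1, by rw [od_nat, h2]⟩

theorem OT_unique {n o o' : ℕ} (h : OT n o) (h' : OT n o') : o = o' := by
  obtain ⟨k, h1, h2⟩ := h
  obtain ⟨k', h3, h4⟩ := h'
  obtain rfl := H_unique h1 h3
  exact h2.symm.trans h4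

theorem OZ_neg {x : ℤ} (hx : x ≤ 0) (o : ℤ) : ¬ OZ x o := by
  have h : ∀ k : ℕ, ∀ x : ℤ, x ≤ 0 → (Td 1)^[k] x ≤ 0 := by
    intro k
    induction k with
    | zero => intro x hx; exact hx
    | succ k ih =>
      intro x hx
      rw [Function.iterate_succ_apply]
      apply ih
      unfold Td
      split_ifs <;> omega
  rintro ⟨k, h1, -⟩
  have := h k x hx
  rw [h1.1] at this
  omega

/-- the number of odd terms is at most `B` and congruent to `a` -/
def EB (m : ℕ) (a : ℤ) (B : ℝ) (n : ℕ) : Prop := ∃ t : ℕ, (t : ℝ) ≤ B ∧ OT n t ∧ (t : ℤ) ≡ a [ZMOD m]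

theorem EB_mono {m : ℕ} {a : ℤ} {B B' : ℝ} {n : ℕ} (h : B ≤ B') : EB m a B n → EB m a B' n := by
  rintro ⟨t, h1, h2⟩
  exact ⟨t, h1.trans h, h2⟩

theorem EB_sand {m : ℕ} {a : ℤ} {B1 B2 L U : ℝ} {n : ℕ} (h1 : L ≤ B1) (h2 : B1 ≤ U) (h3 : L ≤ B2) (h4 : B2 ≤ U)
    (h : ¬ (EB m a B1 n ↔ EB m a B2 n)) : EB m a U n ∧ ¬ EB m a L n := by
  by_cases h5 : EB m a B1 n
  · have h6 : ¬ EB m a B2 n := fun h6 => h ⟨fun _ => h6, fun _ => h5⟩
    exact ⟨EB_mono h2 h5, fun h7 => h6 (EB_mono h3 h7)⟩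
  · have h6 : EB m a B2 n := by
      by_contra h6
      exact h ⟨fun h7 => absurd h7 h5, fun h7 => absurd h7 h6⟩
    exact ⟨EB_mono h4 h6, fun h7 => h5 (EB_mono h1 h7)⟩

theorem EB_coal {m : ℕ} {a : ℤ} {B : ℝ} {j : ℕ} {x y : ℤ} (hx : 2 ^ j < x) (hy : 2 ^ j < y) (h : (Tz 1)^[j] x = (Tz 1)^[j] y)
    (ho : od 1 j x = od 1 j y) : EB m a B x.toNat ↔ EB m a B y.toNat := by
  have h2j : (0 : ℤ) < 2 ^ j := by positivity
  have key : ∀ t : ℕ, OT x.toNat t ↔ OT y.toNat t := by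
    intro t
    have e : ∀ z : ℤ, 0 < z → (OT z.toNat t ↔ OZ z t) := by
      intro z hz
      have h1 := OZ_nat z.toNat t
      rw [Int.toNat_of_nonneg hz.le] at h1
      rw [h1]
      constructor
      · intro h2; exact ⟨t, rfl, h2⟩
      · rintro ⟨o, h2, h3⟩
        have : t = o := by exact_mod_cast h2
        rw [this]; exact h3
    rw [e x (h2j.trans hx), e y (h2j.trans hy)]
    exact OZ_coal hx hy h ho t
  unfold EB
  simp only [key]

open Classical in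
/-- the balanced indicator function of a threshold -/
noncomputable def gB (m : ℕ) (a : ℤ) (c B : ℝ) (x : ℤ) : ℝ := (if 0 < x ∧ EB m a B x.toNat then 1 else 0) - c

open Classical in
/-- the profile of the balanced indicator function of a threshold -/
noncomputable def pB (m : ℕ) (a : ℤ) (c B : ℝ) (o : ℤ) : ℝ := (if (o : ℝ) ≤ B ∧ o ≡ a [ZMOD m] then 1 else 0) - c

theorem pB_abs (m : ℕ) (a : ℤ) {c : ℝ} (h0 : 0 ≤ c) (h1 : c ≤ 1) (B : ℝ) (o : ℤ) : |pB m a c B o| ≤ 1 := by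
  unfold pB
  rw [abs_le]
  split_ifs <;> constructor <;> linarith

theorem gB_fo (m : ℕ) (a : ℤ) (c B : ℝ) : gB m a c B = fo (pB m a c B) (-c) := by
  funext x
  rcases le_or_gt x 0 with hx | hx
  · have h1 : ¬ ∃ o, OZ x o := fun ⟨o, ho⟩ => OZ_neg hx o ho
    rw [fo_neg h1]
    unfold gB
    rw [if_neg (fun h => absurd h.1 (by omega))]
    ring
  · obtain ⟨n, rfl⟩ := Int.eq_ofNat_of_zero_le hx.le
    by_cases h1 : ∃ o, OZ (n : ℤ) o
    · obtain ⟨o, ho⟩ := h1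
      rw [fo_pos ho]
      obtain ⟨o', rfl, h2⟩ := (OZ_nat n o).1 ho
      unfold gB pB
      congr 2
      rw [Int.toNat_natCast]
      apply propext
      constructor
      · rintro ⟨-, t, h3, h4, h5⟩
        obtain rfl := OT_unique h2 h4
        exact ⟨by exact_mod_cast h3, h5⟩
      · rintro ⟨h3, h4⟩
        exact ⟨hx, o', by exact_mod_cast h3, h2, h4⟩
    · rw [fo_neg h1]
      unfold gB
      rw [if_neg]
      · ring
      · rintro ⟨-, t, -, h4, -⟩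
        rw [Int.toNat_natCast] at h4
        exact h1 ⟨t, (OZ_nat n t).2 ⟨t, rfl, h4⟩⟩

theorem gB_hc (m : ℕ) (a : ℤ) {c : ℝ} (h0 : 0 ≤ c) (h1 : c ≤ 1) (B : ℝ) : gB m a c B ∈ HC := by
  rw [gB_fo]
  refine fo_mem (pB_abs m a h0 h1 B) ?_
  rw [abs_neg, abs_of_nonneg h0]
  exact h1

/-- the profile under the shift by the modulus -/
theorem pB_shift (m : ℕ) (a : ℤ) (c B : ℝ) : shf (pB m a c B) (-m) = pB m a c (B + m) := by
  funext o
  unfold shf pB
  congr 2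
  apply propext
  have h1 : (((o + -(m : ℤ) : ℤ) : ℝ) ≤ B) ↔ ((o : ℝ) ≤ B + m) := by
    push_cast
    constructor <;> intro h <;> linarith
  have h2 : (o + -(m : ℤ) ≡ a [ZMOD m]) ↔ (o ≡ a [ZMOD m]) := by
    have h : o + -(m : ℤ) ≡ o [ZMOD m] := by
      unfold Int.ModEq
      rw [← sub_eq_add_neg, Int.sub_emod_right]
    exact ⟨fun h3 => h.symm.trans h3, fun h3 => h.trans h3⟩
  rw [h1, h2]

/-- the threshold of the normal law -/
noncomputable def bd (x : ℝ) (n : ℕ) : ℝ :=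
  1 / Real.log (4 / 3) * Real.log n + x * (Real.log 2 * Real.sqrt (2 * Real.log n / Real.log (4 / 3) ^ 3))

/-- the standard deviation -/
noncomputable def sdv (n : ℕ) : ℝ := Real.log 2 * Real.sqrt (2 * Real.log n / Real.log (4 / 3) ^ 3)

theorem bd_eq (x : ℝ) (n : ℕ) : bd x n = 1 / Real.log (4 / 3) * Real.log n + x * sdv n := rfl

theorem sdv_eq (n : ℕ) : sdv n = Real.log 2 * Real.sqrt (2 / Real.log (4 / 3) ^ 3) * Real.sqrt (Real.log n) := by
  unfold sdv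
  have e : 2 * Real.log n / Real.log (4 / 3) ^ 3 = 2 / Real.log (4 / 3) ^ 3 * Real.log n := by ring
  have := lpos
  rw [e, Real.sqrt_mul (by positivity), mul_assoc]

theorem gpos : 0 < Real.log 2 * Real.sqrt (2 / Real.log (4 / 3) ^ 3) := by
  have := lpos
  have : 0 < Real.log 2 := Real.log_pos (by norm_num)
  positivity

/-- the thresholds at comparable points -/
theorem bd_near (x : ℝ) {η : ℝ} (hη : 0 < η) (C D : ℝ) : ∃ N0 : ℕ, 1 ≤ N0 ∧ ∀ n N : ℕ, N0 ≤ n → N0 ≤ N →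
    |Real.log N - Real.log n| ≤ D → bd (x - η) n + C ≤ bd x N ∧ bd x N + C ≤ bd (x + η) n := by
  obtain ⟨γ, hγ⟩ : ∃ γ : ℝ, γ = Real.log 2 * Real.sqrt (2 / Real.log (4 / 3) ^ 3) := ⟨_, rfl⟩
  have hγ0 : 0 < γ := by rw [hγ]; exact gpos
  obtain ⟨α, hα⟩ : ∃ α : ℝ, α = 1 / Real.log (4 / 3) := ⟨_, rfl⟩
  have hα0 : 0 < α := by rw [hα]; have := lpos; positivity
  obtain ⟨N1, hN1⟩ := exists_nat_ge (Real.exp (((|C| + α * |D| + |x| * γ * Real.sqrt |D|) / (η * γ)) ^ 2))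
  refine ⟨N1 + 1, by omega, fun n N hn hN hD => ?_⟩
  have hn1 : (1 : ℝ) ≤ n := by exact_mod_cast (by omega : 1 ≤ n)
  have hN1' : (1 : ℝ) ≤ N := by exact_mod_cast (by omega : 1 ≤ N)
  have hln : 0 ≤ Real.log n := Real.log_nonneg hn1
  have hlN : 0 ≤ Real.log N := Real.log_nonneg hN1'
  have hD0 : 0 ≤ D := (abs_nonneg _).trans hD
  rw [abs_of_nonneg hD0] at hN1
  have h1 : (|C| + α * D + |x| * γ * Real.sqrt D) / (η * γ) ≤ Real.sqrt (Real.log n) := by
    apply Real.le_sqrt_of_sq_le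
    rw [← Real.log_exp (((|C| + α * D + |x| * γ * Real.sqrt D) / (η * γ)) ^ 2)]
    apply Real.log_le_log (Real.exp_pos _)
    exact hN1.trans (by exact_mod_cast (by omega : N1 ≤ n))
  rw [div_le_iff₀ (by positivity)] at h1
  -- square roots
  have h2 : |Real.sqrt (Real.log N) - Real.sqrt (Real.log n)| ≤ Real.sqrt D := by
    have key : ∀ u v : ℝ, 0 ≤ u → 0 ≤ v → u - v ≤ D → Real.sqrt u - Real.sqrt v ≤ Real.sqrt D := by
      intro u v hu hv huv
      have h3 : Real.sqrt u ≤ Real.sqrt (v + D) := Real.sqrt_le_sqrt (by linarith)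
      have h4 : Real.sqrt (v + D) ≤ Real.sqrt v + Real.sqrt D := by
        rw [Real.sqrt_le_left (by positivity)]
        have e1 := Real.sq_sqrt hv
        have e2 := Real.sq_sqrt hD0
        have e3 : 0 ≤ Real.sqrt v * Real.sqrt D := by positivity
        have e4 : (Real.sqrt v + Real.sqrt D) ^ 2 = Real.sqrt v ^ 2 + Real.sqrt D ^ 2 + 2 * (Real.sqrt v * Real.sqrt D) := by ring
        rw [e4, e1, e2]
        linarith
      linarith
    rw [abs_le]
    have h5 := abs_le.1 hD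
    constructor
    · have := key _ _ hln hlN (by linarith [h5.1]); linarith
    · exact key _ _ hlN hln h5.2
  rw [bd_eq, bd_eq, bd_eq, sdv_eq, sdv_eq, ← hγ, ← hα]
  obtain ⟨u, hu⟩ : ∃ u, u = Real.sqrt (Real.log N) := ⟨_, rfl⟩
  obtain ⟨v, hv⟩ : ∃ v, v = Real.sqrt (Real.log n) := ⟨_, rfl⟩
  rw [← hu, ← hv] at h2
  rw [← hu, ← hv]
  rw [← hv] at h1
  have h3 : |α * (Real.log N - Real.log n)| ≤ α * D := by
    rw [abs_mul, abs_of_pos hα0]
    exact mul_le_mul_of_nonneg_left hD hα0.le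
  have h4 : |x * γ * (u - v)| ≤ |x| * γ * Real.sqrt D := by
    rw [abs_mul, abs_mul, abs_of_pos hγ0]
    exact mul_le_mul_of_nonneg_left h2 (by positivity)
  have h5 := abs_le.1 h3
  have h6 := abs_le.1 h4
  have h7 := le_abs_self C
  constructor
  · have e : bd (x - η) n = bd (x - η) n := rfl
    have : α * Real.log N + x * (γ * u) - (α * Real.log n + (x - η) * (γ * v))
        = α * (Real.log N - Real.log n) + x * γ * (u - v) + v * (η * γ) := by ring
    linarith [h5.1, h6.1]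
  · have : α * Real.log n + (x + η) * (γ * v) - (α * Real.log N + x * (γ * u))
        = -(α * (Real.log N - Real.log n)) - x * γ * (u - v) + v * (η * γ) := by ring
    linarith [h5.2, h6.2]

/-- the one dimensional law -/
theorem lawE : ∃ δ : ℝ, 0 < δ ∧ δ ≤ 1 ∧ (δ = 1 ↔ ∀ n : ℕ, 1 ≤ n → ∃ k : ℕ, Tn^[k] n = 1) ∧
    Dn (fun n => ∃ k : ℕ, Tn^[k] n = 1) δ ∧
    ∀ (m : ℕ) (a : ℤ), 1 ≤ m → ∀ x : ℝ, Dn (fun n => EB m a (bd x n) n) (δ * Phi x / m) := by
  obtain ⟨δ, h0, h1, h2, h3, h4⟩ := law_k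
  refine ⟨δ, h0, h1, h2, h3, fun m a hm x => ?_⟩
  have h5 := law_o (h4 m a hm).2 x
  rw [show δ / m * Phi x = δ * Phi x / m by ring] at h5
  refine Dn_iff (fun n _ => ?_) h5
  unfold EB OT
  constructor
  · rintro ⟨k, h6, h7, h8⟩
    exact ⟨odn k n, h6, ⟨k, h7, rfl⟩, h8⟩
  · rintro ⟨t, h6, ⟨k, h7, rfl⟩, h8⟩
    exact ⟨k, h6, h7, h8⟩

end Pool.Agent.K3h45.HJ
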