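import Pool.Agent.K3h45.HJ.H6
import Pool.Agent.W36.JL.J7

/-! The level sets of the normalized number of odd terms. -/

set_option autoImplicit false

namespace Pool.Agent.K3h45.HJ

open Finset Filter Topology Pool.Agent.H320R2.PD
open Pool.Agent.H499R2.ND (Tn Dn cnt cnt_eq cnt_mono cnt_or cnt_small cnt_le Td Phi Phi_mono Phi_continuous Bas)
open Pool.Agent.H499R2.CO (Tz)
open Pool.Agent.W41 (ind)
open Pool.Agent.W41.FU (bal EE ee abel ee_diff ee_norm EE_triv EE_abs EE_res res)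
open Pool.Agent.W36.GU (sum_cast Hyp Dil win psi psi_int)
open Pool.Agent.W36.JL (cnt_diff ite_sub_le sum_inj)

theorem sdv_nonneg (n : ℕ) : 0 ≤ sdv n := by
  rw [sdv_eq]
  exact mul_nonneg gpos.le (Real.sqrt_nonneg _)

theorem bd_mono {x y : ℝ} (h : x ≤ y) (n : ℕ) : bd x n ≤ bd y n := by
  rw [bd_eq, bd_eq]
  have := mul_le_mul_of_nonneg_right h (sdv_nonneg n)
  linarith

/-- few points have a total stopping time near the threshold -/
theorem stab {m : ℕ} {a : ℤ} {δ : ℝ} (hlaw : ∀ x : ℝ, Dn (fun n => EB m a (bd x n) n) (δ * Phi x / m)) (x : ℝ) {κ : ℝ}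
    (hκ : 0 < κ) : ∃ η : ℝ, 0 < η ∧ ∃ N0 : ℕ, ∀ N : ℕ, N0 ≤ N →
      cnt (fun n => EB m a (bd (x + η) n) n ∧ ¬ EB m a (bd (x - η) n) n) N ≤ κ * N := by
  have hc : Continuous (fun y => δ * Phi y / m) := (continuous_const.mul Phi_continuous).div_const _
  obtain ⟨η', hη', h1⟩ := Metric.continuous_iff.1 hc x (κ / 4) (by positivity)
  obtain ⟨η, rfl⟩ : ∃ η, η' = 2 * η := ⟨η' / 2, by ring⟩
  have hη : 0 < η := by linarith
  have h2 := h1 (x + η) (by rw [Real.dist_eq, add_sub_cancel_left, abs_of_pos hη]; linarith)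
  have h3 := h1 (x - η) (by rw [Real.dist_eq, show x - η - x = -η by ring, abs_neg, abs_of_pos hη]; linarith)
  rw [Real.dist_eq] at h2 h3
  have h2' := abs_lt.1 h2
  have h3' := abs_lt.1 h3
  have h4 := (hlaw (x + η)).eventually (gt_mem_nhds (show δ * Phi (x + η) / m < δ * Phi (x + η) / m + κ / 4 by linarith))
  have h5 := (hlaw (x - η)).eventually (lt_mem_nhds (show δ * Phi (x - η) / m - κ / 4 < δ * Phi (x - η) / m by linarith))
  obtain ⟨N0, hN0⟩ := eventually_atTop.1 (h4.and h5)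
  refine ⟨η, hη, N0 + 1, fun N hN => ?_⟩
  obtain ⟨h6, h7⟩ := hN0 N (by omega)
  have hN : (0 : ℝ) < N := by exact_mod_cast (by omega : 0 < N)
  rw [cnt_diff (fun n _ => EB_mono (bd_mono (by linarith) n))]
  rw [div_lt_iff₀ hN] at h6
  rw [lt_div_iff₀ hN] at h7
  have h8 : (δ * Phi (x + η) / m + κ / 4) - (δ * Phi (x - η) / m - κ / 4) ≤ κ := by linarith [h2'.2, h3'.1]
  have h9 := mul_le_mul_of_nonneg_right h8 hN.le
  linarith

/-- the integers whose total stopping time is below the threshold and congruent to `a` -/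
def SX (m : ℕ) (a : ℤ) (x : ℝ) : Set ℤ := {n | 0 < n ∧ EB m a (bd x n.toNat) n.toNat}

open Classical in
theorem bal_nat (m : ℕ) (a : ℤ) (x c : ℝ) {n : ℕ} (hn : 1 ≤ n) :
    bal 1 (SX m a x) c (n : ℕ) = (if EB m a (bd x n) n then 1 else 0) - c := by
  unfold bal ind SX
  have h : (0 : ℤ) < n := by exact_mod_cast hn
  simp only [one_mul, Set.mem_ofPred_eq, h, true_and, Int.toNat_natCast]

open Classical in
theorem gB_nat (m : ℕ) (a : ℤ) (c B : ℝ) {n : ℕ} (hn : 1 ≤ n) :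
    gB m a c B (n : ℕ) = (if EB m a B n then 1 else 0) - c := by
  unfold gB
  have h : (0 : ℤ) < n := by exact_mod_cast hn
  simp only [h, true_and, Int.toNat_natCast]

/-- comparison with a fixed threshold -/
theorem cmpB {m : ℕ} {a : ℤ} {δ : ℝ} (hlaw : ∀ x : ℝ, Dn (fun n => EB m a (bd x n) n) (δ * Phi x / m)) (x c : ℝ) {κ : ℝ}
    (hκ : 0 < κ) : ∃ N0 : ℕ, ∀ N : ℕ, N0 ≤ N →
      ∑ n ∈ Icc (1 : ℤ) N, |bal 1 (SX m a x) c n - gB m a c (bd x N) n| ≤ κ * N := by
  classical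
  obtain ⟨η, hη, N1, h1⟩ := stab hlaw x (show 0 < κ / 4 by positivity)
  obtain ⟨κ', hκ'⟩ : ∃ κ', κ' = min (κ / 4) 1 := ⟨_, rfl⟩
  have hκ0 : 0 < κ' := by rw [hκ']; exact lt_min (by positivity) one_pos
  have hκ1 : κ' ≤ 1 := by rw [hκ']; exact min_le_right _ _
  have hκ2 : κ' ≤ κ / 4 := by rw [hκ']; exact min_le_left _ _
  obtain ⟨N2, hN2, h2⟩ := bd_near x hη 0 (-Real.log κ')
  obtain ⟨N3, hN3⟩ := exists_nat_ge (4 * N2 / κ)
  refine ⟨N1 + N2 + N3, fun N hN => ?_⟩
  have hNp : (0 : ℝ) < N := by exact_mod_cast (by omega : 0 < N)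
  rw [sum_cast]
  have key : ∀ n ∈ Icc 1 N, |bal 1 (SX m a x) c (n : ℕ) - gB m a c (bd x N) (n : ℕ)|
      ≤ (if (n : ℝ) ≤ κ' * N + N2 then 1 else 0)
        + (if (EB m a (bd (x + η) n) n ∧ ¬ EB m a (bd (x - η) n) n) then 1 else 0) := by
    intro n hn
    rw [mem_Icc] at hn
    rw [bal_nat m a x c hn.1, gB_nat m a c _ hn.1]
    by_cases h3 : (n : ℝ) ≤ κ' * N + N2
    · rw [if_pos h3]
      have h4 : |((if EB m a (bd x n) n then (1 : ℝ) else 0) - c) - ((if EB m a (bd x N) n then 1 else 0) - c)| ≤ 1 := by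
        have := ite_sub_le (P := EB m a (bd x n) n) (Q := EB m a (bd x N) n) (R := True) (fun _ => trivial) c
        simpa using this
      have h5 : (0 : ℝ) ≤ (if (EB m a (bd (x + η) n) n ∧ ¬ EB m a (bd (x - η) n) n) then 1 else 0) := by
        split_ifs <;> norm_num
      linarith
    · rw [if_neg h3, zero_add]
      push Not at h3
      have hn2 : N2 ≤ n := by
        have h4 : (N2 : ℝ) ≤ n := by
          have : 0 ≤ κ' * N := by positivity
          linarith
        exact_mod_cast h4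
      have hnp : (0 : ℝ) < n := by exact_mod_cast hn.1
      have h4 : |Real.log N - Real.log n| ≤ -Real.log κ' := by
        have h5 : Real.log n ≤ Real.log N := Real.log_le_log hnp (by exact_mod_cast hn.2)
        rw [abs_of_nonneg (by linarith)]
        have h6 : Real.log (κ' * N) ≤ Real.log n := by
          apply Real.log_le_log (by positivity)
          have : (0 : ℝ) ≤ N2 := Nat.cast_nonneg _
          linarith
        rw [Real.log_mul hκ0.ne' hNp.ne'] at h6
        linarith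
      have h5 := h2 n N hn2 (by omega) h4
      rw [add_zero, add_zero] at h5
      exact ite_sub_le (fun h => EB_sand (bd_mono (by linarith) n) (bd_mono (by linarith) n) h5.1 h5.2 h) c
  refine (sum_le_sum key).trans ?_
  rw [sum_add_distrib]
  have e1 : ∑ n ∈ Icc 1 N, (if (n : ℝ) ≤ κ' * N + N2 then (1 : ℝ) else 0) = cnt (fun n => (n : ℝ) ≤ κ' * N + N2) N := by
    rw [cnt_eq, Finset.sum_boole]
  have e2 : ∑ n ∈ Icc 1 N, (if (EB m a (bd (x + η) n) n ∧ ¬ EB m a (bd (x - η) n) n) then (1 : ℝ) else 0)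
      = cnt (fun n => EB m a (bd (x + η) n) n ∧ ¬ EB m a (bd (x - η) n) n) N := by
    rw [cnt_eq, Finset.sum_boole]
  rw [e1, e2]
  have h6 := cnt_small (show 0 ≤ κ' * N + N2 by positivity) N
  have h7 := h1 N (by omega)
  have h8 : 4 * (N2 : ℝ) / κ ≤ N := hN3.trans (by exact_mod_cast (by omega : N3 ≤ N))
  rw [div_le_iff₀ hκ] at h8
  have h9 : κ' * N ≤ κ / 4 * N := mul_le_mul_of_nonneg_right hκ2 hNp.le
  linarith

/-- comparison with a fixed threshold, at comparable points -/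
theorem cmpC {m : ℕ} {a : ℤ} {δ : ℝ} (hlaw : ∀ x : ℝ, Dn (fun n => EB m a (bd x n) n) (δ * Phi x / m)) (x c : ℝ) {κ : ℝ}
    (hκ : 0 < κ) (K C : ℕ) (hK : 1 ≤ K) : ∃ N0 : ℕ, ∀ N : ℕ, N0 ≤ N →
      ∑ n ∈ Icc (1 : ℤ) N, |bal 1 (SX m a x) c n - gB m a c (bd x (K * N) + C) n| ≤ κ * N := by
  classical
  obtain ⟨η, hη, N1, h1⟩ := stab hlaw x (show 0 < κ / 4 by positivity)
  obtain ⟨κ', hκ'⟩ : ∃ κ', κ' = min (κ / 4) 1 := ⟨_, rfl⟩
  have hκ0 : 0 < κ' := by rw [hκ']; exact lt_min (by positivity) one_pos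
  have hκ1 : κ' ≤ 1 := by rw [hκ']; exact min_le_right _ _
  have hκ2 : κ' ≤ κ / 4 := by rw [hκ']; exact min_le_left _ _
  obtain ⟨N2, hN2, h2⟩ := bd_near x hη C (Real.log K - Real.log κ')
  obtain ⟨N3, hN3⟩ := exists_nat_ge (4 * N2 / κ)
  refine ⟨N1 + N2 + N3, fun N hN => ?_⟩
  have hNp : (0 : ℝ) < N := by exact_mod_cast (by omega : 0 < N)
  have hKp : (0 : ℝ) < K := by exact_mod_cast hK
  rw [sum_cast]
  have key : ∀ n ∈ Icc 1 N, |bal 1 (SX m a x) c (n : ℕ) - gB m a c (bd x (K * N) + C) (n : ℕ)|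
      ≤ (if (n : ℝ) ≤ κ' * N + N2 then 1 else 0)
        + (if (EB m a (bd (x + η) n) n ∧ ¬ EB m a (bd (x - η) n) n) then 1 else 0) := by
    intro n hn
    rw [mem_Icc] at hn
    rw [bal_nat m a x c hn.1, gB_nat m a c _ hn.1]
    by_cases h3 : (n : ℝ) ≤ κ' * N + N2
    · rw [if_pos h3]
      have h4 : |((if EB m a (bd x n) n then (1 : ℝ) else 0) - c) - ((if EB m a (bd x (K * N) + C) n then 1 else 0) - c)| ≤ 1 := by
        have := ite_sub_le (P := EB m a (bd x n) n) (Q := EB m a (bd x (K * N) + C) n) (R := True) (fun _ => trivial) c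
        simpa using this
      have h5 : (0 : ℝ) ≤ (if (EB m a (bd (x + η) n) n ∧ ¬ EB m a (bd (x - η) n) n) then 1 else 0) := by
        split_ifs <;> norm_num
      linarith
    · rw [if_neg h3, zero_add]
      push Not at h3
      have hn2 : N2 ≤ n := by
        have h4 : (N2 : ℝ) ≤ n := by
          have : 0 ≤ κ' * N := by positivity
          linarith
        exact_mod_cast h4
      have hnp : (0 : ℝ) < n := by exact_mod_cast hn.1
      have h4 : |Real.log ((K * N : ℕ) : ℝ) - Real.log n| ≤ Real.log K - Real.log κ' := by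
        have h5 : Real.log n ≤ Real.log N := Real.log_le_log hnp (by exact_mod_cast hn.2)
        have h7 : 0 ≤ Real.log K := Real.log_nonneg (by exact_mod_cast hK)
        push_cast
        rw [Real.log_mul hKp.ne' hNp.ne', abs_of_nonneg (by linarith)]
        have h6 : Real.log (κ' * N) ≤ Real.log n := by
          apply Real.log_le_log (by positivity)
          have : (0 : ℝ) ≤ N2 := Nat.cast_nonneg _
          linarith
        rw [Real.log_mul hκ0.ne' hNp.ne'] at h6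
        linarith
      have h5 := h2 n (K * N) hn2 (by nlinarith) h4
      have hC0 : (0 : ℝ) ≤ C := Nat.cast_nonneg _
      exact ite_sub_le (fun h => EB_sand (bd_mono (by linarith) n) (bd_mono (by linarith) n) (by linarith [h5.1]) h5.2 h) c
  refine (sum_le_sum key).trans ?_
  rw [sum_add_distrib]
  have e1 : ∑ n ∈ Icc 1 N, (if (n : ℝ) ≤ κ' * N + N2 then (1 : ℝ) else 0) = cnt (fun n => (n : ℝ) ≤ κ' * N + N2) N := by
    rw [cnt_eq, Finset.sum_boole]
  have e2 : ∑ n ∈ Icc 1 N, (if (EB m a (bd (x + η) n) n ∧ ¬ EB m a (bd (x - η) n) n) then (1 : ℝ) else 0)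
      = cnt (fun n => EB m a (bd (x + η) n) n ∧ ¬ EB m a (bd (x - η) n) n) N := by
    rw [cnt_eq, Finset.sum_boole]
  rw [e1, e2]
  have h6 := cnt_small (show 0 ≤ κ' * N + N2 by positivity) N
  have h7 := h1 N (by omega)
  have h8 : 4 * (N2 : ℝ) / κ ≤ N := hN3.trans (by exact_mod_cast (by omega : N3 ≤ N))
  rw [div_le_iff₀ hκ] at h8
  have h9 : κ' * N ≤ κ / 4 * N := mul_le_mul_of_nonneg_right hκ2 hNp.le
  linarith

end Pool.Agent.K3h45.HJ
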