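import Pool.Agent.K3h45.HJ.H7

/-! Local constancy and dilations of the level sets. -/

set_option autoImplicit false

namespace Pool.Agent.K3h45.HJ

open Finset Filter Topology Pool.Agent.H320R2.PD
open Pool.Agent.H499R2.ND (Tn Dn cnt cnt_eq cnt_mono cnt_or cnt_small cnt_le Td Phi Phi_mono Phi_continuous Bas)
open Pool.Agent.H499R2.CO (Tz)
open Pool.Agent.W41 (ind)
open Pool.Agent.W41.FU (bal EE ee abel ee_diff ee_norm EE_triv EE_abs EE_res res)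
open Pool.Agent.W36.GU (sum_cast Hyp Dil win psi psi_int)
open Pool.Agent.W36.JL (cnt_diff ite_sub_le sum_inj)

section hyp

variable {m : ℕ} {a : ℤ} {δ : ℝ}

theorem loc_X (hlaw : ∀ x : ℝ, Dn (fun n => EB m a (bd x n) n) (δ * Phi x / m)) (x : ℝ) {c : ℝ} (h0 : 0 ≤ c) (h1 : c ≤ 1)
    {κ : ℝ} (hκ : 0 < κ) (j : ℕ) : ∃ X0 : ℕ, ∀ X : ℕ, X0 ≤ X →
      ∑ n ∈ Icc (1 : ℤ) X, |bal 1 (SX m a x) c (n + j) - bal 1 (SX m a x) c n| ≤ κ * X := by
  obtain ⟨N1, hN1⟩ := cmpB hlaw x c (show 0 < κ / 5 by positivity)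
  obtain ⟨N2, -, hN2⟩ := locO (show 0 < κ / 5 by positivity) j 1 (by norm_num) (by norm_num) j (by simp)
  refine ⟨N1 + N2 + j, fun X hX => ?_⟩
  have h2 := hN1 (X + j) (by omega)
  have h3 := hN2 X (by omega) _ (HC_same (gB_hc m a h0 h1 (bd x (X + j : ℕ))))
  simp only [one_mul] at h3
  obtain ⟨f, hf⟩ : ∃ f, f = bal 1 (SX m a x) c := ⟨_, rfl⟩
  obtain ⟨g, hg⟩ : ∃ g, g = gB m a c (bd x (X + j : ℕ)) := ⟨_, rfl⟩
  rw [← hf, ← hg] at h2
  rw [← hg] at h3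
  rw [← hf]
  have h4 : ∑ n ∈ Icc (1 : ℤ) X, |f (n + j) - g (n + j)| ≤ ∑ n ∈ Icc (1 : ℤ) ((X + j : ℕ) : ℤ), |f n - g n| :=
    sum_inj (F := fun n => |f n - g n|) (u := fun n => n + j) (fun _ => abs_nonneg _) (add_left_injective _)
      (fun n a1 a2 => by push_cast; constructor <;> omega)
  have h5 : ∑ n ∈ Icc (1 : ℤ) X, |f n - g n| ≤ ∑ n ∈ Icc (1 : ℤ) ((X + j : ℕ) : ℤ), |f n - g n| :=
    sum_inj (F := fun n => |f n - g n|) (u := fun n => n) (fun _ => abs_nonneg _) (fun _ _ h => h)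
      (fun n a1 a2 => by push_cast; constructor <;> omega)
  have h6 : ∑ n ∈ Icc (1 : ℤ) X, |f (n + j) - f n| ≤ ∑ n ∈ Icc (1 : ℤ) X, |f (n + j) - g (n + j)|
      + ∑ n ∈ Icc (1 : ℤ) X, |g (n + j) - g n| + ∑ n ∈ Icc (1 : ℤ) X, |f n - g n| := by
    rw [← sum_add_distrib, ← sum_add_distrib]
    apply sum_le_sum
    intro n _
    have e1 := abs_sub_le (f (n + j)) (g (n + j)) (f n)
    have e2 := abs_sub_le (g (n + j)) (g n) (f n)
    rw [abs_sub_comm (g n) (f n)] at e2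
    linarith
  have h7 : ((X + j : ℕ) : ℝ) ≤ 2 * X := by
    have : X + j ≤ 2 * X := by omega
    exact_mod_cast this
  have h8 : κ / 5 * ((X + j : ℕ) : ℝ) ≤ κ / 5 * (2 * X) := mul_le_mul_of_nonneg_left h7 (by positivity)
  linarith

theorem dilm_X (hlaw : ∀ x : ℝ, Dn (fun n => EB m a (bd x n) n) (δ * Phi x / m)) (x : ℝ) {c : ℝ} (h0 : 0 ≤ c) (h1 : c ≤ 1)
    {κ : ℝ} (hκ : 0 < κ) : ∃ X0 : ℕ, ∀ X : ℕ, X0 ≤ X →
      ∑ n ∈ Icc (1 : ℤ) X, |bal 1 (SX m a x) c ((3 ^ m : ℕ) * n) - bal 1 (SX m a x) c n| ≤ κ * X := by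
  have h3m : (0 : ℝ) < (3 : ℝ) ^ m := by positivity
  obtain ⟨N1, hN1⟩ := cmpB hlaw x c (show 0 < κ / (3 * 3 ^ m) by positivity)
  obtain ⟨N2, hN2⟩ := dilpO m (show 0 < κ / 3 by positivity)
  obtain ⟨N3, hN3⟩ := cmpC hlaw x c (show 0 < κ / 3 by positivity) (3 ^ m) m (Nat.one_le_pow _ _ (by norm_num))
  refine ⟨N1 + N2 + N3, fun X hX => ?_⟩
  have hle : X ≤ 3 ^ m * X := Nat.le_mul_of_pos_left _ (by positivity)
  have h2 := hN1 (3 ^ m * X) (by omega)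
  obtain ⟨B, hB⟩ : ∃ B, B = bd x (3 ^ m * X) := ⟨_, rfl⟩
  have hc : |-c| ≤ 1 := by rw [abs_neg, abs_of_nonneg h0]; exact h1
  have h3 := hN2 X (by omega) (pB m a c B) (-c) (pB_abs m a h0 h1 B) hc
  have h4 := hN3 X (by omega)
  rw [pB_shift, ← gB_fo, ← gB_fo] at h3
  rw [← hB] at h2 h4
  obtain ⟨f, hf⟩ : ∃ f, f = bal 1 (SX m a x) c := ⟨_, rfl⟩
  obtain ⟨g, hg⟩ : ∃ g, g = gB m a c B := ⟨_, rfl⟩
  obtain ⟨g', hg'⟩ : ∃ g', g' = gB m a c (B + m) := ⟨_, rfl⟩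
  rw [← hf, ← hg] at h2
  rw [← hg, ← hg'] at h3
  rw [← hf, ← hg'] at h4
  rw [← hf]
  have hinj : Function.Injective (fun n : ℤ => (3 : ℤ) ^ m * n) := fun a b h => mul_left_cancel₀ (pow_ne_zero m (by norm_num)) h
  have h3m1 : (1 : ℤ) ≤ 3 ^ m := one_le_pow₀ (by norm_num)
  have h5 : ∑ n ∈ Icc (1 : ℤ) X, |f (3 ^ m * n) - g (3 ^ m * n)| ≤ ∑ n ∈ Icc (1 : ℤ) ((3 ^ m * X : ℕ) : ℤ), |f n - g n| :=
    sum_inj (F := fun n => |f n - g n|) (u := fun n => 3 ^ m * n) (fun _ => abs_nonneg _) hinj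
      (fun n a1 a2 => by
        push_cast
        constructor
        · nlinarith
        · exact mul_le_mul_of_nonneg_left a2 (by positivity))
  have h6 : ∑ n ∈ Icc (1 : ℤ) X, |f ((3 ^ m : ℕ) * n) - f n| ≤ ∑ n ∈ Icc (1 : ℤ) X, |f (3 ^ m * n) - g (3 ^ m * n)|
      + ∑ n ∈ Icc (1 : ℤ) X, |g (3 ^ m * n) - g' n| + ∑ n ∈ Icc (1 : ℤ) X, |f n - g' n| := by
    rw [← sum_add_distrib, ← sum_add_distrib]
    apply sum_le_sum
    intro n _
    have e0 : ((3 ^ m : ℕ) : ℤ) * n = 3 ^ m * n := by push_cast; rfl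
    rw [e0]
    have e1 := abs_sub_le (f (3 ^ m * n)) (g (3 ^ m * n)) (f n)
    have e2 := abs_sub_le (g (3 ^ m * n)) (g' n) (f n)
    rw [abs_sub_comm (g' n) (f n)] at e2
    linarith
  have h8 : κ / (3 * 3 ^ m) * ((3 ^ m * X : ℕ) : ℝ) = κ / 3 * X := by push_cast; field_simp
  rw [h8] at h2
  linarith

/-- the number of odd terms does not change under doubling -/
theorem EB_two {B : ℝ} {n : ℕ} : EB m a B (2 * n) ↔ EB m a B n := by
  have key : ∀ t : ℕ, OT (2 * n) t ↔ OT n t := by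
    intro t
    have e : ∀ n : ℕ, (OT n t ↔ OZ (n : ℤ) t) := by
      intro n
      rw [OZ_nat]
      constructor
      · intro h2; exact ⟨t, rfl, h2⟩
      · rintro ⟨o, h2, h3⟩
        have : t = o := by exact_mod_cast h2
        rw [this]; exact h3
    rw [e, e]
    push_cast
    exact OZ_two
  unfold EB
  simp only [key]

theorem dil2_X (hlaw : ∀ x : ℝ, Dn (fun n => EB m a (bd x n) n) (δ * Phi x / m)) (x c : ℝ)
    {κ : ℝ} (hκ : 0 < κ) : ∃ X0 : ℕ, ∀ X : ℕ, X0 ≤ X →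
      ∑ n ∈ Icc (1 : ℤ) X, |bal 1 (SX m a x) c ((2 : ℕ) * n) - bal 1 (SX m a x) c n| ≤ κ * X := by
  classical
  obtain ⟨η, hη, N1, h1⟩ := stab hlaw x (show 0 < κ / 2 by positivity)
  obtain ⟨N2, hN2, h2⟩ := bd_near x hη 0 (Real.log 2)
  obtain ⟨N3, hN3⟩ := exists_nat_ge (2 * N2 / κ)
  refine ⟨N1 + N3, fun X hX => ?_⟩
  rw [sum_cast]
  have key : ∀ n ∈ Icc 1 X, |bal 1 (SX m a x) c ((2 : ℕ) * (n : ℕ)) - bal 1 (SX m a x) c (n : ℕ)|
      ≤ (if (n : ℝ) ≤ N2 then 1 else 0)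
        + (if (EB m a (bd (x + η) n) n ∧ ¬ EB m a (bd (x - η) n) n) then 1 else 0) := by
    intro n hn
    rw [mem_Icc] at hn
    have e0 : ((2 : ℕ) : ℤ) * ((n : ℕ) : ℤ) = ((2 * n : ℕ) : ℤ) := by push_cast; ring
    rw [e0, bal_nat m a x c hn.1, bal_nat m a x c (by omega)]
    have e1 : EB m a (bd x (2 * n)) (2 * n) ↔ EB m a (bd x (2 * n)) n := EB_two
    simp only [e1]
    by_cases h3 : (n : ℝ) ≤ N2
    · rw [if_pos h3]
      have h4 := ite_sub_le (P := EB m a (bd x (2 * n)) n) (Q := EB m a (bd x n) n) (R := True) (fun _ => trivial) c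
      have h5 : (0 : ℝ) ≤ (if (EB m a (bd (x + η) n) n ∧ ¬ EB m a (bd (x - η) n) n) then 1 else 0) := by
        split_ifs <;> norm_num
      rw [if_pos trivial] at h4
      linarith
    · rw [if_neg h3, zero_add]
      push Not at h3
      have hn2 : N2 ≤ n := by exact_mod_cast h3.le
      have hnp : (0 : ℝ) < n := by exact_mod_cast hn.1
      have h4 : |Real.log ((2 * n : ℕ) : ℝ) - Real.log n| ≤ Real.log 2 := by
        push_cast
        rw [Real.log_mul (by norm_num) hnp.ne', add_sub_cancel_right, abs_of_nonneg]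
        have := Real.log_two_gt_d9
        linarith
      have h5 := h2 n (2 * n) hn2 (by omega) h4
      rw [add_zero, add_zero] at h5
      exact ite_sub_le (fun h => EB_sand h5.1 h5.2 (bd_mono (by linarith) n) (bd_mono (by linarith) n) h) c
  refine (sum_le_sum key).trans ?_
  rw [sum_add_distrib]
  have e1 : ∑ n ∈ Icc 1 X, (if (n : ℝ) ≤ N2 then (1 : ℝ) else 0) = cnt (fun n => (n : ℝ) ≤ N2) X := by
    rw [cnt_eq, Finset.sum_boole]
  have e2 : ∑ n ∈ Icc 1 X, (if (EB m a (bd (x + η) n) n ∧ ¬ EB m a (bd (x - η) n) n) then (1 : ℝ) else 0)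
      = cnt (fun n => EB m a (bd (x + η) n) n ∧ ¬ EB m a (bd (x - η) n) n) X := by
    rw [cnt_eq, Finset.sum_boole]
  rw [e1, e2]
  have h6 := cnt_small (show (0 : ℝ) ≤ N2 by positivity) X
  have h7 := h1 X (by omega)
  have h8 : 2 * (N2 : ℝ) / κ ≤ X := hN3.trans (by exact_mod_cast (by omega : N3 ≤ X))
  rw [div_le_iff₀ hκ] at h8
  linarith

end hyp

end Pool.Agent.K3h45.HJ
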