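import Pool.Agent.K3h45.HJ.H7A
import Pool.Agent.W36.JL.J8

/-! Fourier coefficients of the level sets. -/

set_option autoImplicit false

namespace Pool.Agent.K3h45.HJ

open Finset Filter Topology Pool.Agent.H320R2.PD
open Pool.Agent.H499R2.ND (Tn Dn cnt cnt_eq cnt_mono cnt_or cnt_small cnt_le Td Phi Phi_mono Phi_continuous Bas)
open Pool.Agent.H499R2.CO (Tz)
open Pool.Agent.W41 (ind)
open Pool.Agent.W41.FU (bal EE ee abel ee_diff ee_norm EE_triv EE_abs EE_res res)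
open Pool.Agent.W36.GU (sum_cast Hyp Dil win psi psi_int)
open Pool.Agent.W36.JL (cnt_diff ite_sub_le sum_inj bal_abs' EE_cmp)

section hyp

variable {m : ℕ} {a : ℤ} {δ : ℝ}

/-- partial sums -/
theorem part_X (hlaw : ∀ x : ℝ, Dn (fun n => EB m a (bd x n) n) (δ * Phi x / m)) (x : ℝ) {κ : ℝ} (hκ : 0 < κ) :
    ∃ n0 : ℕ, ∀ n : ℕ, n0 ≤ n → |∑ l ∈ Icc 1 n, bal 1 (SX m a x) (δ * Phi x / m) (l : ℕ)| ≤ κ * n := by
  classical
  have h1 := Metric.tendsto_atTop.1 (hlaw x) κ hκ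
  obtain ⟨n0, h1⟩ := h1
  refine ⟨n0 + 1, fun n hn => ?_⟩
  have h2 := h1 n (by omega)
  have hn : (0 : ℝ) < n := by exact_mod_cast (by omega : 0 < n)
  have e : ∑ l ∈ Icc 1 n, bal 1 (SX m a x) (δ * Phi x / m) (l : ℕ)
      = (cnt (fun n => EB m a (bd x n) n) n / n - δ * Phi x / m) * n := by
    have e1 : ∑ l ∈ Icc 1 n, bal 1 (SX m a x) (δ * Phi x / m) (l : ℕ)
        = ∑ l ∈ Icc 1 n, ((if EB m a (bd x l) l then (1 : ℝ) else 0) - δ * Phi x / m) := by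
      apply sum_congr rfl
      intro l hl
      rw [mem_Icc] at hl
      exact bal_nat m a x _ hl.1
    rw [e1, sum_sub_distrib, Finset.sum_boole, ← cnt_eq, sum_const, Nat.card_Icc, Nat.add_sub_cancel, nsmul_eq_mul]
    field_simp
  rw [e, abs_mul, abs_of_pos hn]
  rw [Real.dist_eq] at h2
  exact mul_le_mul_of_nonneg_right h2.le hn.le

/-- small frequencies -/
theorem small_X (hlaw : ∀ x : ℝ, Dn (fun n => EB m a (bd x n) n) (δ * Phi x / m)) (x : ℝ) (h0 : 0 ≤ δ * Phi x / m) (h1 : δ * Phi x / m ≤ 1)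
    {ε : ℝ} (hε : 0 < ε) {C : ℝ} (hC : 1 ≤ C) : ∃ N0 : ℕ, 1 ≤ N0 ∧
    ∀ N : ℕ, N0 ≤ N → ∀ α : ℝ, |α| * N ≤ C → ‖EE (bal 1 (SX m a x) (δ * Phi x / m)) N α‖ ≤ ε * N := by
  set K : ℝ := 1 + 2 * Real.pi * C with hK
  have hKp : 0 < K := by positivity
  obtain ⟨n0, h⟩ := part_X hlaw x (show 0 < ε / (2 * K) by positivity)
  obtain ⟨n1, hn1⟩ := exists_nat_ge (2 * K * n0 / ε)
  refine ⟨n0 + n1 + 1, by omega, fun N hN α hα => ?_⟩
  have hN1 : (0 : ℝ) < N := by exact_mod_cast (by omega : 0 < N)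
  obtain ⟨f, hf⟩ : ∃ f, f = bal 1 (SX m a x) (δ * Phi x / m) := ⟨_, rfl⟩
  have hf1 : ∀ n, |f n| ≤ 1 := by rw [hf]; exact bal_abs' _ h0 h1
  rw [← hf] at h ⊢
  have hb : ∀ n : ℕ, n ≤ N → |∑ l ∈ Icc 1 n, f (l : ℕ)| ≤ ε / (2 * K) * N + n0 := by
    intro n hn
    rcases le_or_gt n0 n with h1 | h1
    · refine (h n h1).trans ?_
      have : (n : ℝ) ≤ N := by exact_mod_cast hn
      have h2 : ε / (2 * K) * n ≤ ε / (2 * K) * N := mul_le_mul_of_nonneg_left this (by positivity)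
      have h3 : (0 : ℝ) ≤ n0 := Nat.cast_nonneg _
      linarith
    · have h2 : |∑ l ∈ Icc 1 n, f (l : ℕ)| ≤ n := by
        refine (abs_sum_le_sum_abs _ _).trans ?_
        refine (sum_le_card_nsmul _ _ 1 (fun l _ => hf1 _)).trans ?_
        rw [Nat.card_Icc, Nat.add_sub_cancel, nsmul_eq_mul, mul_one]
      have h6 : (n : ℝ) ≤ n0 := by exact_mod_cast h1.le
      have h7 : 0 ≤ ε / (2 * K) * N := by positivity
      linarith
  set B : ℝ := ε / (2 * K) * N + n0 with hB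
  have hB0 : 0 ≤ B := by positivity
  rw [abel]
  refine (norm_sub_le _ _).trans ?_
  have e1 : ‖((∑ n ∈ Icc 1 N, f (n : ℕ) : ℝ) : ℂ) * ee α (N + 1)‖ ≤ B := by
    rw [norm_mul, ee_norm, mul_one, Complex.norm_real, Real.norm_eq_abs]
    exact hb N le_rfl
  have e2 : ‖∑ n ∈ Icc 1 N, ((∑ m ∈ Icc 1 n, f (m : ℕ) : ℝ) : ℂ) * (ee α ((n : ℕ) + 1) - ee α (n : ℕ))‖
      ≤ 2 * Real.pi * C * B := by
    refine (norm_sum_le _ _).trans ?_
    have h1 : ∀ n ∈ Icc 1 N, ‖((∑ m ∈ Icc 1 n, f (m : ℕ) : ℝ) : ℂ) * (ee α ((n : ℕ) + 1) - ee α (n : ℕ))‖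
        ≤ B * (2 * Real.pi * |α|) := by
      intro n hn
      rw [norm_mul, Complex.norm_real, Real.norm_eq_abs]
      exact mul_le_mul (hb n (mem_Icc.1 hn).2) (ee_diff α n) (norm_nonneg _) hB0
    refine (sum_le_sum h1).trans ?_
    rw [sum_const, Nat.card_Icc, Nat.add_sub_cancel, nsmul_eq_mul]
    calc (N : ℝ) * (B * (2 * Real.pi * |α|)) = 2 * Real.pi * B * (|α| * N) := by ring
      _ ≤ 2 * Real.pi * B * C := mul_le_mul_of_nonneg_left hα (by positivity)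
      _ = _ := by ring
  have e3 : K * B ≤ ε * N := by
    have h1 : K * (ε / (2 * K) * N) = ε / 2 * N := by field_simp
    have h2 : 2 * K * n0 / ε ≤ N := hn1.trans (by exact_mod_cast (by omega : n1 ≤ N))
    rw [div_le_iff₀ hε] at h2
    rw [hB, mul_add, h1]
    linarith
  have e4 : B + 2 * Real.pi * C * B = K * B := by rw [hK]; ring
  linarith

/-- all frequencies -/
theorem fou_all (hlaw : ∀ x : ℝ, Dn (fun n => EB m a (bd x n) n) (δ * Phi x / m)) (x : ℝ) (h0 : 0 ≤ δ * Phi x / m) (h1 : δ * Phi x / m ≤ 1)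
    {ε : ℝ} (hε : 0 < ε) (hε1 : ε ≤ 1) : ∃ N0 : ℕ, 1 ≤ N0 ∧
    ∀ N : ℕ, N0 ≤ N → ∀ α : ℝ, ‖EE (bal 1 (SX m a x) (δ * Phi x / m)) N α‖ ≤ ε * N := by
  obtain ⟨C, hC, N1, hN1, hf⟩ := fourierO rfl odd_one isCoprime_one_left (by norm_num) (show 0 < ε / 2 by positivity) (by linarith)
  obtain ⟨N2, hN2, hs⟩ := small_X hlaw x h0 h1 hε hC
  obtain ⟨N3, hc⟩ := cmpB hlaw x (δ * Phi x / m) (show 0 < ε / 2 by positivity)
  refine ⟨N1 + N2 + N3, by omega, fun N hN α => ?_⟩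
  rcases le_or_gt C (|α - round α| * N) with h | h
  · have h3 := hf N (by omega) α h _ (gB_hc m a h0 h1 (bd x N))
    have h4 := hc N (by omega)
    have h5 := EE_cmp (bal 1 (SX m a x) (δ * Phi x / m)) (gB m a (δ * Phi x / m) (bd x N)) N α
    linarith
  · rw [EE_abs]
    apply hs N (by omega)
    rw [abs_abs]
    exact h.le

theorem fou_X (hlaw : ∀ x : ℝ, Dn (fun n => EB m a (bd x n) n) (δ * Phi x / m)) (x : ℝ) (h0 : 0 ≤ δ * Phi x / m) (h1 : δ * Phi x / m ≤ 1)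
    {κ : ℝ} (hκ : 0 < κ) : ∃ X0 : ℕ, ∀ X : ℕ, X0 ≤ X → ∀ M N : ℕ, M ≤ N → N ≤ X →
    ∀ (p : ℕ) [NeZero p] (ζ : ZMod p), ‖∑ n ∈ Icc (1 : ℤ) X, (win M N (bal 1 (SX m a x) (δ * Phi x / m)) n : ℂ) * psi p (ζ * n)‖ ≤ κ * X := by
  obtain ⟨ε, hε⟩ : ∃ ε, ε = min κ 1 := ⟨_, rfl⟩
  have hε0 : 0 < ε := by rw [hε]; exact lt_min hκ one_pos
  have hε1 : ε ≤ 1 := by rw [hε]; exact min_le_right _ _
  have hεκ : ε ≤ κ := by rw [hε]; exact min_le_left _ _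
  obtain ⟨n0, hn0, h⟩ := fou_all hlaw x h0 h1 (show 0 < ε / 2 by positivity) (by linarith)
  obtain ⟨n1, hn1⟩ := exists_nat_ge (2 * n0 / ε)
  refine ⟨n0 + n1, fun X hX M N hMN hN p hp ζ => ?_⟩
  obtain ⟨f, hf⟩ : ∃ f, f = bal 1 (SX m a x) (δ * Phi x / m) := ⟨_, rfl⟩
  have hf1 : ∀ n, |f n| ≤ 1 := by rw [hf]; exact bal_abs' _ h0 h1
  rw [← hf] at h ⊢
  have hb : ∀ n : ℕ, n ≤ X → ∀ α : ℝ, ‖EE f n α‖ ≤ ε / 2 * X := by
    intro n hn α
    rcases le_or_gt n0 n with h1 | h1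
    · refine (h n h1 α).trans ?_
      have : (n : ℝ) ≤ X := by exact_mod_cast hn
      exact mul_le_mul_of_nonneg_left this (by positivity)
    · refine (EE_triv hf1 n α).trans ?_
      have h2 : 2 * n0 / ε ≤ X := hn1.trans (by exact_mod_cast (by omega : n1 ≤ X))
      rw [div_le_iff₀ hε0] at h2
      have h3 : (n : ℝ) ≤ n0 := by exact_mod_cast h1.le
      linarith
  have e1 : ∑ n ∈ Icc (1 : ℤ) X, (win M N f n : ℂ) * psi p (ζ * n) = EE (res M N f) X ((ζ.val : ℝ) / p) := by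
    rw [sum_cast]
    unfold EE
    apply sum_congr rfl
    intro n _
    have e2 : psi p (ζ * ((n : ℕ) : ℤ)) = ee ((ζ.val : ℝ) / p) (n : ℕ) := by
      have e3 : ζ * (((n : ℕ) : ℤ) : ZMod p) = (((ζ.val : ℤ) * (n : ℕ) : ℤ) : ZMod p) := by
        push_cast
        rw [ZMod.natCast_zmod_val]
      rw [e3, psi_int]
      unfold ee
      congr 1
      push_cast
      ring
    rw [e2]
    rfl
  rw [e1, EE_res _ hMN hN]
  refine (norm_sub_le _ _).trans ?_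
  have h3 := hb N hN ((ζ.val : ℝ) / p)
  have h4 := hb M (hMN.trans hN) ((ζ.val : ℝ) / p)
  have h5 : ε * X ≤ κ * X := mul_le_mul_of_nonneg_right hεκ (Nat.cast_nonneg _)
  linarith

end hyp

end Pool.Agent.K3h45.HJ
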